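import Pool.Agent.KT.Alg.Sl

/-!
# KT, algebra part: [Simp] the symplectic Lie algebra is simple
-/

set_option autoImplicit false

namespace Pool.Agent.KT.Alg

open Module
open Pool.Agent.Helper8 (Symp)

section

variable {V : Type} [AddCommGroup V] [Module ℂ V] (ω : V →ₗ[ℂ] V →ₗ[ℂ] ℂ)

/-- the operator `x ↦ ω u x v + ω v x u` -/
def Simp_dot (u v : V) : Module.End ℂ V :=
  (ω u).smulRight v + (ω v).smulRight u

theorem Simp_dot_apply (u v x : V) : Simp_dot ω u v x = ω u x • v + ω v x • u := rfl

/-- the operator is skew -/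
def Simp_sk (Y : Module.End ℂ V) : Prop := ∀ u v, ω (Y u) v + ω u (Y v) = 0

variable {ω}

theorem Simp_self (alt : ∀ x y, ω x y = - ω y x) (x : V) : ω x x = 0 := by
  have h := alt x x
  have h2 : (2 : ℂ) * ω x x = 0 := by linear_combination h
  exact (mul_eq_zero.1 h2).resolve_left two_ne_zero

theorem Simp_dot_sk (alt : ∀ x y, ω x y = - ω y x) (u v : V) : Simp_sk ω (Simp_dot ω u v) := by
  intro x y
  simp only [Simp_dot_apply, map_add, map_smul, LinearMap.add_apply, LinearMap.smul_apply,
    smul_eq_mul]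
  rw [alt x v, alt x u]
  ring

theorem Simp_comm {Z : Module.End ℂ V} (hZ : Simp_sk ω Z) (u v : V) :
    Z * Simp_dot ω u v - Simp_dot ω u v * Z = Simp_dot ω (Z u) v + Simp_dot ω u (Z v) := by
  ext x
  change Z (Simp_dot ω u v x) - Simp_dot ω u v (Z x) =
    Simp_dot ω (Z u) v x + Simp_dot ω u (Z v) x
  simp only [Simp_dot_apply, map_add, map_smul]
  have h1 := hZ u x
  have h2 := hZ v x
  have h3 : ω u (Z x) = - ω (Z u) x := by linear_combination h1
  have h4 : ω v (Z x) = - ω (Z v) x := by linear_combination h2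
  rw [h3, h4]
  module

theorem Simp_ex (alt : ∀ x y, ω x y = - ω y x) (nd : ∀ x, (∀ y, ω x y = 0) → x = 0)
    {Y : Module.End ℂ V} (hY : Simp_sk ω Y) {w : V} (hw : Y w ≠ 0) : ∃ v, ω v (Y v) ≠ 0 := by
  by_contra hcon
  push Not at hcon
  apply hw
  apply nd
  intro u
  have h1 := hcon (u + w)
  have h2 := hcon u
  have h3 := hcon w
  have h4 := hY u w
  have h5 := alt (Y u) w
  have h6 := alt (Y w) u
  simp only [map_add, LinearMap.add_apply] at h1
  rw [h2, h3] at h1
  linear_combination h6 - (1 / 2) * h1 + (1 / 2) * h5 - (1 / 2) * h4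

/-- a skew operator is a combination of the operators `dot` -/
theorem Simp_span [FiniteDimensional ℂ V] (alt : ∀ x y, ω x y = - ω y x)
    (nd : ∀ x, (∀ y, ω x y = 0) → x = 0) (S : Submodule ℂ (Module.End ℂ V))
    (hS : ∀ u v, Simp_dot ω u v ∈ S) {Y : Module.End ℂ V} (hY : Simp_sk ω Y) : Y ∈ S := by
  classical
  have hinj : Function.Injective ω := by
    rw [← LinearMap.ker_eq_bot, LinearMap.ker_eq_bot']
    intro x hx
    exact nd x fun y => by rw [hx]; rfl
  have hsurj : Function.Surjective ω :=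
    (LinearMap.injective_iff_surjective_of_finrank_eq_finrank
      (Subspace.dual_finrank_eq (K := ℂ) (V := V)).symm).1 hinj
  let b := Module.finBasis ℂ V
  choose e he using fun i => hsurj (b.coord i)
  have hej : ∀ i j, ω (e i) (b j) = if j = i then 1 else 0 := by
    intro i j
    rw [he, Module.Basis.coord_apply, Module.Basis.repr_self, Finsupp.single_apply]
  have h1 : ∀ x, ∑ i, ω (e i) x • b i = x := by
    intro x
    simp only [he, Module.Basis.coord_apply]
    exact b.sum_repr x
  have h2 : ∀ z, ∑ i, ω (b i) z • e i = -z := by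
    intro z
    have h3 : ∑ i, ω (b i) z • e i + z = 0 := by
      apply nd
      intro y
      rw [← h1 y]
      simp only [map_sum, map_smul, map_add, LinearMap.add_apply, LinearMap.sum_apply,
        LinearMap.smul_apply, smul_eq_mul, hej]
      refine Finset.sum_eq_zero fun j _ => ?_
      have h4 : ∑ i, ω (b i) z * (if j = i then (1 : ℂ) else 0) = ω (b j) z := by
        simp
      rw [h4, alt (b j) z]
      ring
    exact eq_neg_of_add_eq_zero_left h3
  have h5 : Y = (1 / 2 : ℂ) • ∑ i, Simp_dot ω (e i) (Y (b i)) := by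
    ext x
    rw [LinearMap.smul_apply, LinearMap.sum_apply]
    simp only [Simp_dot_apply, Finset.sum_add_distrib]
    have h6 : ∑ i, ω (e i) x • Y (b i) = Y x := by
      conv_rhs => rw [← h1 x]
      rw [map_sum]
      exact Finset.sum_congr rfl fun i _ => (map_smul Y _ _).symm
    have h7 : ∑ i, ω (Y (b i)) x • e i = Y x := by
      have h8 := h2 (Y x)
      rw [← neg_neg (Y x), ← h8, ← Finset.sum_neg_distrib]
      refine Finset.sum_congr rfl fun i _ => ?_
      rw [← neg_smul]
      congr 1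
      linear_combination hY (b i) x
    rw [h6, h7]
    module
  rw [h5]
  exact S.smul_mem _ (S.sum_mem fun i _ => hS _ _)

end

theorem thm_Simp : St_Simp := by
  intro L V _ _ _ _ _ _ _ ω N hω hsurj hN Y hY
  obtain ⟨alt, nd, inv⟩ := hω
  -- the operators given by the ideal
  let S : Submodule ℂ (Module.End ℂ V) :=
    { carrier := {Y | ∃ x ∈ N, ∀ v : V, ⁅x, v⁆ = Y v}
      add_mem' := by
        rintro A B ⟨a, ha, ha'⟩ ⟨b, hb, hb'⟩
        exact ⟨a + b, N.add_mem ha hb, fun v => by
          rw [add_lie, ha', hb', LinearMap.add_apply]⟩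
      zero_mem' := ⟨0, N.zero_mem, fun v => by rw [zero_lie, LinearMap.zero_apply]⟩
      smul_mem' := by
        rintro c A ⟨a, ha, ha'⟩
        exact ⟨c • a, N.smul_mem c ha, fun v => by
          rw [smul_lie, ha', LinearMap.smul_apply]⟩ }
  have hSdef : ∀ A, A ∈ S ↔ ∃ x ∈ N, ∀ v : V, ⁅x, v⁆ = A v := fun A => Iff.rfl
  have hSsk : ∀ A ∈ S, Simp_sk ω A := by
    rintro A ⟨a, -, ha⟩ u v
    rw [← ha, ← ha, inv]
    ring
  have hcomm : ∀ Z : Module.End ℂ V, Simp_sk ω Z → ∀ A ∈ S, Z * A - A * Z ∈ S := by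
    rintro Z hZ A ⟨a, ha, ha'⟩
    obtain ⟨z, hz⟩ := hsurj Z hZ
    refine ⟨⁅z, a⁆, lie_mem_right ℂ L N z a ha, fun v => ?_⟩
    rw [lie_lie, ha', hz, hz, ha']
    rfl
  have hself := Simp_self alt
  -- the first square
  obtain ⟨v, hv⟩ : ∃ v : V, Simp_dot ω v v ∈ S ∧ v ≠ 0 := by
    obtain ⟨a, ha, w, hw⟩ := hN
    let A : Module.End ℂ V := LieModule.toEnd ℂ L V a
    have hA : A ∈ S := ⟨a, ha, fun v => rfl⟩
    obtain ⟨v, hv⟩ := Simp_ex alt nd (hSsk A hA) (w := w) hw
    have hv0 : v ≠ 0 := by
      rintro rfl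
      apply hv
      rw [map_zero, LinearMap.zero_apply]
    refine ⟨v, ?_, hv0⟩
    have h1 := hcomm _ (Simp_dot_sk alt v v) A hA
    have h2 : Simp_dot ω v v * A - A * Simp_dot ω v v =
        -(Simp_dot ω (A v) v + Simp_dot ω v (A v)) := by
      rw [← Simp_comm (hSsk A hA) v v, neg_sub]
    rw [h2] at h1
    have h3 : Simp_dot ω v (A v) = Simp_dot ω (A v) v := by
      ext x
      rw [Simp_dot_apply, Simp_dot_apply, add_comm]
    rw [h3] at h1
    have h4 : Simp_dot ω (A v) v ∈ S := by
      have h5 := S.smul_mem (-(1 / 2) : ℂ) h1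
      have h6 : (-(1 / 2) : ℂ) • -(Simp_dot ω (A v) v + Simp_dot ω (A v) v) =
          Simp_dot ω (A v) v := by module
      rw [h6] at h5
      exact h5
    have h5 := hcomm _ (Simp_dot_sk alt v v) _ h4
    rw [Simp_comm (Simp_dot_sk alt v v)] at h5
    have h6 : Simp_dot ω (Simp_dot ω v v (A v)) v + Simp_dot ω (A v) (Simp_dot ω v v v) =
        (2 * ω v (A v)) • Simp_dot ω v v := by
      ext x
      rw [LinearMap.add_apply, LinearMap.smul_apply]
      simp only [Simp_dot_apply, hself, map_add, map_smul, LinearMap.add_apply,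
        LinearMap.smul_apply, smul_eq_mul, zero_smul, add_zero, smul_zero,
        LinearMap.zero_apply, map_zero]
      module
    rw [h6] at h5
    have h7 := S.smul_mem (2 * ω v (A v))⁻¹ h5
    rw [smul_smul, inv_mul_cancel₀ (mul_ne_zero two_ne_zero hv), one_smul] at h7
    exact h7
  obtain ⟨hv, hv0⟩ := hv
  -- the squares which are not orthogonal to `v`
  have hsq : ∀ w, ω w v ≠ 0 → Simp_dot ω w w ∈ S := by
    intro w hw
    have h1 := hcomm _ (Simp_dot_sk alt w w) _ hv
    rw [Simp_comm (Simp_dot_sk alt w w)] at h1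
    have h2 : Simp_dot ω (Simp_dot ω w w v) v + Simp_dot ω v (Simp_dot ω w w v) =
        (4 * ω w v) • Simp_dot ω w v := by
      ext x
      rw [LinearMap.add_apply, LinearMap.smul_apply]
      simp only [Simp_dot_apply, map_add, map_smul, LinearMap.add_apply,
        LinearMap.smul_apply, smul_eq_mul]
      module
    rw [h2] at h1
    have h3 : Simp_dot ω w v ∈ S := by
      have h4 := S.smul_mem (4 * ω w v)⁻¹ h1
      rw [smul_smul, inv_mul_cancel₀ (mul_ne_zero (by norm_num : (4 : ℂ) ≠ 0) hw), one_smul] at h4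
      exact h4
    have h4 := hcomm _ (Simp_dot_sk alt w w) _ h3
    rw [Simp_comm (Simp_dot_sk alt w w)] at h4
    have h5 : Simp_dot ω (Simp_dot ω w w w) v + Simp_dot ω w (Simp_dot ω w w v) =
        (2 * ω w v) • Simp_dot ω w w := by
      ext x
      rw [LinearMap.add_apply, LinearMap.smul_apply]
      simp only [Simp_dot_apply, hself, map_add, map_smul, LinearMap.add_apply,
        LinearMap.smul_apply, smul_eq_mul, zero_smul, add_zero, smul_zero,
        LinearMap.zero_apply, map_zero]
      module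
    rw [h5] at h4
    have h6 := S.smul_mem (2 * ω w v)⁻¹ h4
    rw [smul_smul, inv_mul_cancel₀ (mul_ne_zero two_ne_zero hw), one_smul] at h6
    exact h6
  -- all squares
  obtain ⟨u, hu⟩ : ∃ u, ω u v ≠ 0 := by
    by_contra hcon
    push Not at hcon
    apply hv0
    apply nd
    intro y
    rw [alt, hcon, neg_zero]
  have hsq' : ∀ w, Simp_dot ω w w ∈ S := by
    intro w
    by_cases hw : ω w v = 0
    · have h1 := hsq (w + u) (by rw [map_add, LinearMap.add_apply, hw, zero_add]; exact hu)
      have h2 := hsq (w - u) (by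
        rw [map_sub, LinearMap.sub_apply, hw, zero_sub]; exact neg_ne_zero.2 hu)
      have h3 := hsq u hu
      have h4 : Simp_dot ω w w = (1 / 2 : ℂ) • (Simp_dot ω (w + u) (w + u) +
          Simp_dot ω (w - u) (w - u)) - Simp_dot ω u u := by
        ext x
        rw [LinearMap.sub_apply, LinearMap.smul_apply, LinearMap.add_apply]
        simp only [Simp_dot_apply, map_add, map_sub, LinearMap.add_apply, LinearMap.sub_apply]
        module
      rw [h4]
      exact S.sub_mem (S.smul_mem _ (S.add_mem h1 h2)) h3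
    · exact hsq w hw
  have hdot : ∀ w u, Simp_dot ω w u ∈ S := by
    intro w u
    have h4 : Simp_dot ω w u = (1 / 2 : ℂ) • (Simp_dot ω (w + u) (w + u) -
        Simp_dot ω w w - Simp_dot ω u u) := by
      ext x
      rw [LinearMap.smul_apply, LinearMap.sub_apply, LinearMap.sub_apply]
      simp only [Simp_dot_apply, map_add, LinearMap.add_apply]
      module
    rw [h4]
    exact S.smul_mem _ (S.sub_mem (S.sub_mem (hsq' _) (hsq' _)) (hsq' _))
  exact (hSdef Y).1 (Simp_span alt nd S hdot hY)

end Pool.Agent.KT.Alg
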