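import Pool.Agent.KT.Alg.Lab
import Pool.Agent.Helper8.H.MainH

/-!
# KT, algebra part: the action at the labels for families with generic surfaces
-/

set_option linter.unusedSectionVars false

namespace Pool.Agent.KT.Alg

open Module NumberField LieAlgebra

attribute [local instance 100] LieRing.ofAssociativeRing

open Pool.Agent.Helper7 Pool.Agent.Helper7.HU Pool.Agent.Helper24 Pool.Agent.GPC
open Pool.Agent.Helper8 (Symp ML2 Inv2 exists_linear Principal Triv ker_symm exists_str IsPl NoPair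
  KerLe Irr exists_principal isDRB_rho endo_cases finrank_Vs)
open Pool.Agent.Helper84 (EndK hN_of linked_hom linked_field nontriv_of iso2 nopair_hom noPair_of
  three_cases NoP nopair_quat')

section family

variable {I : Type} [Fintype I] [DecidableEq I] (n : I → ℕ)
  {κ : I → Type} [∀ i, Fintype (κ i)] [∀ i, DecidableEq (κ i)] {ϖ : ℂ}
  (P : ∀ i, PData (κ i) ϖ)
  {K : I → Type} [∀ i, Field (K i)] [∀ i, NumberField (K i)]
  (F : ∀ i, FS (P i) (K i))
  {k : ℕ} (α : MultilinearMap ℂ (fun _ : Fin (2 * k) => HW κ n) ℂ)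

variable (hϖ : ϖ ≠ 0)
  (hB : ∀ v : Fin (2 * k) → HW κ n, (∀ r, IsRatP n P (v r)) → ∃ q : ℚ, α v = ϖ ^ k * q)
  (hA : ∀ v : Fin (2 * k) → HW κ n, (∀ r i m j, IsAlgebraic ℚ (v r i m j)) →
      IsAlgebraic ℚ (α v))

include hϖ hB hA in
/-- the condition on the places linked to a place of dimension four, at one place -/
theorem hA_at (hk : IsKilling ℂ (LL n P F α)) (p : Principal (LL n P F α))
    (hE : ∀ i, (F i).isLeft → (F i).rk = 4 → n i ≠ 0 → EndK P F i)
    (hH : ∀ i j, i ≠ j → (F i).isLeft → (F j).isLeft → n i ≠ 0 → n j ≠ 0 →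
      ∀ g, IsDRB (P i) (P j) g → g = 0)
    (b : At n K) (hb : IsPl n P F α (pl n b) 4)
    (hCb : n b.1 ≤ 2 ∧
      ∀ j, (F j).isLeft → (F j).rk = 2 → n j ≠ 0 →
        IsEmpty (K b.1 →+* K j) ∨ (EndK P F j ∧ IsEmpty (K b.1 ≃+* K j)) ∨
          (n b.1 ≤ 1 ∧ ((n j ≤ 2 ∧ EndK P F j) ∨
          (n j ≤ 1 ∧ ∃ g0 : Module.End ℂ (κ j → ℂ), ∀ g, IsDRB (P j) (P j) g →
            ∃ x y : K j, ∀ v, g v = (F j).ρ x v + g0 ((F j).ρ y v))))) :
    CondB n P F α b := by
  unfold CondB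
  classical
  have hn0 : ∀ a : At n K, n a.1 ≠ 0 := fun a h0 => by
    have := a.2.1.2
    omega
  have hrkb : (F b.1).rk = 4 := by
    rw [← Helper8.finrank_Vs (n := n) (α := α) (pl n b) hb.1]
    exact hb.2
  -- a linked atom
  have hlink : ∀ a : At n K, IsPl n P F α (pl n a) 2 → KerLe n P F α (pl n b) (pl n a) →
      n b.1 ≤ 1 ∧ ((n a.1 ≤ 2 ∧ EndK P F a.1) ∨
          (n a.1 ≤ 1 ∧ ∃ g0 : Module.End ℂ (κ a.1 → ℂ), ∀ g, IsDRB (P a.1) (P a.1) g →
            ∃ x y : K a.1, ∀ v, g v = (F a.1).ρ x v + g0 ((F a.1).ρ y v))) := by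
    intro a ha hker
    have h1 := linked_hom n P F α hϖ hB hA hk p b.1 a.1 hb.1 ha.1 (hE b.1 hb.1 hrkb (hn0 b))
      b.2.2 a.2.2 hb.2 ha.2 hker
    have hrka : (F a.1).rk = 2 := by
      rw [← Helper8.finrank_Vs (n := n) (α := α) (pl n a) ha.1]
      exact ha.2
    rcases hCb.2 a.1 ha.1 hrka (hn0 a) with h2 | ⟨h2, h3⟩ | h2
    · exact absurd h1 (not_nonempty_iff.mpr h2)
    · exact absurd (linked_field n P F α hϖ hB hA hk p b.1 a.1 hb.1 ha.1
        (hE b.1 hb.1 hrkb (hn0 b)) h2 b.2.2 a.2.2 hb.2 ha.2 hker) (not_nonempty_iff.mpr h3)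
    · exact h2
  by_cases hnb : n b.1 ≤ 1
  · left
    refine ⟨hnb, fun S hS => ?_⟩
    rcases S.eq_empty_or_nonempty with hSe | ⟨a0, ha0⟩
    · rw [hSe]; simp
    · have h0 := hS a0 ha0
      have hl0 := hlink a0 h0.1 h0.2
      -- the kernels of the linked atoms are equal
      have nb := nontriv_of n P F α hb.2
      have n0 := nontriv_of n P F α h0.1.2
      have ib := Vs_irr n P F α hϖ hB hA (pl n b) hb.1 nb
      have i0 := Vs_irr n P F α hϖ hB hA (pl n a0) h0.1.1 n0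
      have ob := omV_symp n P F α (pl n b) hb.1
      have o0 := omV_symp n P F α (pl n a0) h0.1.1
      obtain ⟨mb, hmb, ⟨Sb⟩⟩ := exists_str (p := p) ob (Or.inr hb.2)
      obtain ⟨m0, hm0, ⟨S0⟩⟩ := exists_str (p := p) o0 (Or.inl h0.1.2)
      -- pairings of the linked atoms
      have hpair : ∀ a ∈ S, ∃ f : Vs n P F α (pl n a) → Vs n P F α (pl n a0) → ℂ, ML2 f ∧
          Inv2 (LL n P F α) f ∧ ∃ x y, f x y ≠ 0 := by
        intro a ha
        have h1 := hS a ha
        have na := nontriv_of n P F α h1.1.2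
        have ia := Vs_irr n P F α hϖ hB hA (pl n a) h1.1.1 na
        have oa := omV_symp n P F α (pl n a) h1.1.1
        obtain ⟨ma, hma, ⟨Sa⟩⟩ := exists_str (p := p) oa (Or.inl h1.1.2)
        exact iso2 p oa o0 h1.1.2 h0.1.2
          (fun x hx => h0.2 x (ker_symm ob hmb hma Sb Sa h1.2 x hx))
      have hidx : ∀ a ∈ S, a.1 = a0.1 := by
        intro a ha
        have h1 := hS a ha
        by_contra hne
        obtain ⟨f, hf, hI, x, y, hxy⟩ := hpair a ha
        exact hxy (nopair_hom n P F α hϖ hB hA (pl n a) (pl n a0) h1.1.1 h0.1.1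
          (hH a.1 a0.1 hne h1.1.1 h0.1.1 (hn0 a) (hn0 a0)) f hf hI x y)
      rcases hl0.2 with ⟨hn2, hEk⟩ | ⟨hn1, g0, hg0⟩
      · have hpl : ∀ a ∈ S, pl n a = pl n a0 := by
          intro a ha
          have h1 := hS a ha
          by_contra hne
          obtain ⟨f, hf, hI, x, y, hxy⟩ := hpair a ha
          have hE1 : EndK P F a.1 := by rw [hidx a ha]; exact hEk
          refine hxy (noPair_of n P F α hϖ hB hA h1.1.1 h0.1.1 hne
            (fun _ => hE1) (fun h2 => absurd (hidx a ha) h2) f hf hI x y)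
        have hsub : S ⊆ (Finset.univ : Finset (Fin (n a0.1))).image
            (fun m => (⟨a0.1, m, a0.2.2⟩ : At n K)) := by
          intro a ha
          have h2 := hpl a ha
          obtain ⟨i, m, σ⟩ := a
          obtain ⟨j, m', τ⟩ := a0
          have h3 : (⟨i, σ⟩ : Emb K) = ⟨j, τ⟩ := h2
          obtain ⟨rfl, h4⟩ := Sigma.mk.inj h3
          have h5 := eq_of_heq h4
          subst h5
          rw [Finset.mem_image]
          exact ⟨m, Finset.mem_univ _, rfl⟩
        calc S.card ≤ _ := Finset.card_le_card hsub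
          _ ≤ _ := Finset.card_image_le
          _ ≤ 2 := by rw [Finset.card_univ, Fintype.card_fin]; exact hn2
      · by_contra hcard
        obtain ⟨a1, h1, a2, h2, a3, h3, h12, h13, h23⟩ := Finset.two_lt_card.mp (by omega :
          2 < S.card)
        have e1 := hidx a1 h1
        have e2 := hidx a2 h2
        have e3 := hidx a3 h3
        have p1 := hpair a1 h1
        have p2 := hpair a2 h2
        have p3 := hpair a3 h3
        obtain ⟨j, m0, τ⟩ := a0
        obtain ⟨i1, m1, σ1⟩ := a1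
        obtain ⟨i2, m2, σ2⟩ := a2
        obtain ⟨i3, m3, σ3⟩ := a3
        obtain rfl : i1 = j := e1
        obtain rfl : i2 = i1 := e2
        obtain rfl : i3 = i2 := e3
        have hsub : ∀ x y : Fin (n i3), x = y := by
          intro x y
          apply Fin.ext
          have hx := x.2
          have hy := y.2
          have hn1' : n i3 ≤ 1 := hn1
          omega
        have d12 : σ1 ≠ σ2 := fun h => h12 (by rw [h, hsub m1 m2])
        have d13 : σ1 ≠ σ3 := fun h => h13 (by rw [h, hsub m1 m3])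
        have d23 : σ2 ≠ σ3 := fun h => h23 (by rw [h, hsub m2 m3])
        rcases three_cases (NoP n P F α i3 τ) σ1 σ2 σ3
          (nopair_quat' n P F α hϖ hB hA i3 h0.1.1 g0 hg0 τ) d12 d13 d23 with hj | hj | hj
        · obtain ⟨f, hf, hI, x, y, hxy⟩ := p1
          exact hxy (hj f hf hI x y)
        · obtain ⟨f, hf, hI, x, y, hxy⟩ := p2
          exact hxy (hj f hf hI x y)
        · obtain ⟨f, hf, hI, x, y, hxy⟩ := p3
          exact hxy (hj f hf hI x y)
  · right
    refine ⟨hCb.1, fun a ha hker => hnb (hlink a ha hker).1⟩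


end family

/-- the operators compatible with all de Rham-Betti morphisms act by scalars at the labels -/
theorem thm_Act (h1 : St_No) (h2 : St_DichL) (h3 : St_Full) : St_Act := by
  intro hKT I _ _ A n K _ _ S U G hS hU hc F hF k α hα H hH b v w hw
  classical
  obtain ⟨hFl, hFr⟩ := hF
  have hR : ∀ i, i ∈ S ∨ i ∈ U → IsRealType (A i) (K i) := by
    rintro i (hi | hi)
    · obtain ⟨h1, ⟨R⟩⟩ := hS i hi
      exact ⟨h1, ⟨⟨R.ρ, R.one, R.mul, R.add, R.endo, R.rosati, R.centralizer⟩⟩⟩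
    · exact (hU i hi).1
  have hdeg : ∀ i, (i ∈ S → finrank ℚ (K i) = (A i).g) ∧
      (i ∈ U → 2 * finrank ℚ (K i) = (A i).g) := by
    intro i
    refine ⟨fun hi => ?_, fun hi => (hU i hi).2.1⟩
    obtain ⟨h1, ⟨R⟩⟩ := hS i hi
    exact R.degree
  have hpos : ∀ i, 0 < finrank ℚ (K i) := fun i => finrank_pos
  have e2 : ∀ f r g : ℕ, 0 < f → f * r = 2 * g → f = g → r = 2 := by
    intro f r g h1 h2 h3
    subst h3
    exact Nat.eq_of_mul_eq_mul_left h1 (by rw [h2]; ring)
  have e4 : ∀ f r g : ℕ, 0 < f → f * r = 2 * g → 2 * f = g → r = 4 := by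
    intro f r g h1 h2 h3
    subst h3
    exact Nat.eq_of_mul_eq_mul_left h1 (by rw [h2]; ring)
  have hrkS : ∀ i ∈ S, (F i).rk = 2 := by
    intro i hi
    exact e2 _ _ _ (hpos i) (hFr i (Or.inl hi)) ((hdeg i).1 hi)
  have hrkU : ∀ i ∈ U, (F i).rk = 4 := by
    intro i hi
    exact e4 _ _ _ (hpos i) (hFr i (Or.inr hi)) ((hdeg i).2 hi)
  have hB := hB_of A n hα
  have hA : ∀ v : Fin (2 * k) → HW (fun i => Fin (A i).g ⊕ Fin (A i).g) n,
      (∀ r i m j, IsAlgebraic ℚ (v r i m j)) → IsAlgebraic ℚ (α v) := hα.1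
  have hϖ := Complex.two_pi_I_ne_zero
  have hrad : HasTrivialRadical ℂ (LL n (fun i => pData (A i)) F (toM' n α)) :=
    LL_trivialRadical n _ F _ hϖ hB hA
  have hk : IsKilling ℂ (LL n (fun i => pData (A i)) F (toM' n α)) := inferInstance
  obtain ⟨p⟩ := exists_principal (LL n (fun i => pData (A i)) F (toM' n α))
  -- endomorphisms and homomorphisms
  have hg : ∀ i, (i ∈ S ∨ i ∈ U) → 0 < (A i).g := by
    rintro i (hi | hi)
    · rw [← (hdeg i).1 hi]; exact hpos i
    · rw [← (hdeg i).2 hi]; have := hpos i; omega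
  have hFρ : ∀ i, ∀ x, IsDRB (pData (A i)) (pData (A i)) ((F i).ρ x) := fun i x =>
    isDRB_rho (F i) x
  have hEU : ∀ i ∈ U, EndK (fun i => pData (A i)) F i := by
    intro i hi
    exact (endo_cases (A i) (hg i (Or.inr hi)) (K i) (F i).ρ (hFρ i) _ (hU i hi).2.2).2.1 le_rfl
  have hUne : ∀ i, (F i).isLeft → (F i).rk = 4 → i ∈ U := by
    intro i hi h4
    rcases (hFl i).mp hi with h1 | h1
    · rw [hrkS i h1] at h4; omega
    · exact h1
  have hSne : ∀ i, (F i).isLeft → (F i).rk = 2 → i ∈ S := by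
    intro i hi h4
    rcases (hFl i).mp hi with h1 | h1
    · exact h1
    · rw [hrkU i h1] at h4; omega
  have hfr : ∀ s : Emb K, (F s.1).isLeft → finrank ℂ (Vs n (fun i => pData (A i)) F
      (toM' n α) s) = (F s.1).rk := fun s hs => finrank_Vs s hs
  have hpl4 : ∀ s : Emb K, IsPl n (fun i => pData (A i)) F (toM' n α) s 4 → s.1 ∈ U := by
    intro s hs
    refine hUne s.1 hs.1 ?_
    rw [← hfr s hs.1]
    exact hs.2
  have hn0 : ∀ a : At n K, n a.1 ≠ 0 := fun a h0 => by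
    have := a.2.1.2
    omega
  have hpair : (∀ i j, i ≠ j → (F i).isLeft → (F j).isLeft → n i ≠ 0 →
      n j ≠ 0 → ∀ g, IsDRB (pData (A i)) (pData (A j)) g → g = 0) := by
    intro i j hij hi hj h1 h2 g hg
    apply LinearMap.ext
    intro v
    have h3 := (isDRB_iff (A i) (A j) g).mp hg
    exact hc.hom_zero i j ((hFl i).mp hi) ((hFl j).mp hj) h1 h2 hij g
      ⟨g.isLinear, h3.1, h3.2, hom_fil (A i) (A j) g g.isLinear h3.1 h3.2⟩ v
  have hlink : (∀ i, (F i).isLeft → (F i).rk = 4 → n i ≠ 0 → i ∉ G → n i ≤ 2 ∧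
      ∀ j, (F j).isLeft → (F j).rk = 2 → n j ≠ 0 →
        IsEmpty (K i →+* K j) ∨ (EndK (fun i => pData (A i)) F j ∧ IsEmpty (K i ≃+* K j)) ∨
          (n i ≤ 1 ∧ ((n j ≤ 2 ∧ EndK (fun i => pData (A i)) F j) ∨
          (n j ≤ 1 ∧ ∃ g0 : Module.End ℂ (Fin (A j).g ⊕ Fin (A j).g → ℂ),
            ∀ g, IsDRB (pData (A j)) (pData (A j)) g →
              ∃ x y : K j, ∀ v, g v = (F j).ρ x v + g0 ((F j).ρ y v))))) := by
    intro i hi h4 hn hiG
    have hiU := hUne i hi h4
    refine ⟨hc.mult i hiU hiG, fun j hj h2 hnj => ?_⟩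
    have hjS := hSne j hj h2
    rcases hc.link i hiU hiG j hjS hn hnj with h1 | ⟨h1, h5⟩ | ⟨h1, d, hd, h5⟩
    · exact Or.inl h1
    · exact Or.inr (Or.inl ⟨(endo_cases (A j) (hg j (Or.inl hjS)) (K j) (F j).ρ (hFρ j) _
        h1).2.1 ((hdeg j).1 hjS).ge, h5⟩)
    · right
      right
      refine ⟨h1, ?_⟩
      obtain ⟨h6, h7, h8⟩ := endo_cases (A j) (hg j (Or.inl hjS)) (K j) (F j).ρ (hFρ j) d hd
      have h9 := (hdeg j).1 hjS
      have h10 := hg j (Or.inl hjS)
      rw [← h9] at h5 h10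
      have hle2 : n j ≤ 2 := by
        by_contra hcon
        have h11 : 3 * d ≤ n j * d := Nat.mul_le_mul_right d (by omega)
        omega
      rcases Nat.lt_or_ge (n j) 2 with h12 | h12
      · right
        have h13 : n j = 1 := by omega
        rw [h13, one_mul] at h5
        exact ⟨h13.le, h8 h5⟩
      · left
        have h13 : n j = 2 := le_antisymm hle2 h12
        rw [h13] at h5
        exact ⟨hle2, h7 (by omega)⟩
  have hirr : Irr n (fun i => pData (A i)) F (toM' n α) :=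
    fun s hs hn => Vs_irr n _ F (toM' n α) hϖ hB hA s hs hn
  have hrk : ∀ i, (F i).isLeft → (F i).rk = 2 ∨ (F i).rk = 4 := by
    intro i hi
    rcases (hFl i).mp hi with h3 | h3
    · exact Or.inl (hrkS _ h3)
    · exact Or.inr (hrkU _ h3)
  have hNP : ∀ s t : Emb K, n s.1 ≠ 0 → n t.1 ≠ 0 → s ≠ t →
      IsPl n (fun i => pData (A i)) F (toM' n α) s 4 →
      IsPl n (fun i => pData (A i)) F (toM' n α) t 4 →
      NoPair n (fun i => pData (A i)) F (toM' n α) s t := by
    intro s t hs ht hst h4 h4'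
    exact hN_of n _ F _ hϖ hB hA (fun i h1 h2 _ => hEU i (hUne i h1 h2)) hpair _ _
      hs ht hst h4 h4'
  have hGs : ∀ s : Emb K, s.1 ∈ G → n s.1 ≠ 0 →
      IsPl n (fun i => pData (A i)) F (toM' n α) s 4 ∧
        Full n (fun i => pData (A i)) F (toM' n α) s := by
    intro s hs hn
    have hsU := hc.sub hs
    have hl : (F s.1).isLeft := (hFl s.1).mpr (Or.inr hsU)
    have h4 : IsPl n (fun i => pData (A i)) F (toM' n α) s 4 :=
      ⟨hl, by rw [hfr s hl]; exact hrkU _ hsU⟩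
    refine ⟨h4, h3 I n _ _ _ K F k (toM' n α) s p hirr h4 hrk
      (fun t ht hnt h4' => hNP s t hn hnt (Ne.symm ht) h4 h4') ?_⟩
    rcases h2 I n _ _ _ K F k (toM' n α) s p hirr h4 with h5 | h5
    · exact absurd h5 (h1 hKT I A n K F k α s.1 s.2 p hα (hc.gen _ hs) hl (hc.deg _ hs))
    · exact h5
  exact thm_Lab I n _ _ _ K F k α b (fun s => s.1 ∈ G ∧ n s.1 ≠ 0) hϖ hB hA hk p hrk
    (fun a b hab ha hb => hNP _ _ (hn0 a) (hn0 b) hab ha hb)
    (fun s hs => hGs s hs.1 hs.2)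
    (fun b hb hbG => hA_at n _ F _ hϖ hB hA hk p
      (fun i h1 h2 _ => hEU i (hUne i h1 h2)) hpair b hb
      (hlink b.1 hb.1 (by rw [← hfr (pl n b) hb.1]; exact hb.2) (hn0 b)
        (fun h => hbG ⟨h, hn0 b⟩))) H hH v w hw

end Pool.Agent.KT.Alg
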