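import Pool.Agent.KT.Alg.St

/-!
# KT, algebra part: symmetries are combinations of symmetries with algebraic entries
-/

set_option autoImplicit false

namespace Pool.Agent.KT.Alg

open Module NumberField LieAlgebra
open Pool.Agent.Helper7 Pool.Agent.GPC


/-! ### algebraic numbers -/

theorem AlgS_sum {ι : Type*} (s : Finset ι) (f : ι → ℂ) (h : ∀ i ∈ s, IsAlgebraic ℚ (f i)) :
    IsAlgebraic ℚ (∑ i ∈ s, f i) := by
  rw [← mem_algebraicClosure_iff]
  exact sum_mem fun i hi => mem_algebraicClosure_iff.2 (h i hi)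

/-- finitely many complex numbers as combinations of algebraic ones, with independent
coefficients -/
theorem AlgS_decomp {X : Type*} [Finite X] (x : X → ℂ) :
    ∃ (m : ℕ) (c : Fin m → ℂ) (y : Fin m → X → ℂ),
      LinearIndependent (algebraicClosure ℚ ℂ) c ∧ (∀ l j, IsAlgebraic ℚ (y l j)) ∧
      ∀ j, x j = ∑ l, c l * y l j := by
  classical
  have hfin : Module.Finite (algebraicClosure ℚ ℂ)
      (Submodule.span (algebraicClosure ℚ ℂ) (Set.range x)) :=
    Module.Finite.span_of_finite _ (Set.finite_range x)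
  let bb := Module.finBasis (algebraicClosure ℚ ℂ)
    (Submodule.span (algebraicClosure ℚ ℂ) (Set.range x))
  refine ⟨_, fun l => (bb l : ℂ),
    fun l j => ((bb.repr ⟨x j, Submodule.subset_span ⟨j, rfl⟩⟩ l : algebraicClosure ℚ ℂ) : ℂ),
    ?_, ?_, ?_⟩
  · have h1 := bb.linearIndependent
    exact h1.map' (Submodule.subtype _) (Submodule.ker_subtype _)
  · intro l j
    exact mem_algebraicClosure_iff.1
      (bb.repr ⟨x j, Submodule.subset_span ⟨j, rfl⟩⟩ l : algebraicClosure ℚ ℂ).2
  · intro j
    have h1 := bb.sum_repr ⟨x j, Submodule.subset_span ⟨j, rfl⟩⟩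
    have h2 := congrArg (Submodule.subtype _) h1
    rw [map_sum] at h2
    have h3 : (Submodule.subtype (Submodule.span (algebraicClosure ℚ ℂ) (Set.range x)))
      ⟨x j, Submodule.subset_span ⟨j, rfl⟩⟩ = x j := rfl
    rw [h3] at h2
    rw [← h2]
    refine Finset.sum_congr rfl fun l _ => ?_
    rw [map_smul, Submodule.subtype_apply, Algebra.smul_def, mul_comm]
    rfl

theorem AlgS_indep {m : ℕ} (c : Fin m → ℂ) (hc : LinearIndependent (algebraicClosure ℚ ℂ) c)
    (z : Fin m → ℂ) (hz : ∀ l, IsAlgebraic ℚ (z l)) (h : ∑ l, c l * z l = 0) (l : Fin m) :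
    z l = 0 := by
  have h2 : ∑ l, (⟨z l, mem_algebraicClosure_iff.2 (hz l)⟩ : algebraicClosure ℚ ℂ) • c l = 0 := by
    rw [← h]
    refine Finset.sum_congr rfl fun l _ => ?_
    rw [Algebra.smul_def, mul_comm]
    rfl
  have h3 := (Fintype.linearIndependent_iff.mp hc) _ h2 l
  exact congrArg Subtype.val h3

section family

variable {I : Type} [Fintype I] [DecidableEq I] (n : I → ℕ)
  {κ : I → Type} [∀ i, Fintype (κ i)] [∀ i, DecidableEq (κ i)] {ϖ : ℂ}
  (P : ∀ i, PData (κ i) ϖ)
  {k : ℕ} (α : MultilinearMap ℂ (fun _ : Fin (2 * k) => HW κ n) ℂ)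

/-- vectors in terms of the standard basis -/
theorem AlgS_vec {κ' : Type} [Fintype κ'] [DecidableEq κ'] {W : Type*} [AddCommGroup W]
    [Module ℂ W] (f : (κ' → ℂ) →ₗ[ℂ] W) (v : κ' → ℂ) :
    f v = ∑ q, v q • f (Pi.single q 1) := by
  conv_lhs => rw [← (Pi.basisFun ℂ κ').sum_repr v]
  rw [map_sum]
  refine Finset.sum_congr rfl fun q _ => ?_
  rw [map_smul, Pi.basisFun_repr, Pi.basisFun_apply]

/-- linear maps with algebraic matrices -/
theorem AlgS_map {κ' κ'' : Type} [Fintype κ'] [DecidableEq κ']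
    (f : (κ' → ℂ) →ₗ[ℂ] (κ'' → ℂ)) (hf : ∀ i j, IsAlgebraic ℚ (f (Pi.single i 1) j))
    (v : κ' → ℂ) (hv : ∀ j, IsAlgebraic ℚ (v j)) (j : κ'') : IsAlgebraic ℚ (f v j) := by
  rw [AlgS_vec f v, Finset.sum_apply]
  exact AlgS_sum _ _ fun q _ => (hv q).mul (hf q j)

theorem AlgS_single {κ' : Type} [DecidableEq κ'] (q j : κ') :
    IsAlgebraic ℚ ((Pi.single q 1 : κ' → ℂ) j) := by
  by_cases h : j = q
  · subst h
    rw [Pi.single_eq_same]
    exact isAlgebraic_one
  · rw [Pi.single_eq_of_ne h]
    exact isAlgebraic_zero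

omit [Fintype I] [DecidableEq I] in
theorem AlgS_psi (i : I) (u v : κ i → ℂ) (hu : ∀ j, IsAlgebraic ℚ (u j))
    (hv : ∀ j, IsAlgebraic ℚ (v j)) : IsAlgebraic ℚ ((P i).ψ u v) := by
  rw [AlgS_vec (P i).ψ u, LinearMap.sum_apply]
  refine AlgS_sum _ _ fun q _ => ?_
  rw [LinearMap.smul_apply, smul_eq_mul]
  refine (hu q).mul ?_
  rw [AlgS_vec ((P i).ψ (Pi.single q 1)) v]
  refine AlgS_sum _ _ fun r _ => ?_
  rw [smul_eq_mul]
  exact (hv r).mul ((P i).hψalg q r)

/-- index set for the matrix entries -/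
abbrev AlgS_Idx (κ : I → Type) : Type := (Σ i, κ i × κ i) ⊕ Unit

/-- the element with given matrix entries -/
noncomputable def AlgS_from (y : AlgS_Idx κ → ℂ) : GG κ :=
  (fun i => (Matrix.of fun p q => y (.inl ⟨i, p, q⟩)).mulVecLin, y (.inr ()))

omit [Fintype I] [DecidableEq I] [∀ i, DecidableEq (κ i)] in
theorem AlgS_from_alg (y : AlgS_Idx κ → ℂ) (hy : ∀ t, IsAlgebraic ℚ (y t)) :
    IsAlgl (AlgS_from y) := by
  refine ⟨fun i v hv j => ?_, hy _⟩
  show IsAlgebraic ℚ ((Matrix.of fun p q => y (.inl ⟨i, p, q⟩)).mulVec v j)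
  rw [Matrix.mulVec, dotProduct]
  exact AlgS_sum _ _ fun q _ => (hy _).mul (hv q)

theorem AlgS_exists (X : GG κ) : ∃ (m : ℕ) (c : Fin m → ℂ) (Y : Fin m → GG κ),
    LinearIndependent (algebraicClosure ℚ ℂ) c ∧ (∀ l, IsAlgl (Y l)) ∧
      X = ∑ l, c l • Y l := by
  obtain ⟨m, c, y, hc, hy, hx⟩ := AlgS_decomp (X := AlgS_Idx κ)
    (Sum.elim (fun t => X.1 t.1 (Pi.single t.2.2 1) t.2.1) (fun _ => X.2))
  refine ⟨m, c, fun l => AlgS_from (y l), hc, fun l => AlgS_from_alg _ (hy l), ?_⟩
  apply Prod.ext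
  · funext i
    refine LinearMap.ext fun v => ?_
    have h1 : (∑ l, c l • AlgS_from (y l) : GG κ).1 i v =
        ∑ l, c l • (AlgS_from (y l)).1 i v := by
      rw [Prod.fst_sum, Finset.sum_apply, LinearMap.sum_apply]
      rfl
    rw [h1, AlgS_vec (X.1 i) v]
    funext p
    rw [Finset.sum_apply, Finset.sum_apply]
    have h2 : ∀ l, (c l • (AlgS_from (y l)).1 i v) p =
        ∑ q, v q * (c l * y l (.inl ⟨i, p, q⟩)) := by
      intro l
      show c l * ((Matrix.of fun p q => y l (.inl ⟨i, p, q⟩)).mulVec v p) = _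
      rw [Matrix.mulVec, dotProduct, Finset.mul_sum]
      refine Finset.sum_congr rfl fun q _ => ?_
      rw [Matrix.of_apply]
      ring
    rw [Finset.sum_congr rfl fun l _ => h2 l, Finset.sum_comm]
    refine Finset.sum_congr rfl fun q _ => ?_
    rw [← Finset.mul_sum]
    have h3 := hx (.inl ⟨i, p, q⟩)
    rw [← h3]
    rfl
  · rw [Prod.snd_sum]
    exact hx (.inr ())

/-- algebraic components of an infinitesimal symmetry are infinitesimal symmetries -/
theorem AlgS_comp
    (hA : ∀ v : Fin (2 * k) → HW κ n, (∀ r i m j, IsAlgebraic ℚ (v r i m j)) →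
      IsAlgebraic ℚ (α v))
    (X : GG κ) (hX : IsInv n P α X) {m : ℕ} (c : Fin m → ℂ) (Y : Fin m → GG κ)
    (hc : LinearIndependent (algebraicClosure ℚ ℂ) c) (hY : ∀ l, IsAlgl (Y l))
    (hsum : X = ∑ l, c l • Y l) (l : Fin m) : IsInv n P α (Y l) := by
  have hX1 : ∀ i v, X.1 i v = ∑ l, c l • (Y l).1 i v := by
    intro i v
    rw [hsum, Prod.fst_sum, Finset.sum_apply, LinearMap.sum_apply]
    rfl
  have hX2 : X.2 = ∑ l, c l * (Y l).2 := by
    rw [hsum, Prod.snd_sum]
    rfl
  refine ⟨?_, ?_, ?_⟩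
  · intro i j f hf v
    have h1 : ((Y l).1 j) ∘ₗ f = f ∘ₗ ((Y l).1 i) := by
      apply (Pi.basisFun ℂ (κ i)).ext
      intro q
      rw [Pi.basisFun_apply]
      funext p
      have h2 := AlgS_indep c hc
        (fun l => ((Y l).1 j (f (Pi.single q 1)) - f ((Y l).1 i (Pi.single q 1))) p)
        (fun l => ((hY l).1 j _ (fun p => hf.alg q p) p).sub
          (AlgS_map f hf.alg _ (fun p => (hY l).1 i _ (AlgS_single q) p) p)) (by
          have h3 := congrFun (hX.comm i j f hf (Pi.single q 1)) p
          rw [hX1, hX1, map_sum] at h3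
          simp only [map_smul, Finset.sum_apply, Pi.smul_apply, smul_eq_mul] at h3
          simp only [Pi.sub_apply, mul_sub, Finset.sum_sub_distrib]
          rw [h3, sub_self]) l
      exact sub_eq_zero.mp h2
    exact congrArg (fun g => g v) h1
  · intro i u v
    have h1 : (P i).ψ.comp ((Y l).1 i) + (P i).ψ.compl₂ ((Y l).1 i) = (Y l).2 • (P i).ψ := by
      apply (Pi.basisFun ℂ (κ i)).ext
      intro p
      apply (Pi.basisFun ℂ (κ i)).ext
      intro q
      rw [Pi.basisFun_apply, Pi.basisFun_apply]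
      have h2 := AlgS_indep c hc
        (fun l => (P i).ψ ((Y l).1 i (Pi.single p 1)) (Pi.single q 1) +
          (P i).ψ (Pi.single p 1) ((Y l).1 i (Pi.single q 1)) -
          (Y l).2 * (P i).ψ (Pi.single p 1) (Pi.single q 1)) (fun l =>
          ((AlgS_psi P i _ _ (fun j => (hY l).1 i _ (AlgS_single p) j) (AlgS_single q)).add
            (AlgS_psi P i _ _ (AlgS_single p) (fun j => (hY l).1 i _ (AlgS_single q) j))).sub
            ((hY l).2.mul ((P i).hψalg p q))) (by
          have h3 := hX.pol i (Pi.single p 1) (Pi.single q 1)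
          rw [hX1, hX1, hX2, map_sum, LinearMap.sum_apply, map_sum] at h3
          simp only [map_smul, LinearMap.smul_apply, smul_eq_mul] at h3
          simp only [mul_sub, mul_add, Finset.sum_sub_distrib, Finset.sum_add_distrib]
          rw [h3, Finset.sum_mul, sub_eq_zero]
          exact Finset.sum_congr rfl fun l _ => by ring) l
      show (P i).ψ ((Y l).1 i (Pi.single p 1)) (Pi.single q 1) +
          (P i).ψ (Pi.single p 1) ((Y l).1 i (Pi.single q 1)) =
          (Y l).2 * (P i).ψ (Pi.single p 1) (Pi.single q 1)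
      linear_combination h2
    exact congrArg (fun g => g u v) h1
  · apply Basis.ext_multilinear (fun _ => SBP n κ)
    intro s
    have hs : ∀ r i m j, IsAlgebraic ℚ (SBP n κ (s r) i m j) := by
      intro r i m j
      rw [SBP_apply]
      unfold slot
      by_cases h : i = (s r).1
      · subst h
        rw [Pi.single_eq_same]
        by_cases h2 : m = (s r).2.1
        · subst h2
          rw [Pi.single_eq_same]
          exact AlgS_single _ _
        · rw [Pi.single_eq_of_ne h2]
          exact isAlgebraic_zero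
      · rw [Pi.single_eq_of_ne h]
        exact isAlgebraic_zero
    have h2 := AlgS_indep c hc
      (fun l => actForm (lift n (Y l).1) α (fun r => SBP n κ (s r)) -
        (k * (Y l).2) * α (fun r => SBP n κ (s r)))
      (fun l => by
        refine IsAlgebraic.sub ?_ (((isAlgebraic_natCast k).mul (hY l).2).mul (hA _ hs))
        rw [actForm_apply]
        refine AlgS_sum _ _ fun r _ => hA _ fun r' i m j => ?_
        by_cases h : r' = r
        · subst h
          rw [Function.update_self, lift_apply]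
          exact (hY l).1 i _ (fun j => hs r' i m j) j
        · rw [Function.update_of_ne h]
          exact hs r' i m j) (by
        have h3 := congrArg (fun g => g (fun r => SBP n κ (s r))) hX.form
        simp only [actForm_apply, _root_.smul_apply, smul_eq_mul] at h3
        have h4 : ∀ r, α (Function.update (fun r => SBP n κ (s r)) r
            (lift n X.1 (SBP n κ (s r)))) =
            ∑ l, c l * α (Function.update (fun r => SBP n κ (s r)) r
            (lift n (Y l).1 (SBP n κ (s r)))) := by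
          intro r
          have h5 : lift n X.1 (SBP n κ (s r)) = ∑ l, c l • lift n (Y l).1 (SBP n κ (s r)) := by
            funext i m
            rw [lift_apply, hX1, Finset.sum_apply, Finset.sum_apply]
            rfl
          rw [h5]
          rw [MultilinearMap.map_update_sum]
          exact Finset.sum_congr rfl fun l _ => by
            rw [MultilinearMap.map_update_smul, smul_eq_mul]
        rw [Finset.sum_congr rfl (fun r _ => h4 r), Finset.sum_comm, hX2] at h3
        simp only [actForm_apply, mul_sub, Finset.sum_sub_distrib, Finset.mul_sum]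
        rw [h3, Finset.mul_sum, Finset.sum_mul, sub_eq_zero]
        exact Finset.sum_congr rfl fun l _ => by ring) l
    rw [_root_.smul_apply, smul_eq_mul]
    exact sub_eq_zero.mp h2

end family

theorem thm_AlgS : St_AlgS := by
  intro I _ _ n κ _ _ ϖ P k α hA X hX
  obtain ⟨m, c, Y, hc, hY, hsum⟩ := AlgS_exists X
  rw [hsum]
  exact Submodule.sum_mem _ fun l _ => Submodule.smul_mem _ _ (Submodule.subset_span
    ⟨AlgS_comp n P α hA X hX c Y hc hY hsum l, hY l⟩)

end Pool.Agent.KT.Alg
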