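import Pool.Agent.KT.Alg.Sl

/-!
# KT, algebra part: kernels of nilpotent elements in algebraic coordinates
-/

set_option autoImplicit false
set_option linter.unusedVariables false
set_option linter.unnecessarySeqFocus false

namespace Pool.Agent.KT.Alg

open Pool.Agent.Helper84.Iso (EE FF HH IsSp)

/-! ## Algebraic matrices -/

theorem Cub_add {A B : Matrix (Fin 4) (Fin 4) ℂ} (hA : IsAl A) (hB : IsAl B) : IsAl (A + B) :=
  fun i j => (hA i j).add (hB i j)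

theorem Cub_sub {A B : Matrix (Fin 4) (Fin 4) ℂ} (hA : IsAl A) (hB : IsAl B) : IsAl (A - B) :=
  fun i j => (hA i j).sub (hB i j)

theorem Cub_smul {A : Matrix (Fin 4) (Fin 4) ℂ} {t : ℂ} (ht : IsAlgebraic ℚ t) (hA : IsAl A) :
    IsAl (t • A) := fun i j => ht.mul (hA i j)

theorem Cub_mul {A B : Matrix (Fin 4) (Fin 4) ℂ} (hA : IsAl A) (hB : IsAl B) : IsAl (A * B) := by
  intro i j
  rw [Matrix.mul_apply, Fin.sum_univ_four]
  exact ((((hA _ _).mul (hB _ _)).add ((hA _ _).mul (hB _ _))).add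
    ((hA _ _).mul (hB _ _))).add ((hA _ _).mul (hB _ _))

theorem Cub_one : IsAl 1 := by
  intro i j
  rw [Matrix.one_apply]
  split_ifs
  · exact isAlgebraic_one
  · exact isAlgebraic_zero

theorem Cub_trace {A : Matrix (Fin 4) (Fin 4) ℂ} (hA : IsAl A) : IsAlgebraic ℚ A.trace := by
  rw [Matrix.trace, Fin.sum_univ_four]
  exact (((hA _ _).add (hA _ _)).add (hA _ _)).add (hA _ _)

theorem Cub_rat (q : ℚ) : IsAlgebraic ℚ (q : ℂ) := isAlgebraic_algebraMap q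

/-! ## Matrices preserving the image of `sl_2` -/

def Cub_Nrm (R : Matrix (Fin 4) (Fin 4) ℂ) : Prop :=
  ∀ a b c : ℂ, ∃ a' b' c' : ℂ, R * gg a b c = gg a' b' c' * R ∧ b' ^ 2 + a' * c' = b ^ 2 + a * c

theorem Cub_Nrm.mul {R Q : Matrix (Fin 4) (Fin 4) ℂ} (hR : Cub_Nrm R) (hQ : Cub_Nrm Q) :
    Cub_Nrm (R * Q) := by
  intro a b c
  obtain ⟨a', b', c', h1, h2⟩ := hQ a b c
  obtain ⟨a'', b'', c'', h3, h4⟩ := hR a' b' c'
  refine ⟨a'', b'', c'', ?_, h4.trans h2⟩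
  rw [Matrix.mul_assoc, h1, ← Matrix.mul_assoc, h3, Matrix.mul_assoc]

structure Cub_Adm (R R' : Matrix (Fin 4) (Fin 4) ℂ) : Prop where
  mi : R * R' = 1
  im : R' * R = 1
  nr : Cub_Nrm R
  nr' : Cub_Nrm R'

theorem Cub_Adm.mul {R R' Q Q' : Matrix (Fin 4) (Fin 4) ℂ} (hR : Cub_Adm R R')
    (hQ : Cub_Adm Q Q') : Cub_Adm (R * Q) (Q' * R') := by
  refine ⟨?_, ?_, hR.nr.mul hQ.nr, hQ.nr'.mul hR.nr'⟩
  · rw [Matrix.mul_assoc, ← Matrix.mul_assoc Q, hQ.mi, Matrix.one_mul, hR.mi]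
  · rw [Matrix.mul_assoc, ← Matrix.mul_assoc R', hR.im, Matrix.one_mul, hQ.im]

def Cub_XE (s : ℂ) : Matrix (Fin 4) (Fin 4) ℂ :=
  !![1, 3 * s, 6 * s ^ 2, 6 * s ^ 3; 0, 1, 4 * s, 6 * s ^ 2; 0, 0, 1, 3 * s; 0, 0, 0, 1]

noncomputable def Cub_XF (t : ℂ) : Matrix (Fin 4) (Fin 4) ℂ :=
  !![1, 0, 0, 0; t, 1, 0, 0; t ^ 2 / 2, t, 1, 0; t ^ 3 / 6, t ^ 2 / 2, t, 1]

def Cub_T (m : ℂ) : Matrix (Fin 4) (Fin 4) ℂ :=
  !![1, 0, 0, 0; 0, m, 0, 0; 0, 0, m ^ 2, 0; 0, 0, 0, m ^ 3]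

theorem Cub_XE_gg (s a b c : ℂ) : Cub_XE s * gg a b c =
    gg (a - 2 * s * b - s ^ 2 * c) (b + s * c) c * Cub_XE s := by
  rw [gg_eq, gg_eq]
  unfold Cub_XE
  ext i j
  rw [Matrix.mul_apply, Matrix.mul_apply, Fin.sum_univ_four, Fin.sum_univ_four]
  fin_cases i <;> fin_cases j <;> simp <;> ring

theorem Cub_XF_gg (t a b c : ℂ) : Cub_XF t * gg a b c =
    gg a (b - t * a) (c + 2 * t * b - t ^ 2 * a) * Cub_XF t := by
  rw [gg_eq, gg_eq]
  unfold Cub_XF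
  ext i j
  rw [Matrix.mul_apply, Matrix.mul_apply, Fin.sum_univ_four, Fin.sum_univ_four]
  fin_cases i <;> fin_cases j <;> simp <;> ring

theorem Cub_T_gg (m : ℂ) (hm : m ≠ 0) (a b c : ℂ) : Cub_T m * gg a b c =
    gg (a / m) b (c * m) * Cub_T m := by
  rw [gg_eq, gg_eq]
  unfold Cub_T
  ext i j
  rw [Matrix.mul_apply, Matrix.mul_apply, Fin.sum_univ_four, Fin.sum_univ_four]
  fin_cases i <;> fin_cases j <;> simp <;> field_simp

theorem Cub_XE_XE (s : ℂ) : Cub_XE s * Cub_XE (-s) = 1 := by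
  unfold Cub_XE
  ext i j
  rw [Matrix.mul_apply, Fin.sum_univ_four]
  fin_cases i <;> fin_cases j <;> simp <;> ring

theorem Cub_XF_XF (t : ℂ) : Cub_XF t * Cub_XF (-t) = 1 := by
  unfold Cub_XF
  ext i j
  rw [Matrix.mul_apply, Fin.sum_univ_four]
  fin_cases i <;> fin_cases j <;> simp <;> ring

theorem Cub_T_T (m : ℂ) (hm : m ≠ 0) : Cub_T m * Cub_T m⁻¹ = 1 := by
  unfold Cub_T
  ext i j
  rw [Matrix.mul_apply, Fin.sum_univ_four]
  fin_cases i <;> fin_cases j <;> simp <;> field_simp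

theorem Cub_adm_XE (s : ℂ) : Cub_Adm (Cub_XE s) (Cub_XE (-s)) := by
  refine ⟨Cub_XE_XE s, ?_, fun a b c => ⟨_, _, _, Cub_XE_gg s a b c, by ring⟩,
    fun a b c => ⟨_, _, _, Cub_XE_gg (-s) a b c, by ring⟩⟩
  have := Cub_XE_XE (-s)
  rwa [neg_neg] at this

theorem Cub_adm_XF (t : ℂ) : Cub_Adm (Cub_XF t) (Cub_XF (-t)) := by
  refine ⟨Cub_XF_XF t, ?_, fun a b c => ⟨_, _, _, Cub_XF_gg t a b c, by ring⟩,
    fun a b c => ⟨_, _, _, Cub_XF_gg (-t) a b c, by ring⟩⟩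
  have := Cub_XF_XF (-t)
  rwa [neg_neg] at this

theorem Cub_adm_T (m : ℂ) (hm : m ≠ 0) : Cub_Adm (Cub_T m) (Cub_T m⁻¹) := by
  refine ⟨Cub_T_T m hm, ?_, fun a b c => ⟨_, _, _, Cub_T_gg m hm a b c, by field_simp⟩,
    fun a b c => ⟨_, _, _, Cub_T_gg m⁻¹ (inv_ne_zero hm) a b c, by field_simp⟩⟩
  have := Cub_T_T m⁻¹ (inv_ne_zero hm)
  rwa [inv_inv] at this

/-- an element with `b ^ 2 + a * c = 1` is conjugate to `HH`, up to sign -/
theorem Cub_conj (a b c : ℂ) (h : b ^ 2 + a * c = 1) (hc : c ≠ 0 ∨ b = 1) :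
    ∃ R R' : Matrix (Fin 4) (Fin 4) ℂ, Cub_Adm R R' ∧ R * gg a b c = gg 0 1 0 * R := by
  by_cases h0 : c = 0
  · have hb : b = 1 := by
      rcases hc with hc | hc
      · exact absurd h0 hc
      · exact hc
    refine ⟨_, _, Cub_adm_XE (a / 2), ?_⟩
    rw [Cub_XE_gg, h0, hb]
    congr 2
    · ring
    · ring
  · refine ⟨_, _, (Cub_adm_XF (-(c / 2))).mul (Cub_adm_XE ((1 - b) / c)), ?_⟩
    rw [Matrix.mul_assoc, Cub_XE_gg, ← Matrix.mul_assoc, Cub_XF_gg, Matrix.mul_assoc]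
    have e1 : a - 2 * ((1 - b) / c) * b - ((1 - b) / c) ^ 2 * c = 0 := by
      field_simp
      linear_combination h
    have e2 : b + (1 - b) / c * c = 1 := by
      field_simp
      ring
    rw [e1, e2]
    congr 2
    · ring
    · ring

/-! ## Algebraic elements -/

/-- the algebraic elements -/
def Cub_K (D : Matrix (Fin 4) (Fin 4) ℂ) : Set (Matrix (Fin 4) (Fin 4) ℂ) :=
  {Y | IsAl Y ∧ ∃ a b c : ℂ, D * Y = gg a b c * D}

theorem Cub_K_eq {D : Matrix (Fin 4) (Fin 4) ℂ} (hD : D.det ≠ 0) :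
    {Y | IsAl Y ∧ ∃ a b c : ℂ, D * Y * D⁻¹ = gg a b c} = Cub_K D := by
  have hu : IsUnit D.det := isUnit_iff_ne_zero.mpr hD
  ext Y
  constructor
  · rintro ⟨h, a, b, c, h1⟩
    refine ⟨h, a, b, c, ?_⟩
    rw [← h1, Matrix.mul_assoc, Matrix.nonsing_inv_mul D hu, Matrix.mul_one]
  · rintro ⟨h, a, b, c, h1⟩
    refine ⟨h, a, b, c, ?_⟩
    rw [h1, Matrix.mul_assoc, Matrix.mul_nonsing_inv D hu, Matrix.mul_one]

theorem Cub_K_adm {D R R' : Matrix (Fin 4) (Fin 4) ℂ} (hR : Cub_Adm R R') :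
    Cub_K (R * D) = Cub_K D := by
  ext Y
  constructor
  · rintro ⟨h, a, b, c, h1⟩
    obtain ⟨a', b', c', h2, -⟩ := hR.nr' a b c
    refine ⟨h, a', b', c', ?_⟩
    have h3 : R' * (R * D * Y) = R' * (gg a b c * (R * D)) := by rw [h1]
    have h4 : R' * (R * D * Y) = D * Y := by
      rw [← Matrix.mul_assoc, ← Matrix.mul_assoc, hR.im, Matrix.one_mul]
    have h5 : R' * (gg a b c * (R * D)) = gg a' b' c' * D := by
      rw [← Matrix.mul_assoc, h2, Matrix.mul_assoc, ← Matrix.mul_assoc R', hR.im, Matrix.one_mul]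
    rw [← h4, h3, h5]
  · rintro ⟨h, a, b, c, h1⟩
    obtain ⟨a', b', c', h2, -⟩ := hR.nr a b c
    refine ⟨h, a', b', c', ?_⟩
    rw [Matrix.mul_assoc, h1, ← Matrix.mul_assoc, h2, Matrix.mul_assoc]

/-- the property used of `D`: the algebraic elements span -/
def Cub_Sp (D D' : Matrix (Fin 4) (Fin 4) ℂ) : Prop :=
  D * D' = 1 ∧ D' * D = 1 ∧ ∀ a b c : ℂ, D' * gg a b c * D ∈ Submodule.span ℂ (Cub_K D)

theorem Cub_Sp_adm {D D' R R' : Matrix (Fin 4) (Fin 4) ℂ} (hD : Cub_Sp D D')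
    (hR : Cub_Adm R R') : Cub_Sp (R * D) (D' * R') := by
  refine ⟨?_, ?_, ?_⟩
  · rw [Matrix.mul_assoc, ← Matrix.mul_assoc D, hD.1, Matrix.one_mul, hR.mi]
  · rw [Matrix.mul_assoc, ← Matrix.mul_assoc R', hR.im, Matrix.one_mul, hD.2.1]
  · intro a b c
    obtain ⟨a', b', c', h2, -⟩ := hR.nr' a b c
    rw [Cub_K_adm hR]
    have : D' * R' * gg a b c * (R * D) = D' * gg a' b' c' * D := by
      rw [Matrix.mul_assoc D', h2, ← Matrix.mul_assoc, ← Matrix.mul_assoc, Matrix.mul_assoc _ R',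
        hR.im, Matrix.mul_one]
    rw [this]
    exact hD.2.2 a' b' c'

/-- a linear function which vanishes on the algebraic elements -/
theorem Cub_lin {D D' : Matrix (Fin 4) (Fin 4) ℂ} (hD : Cub_Sp D D')
    (φ : Matrix (Fin 4) (Fin 4) ℂ →ₗ[ℂ] ℂ) (h : ∀ Y ∈ Cub_K D, φ Y = 0) (a b c : ℂ) :
    φ (D' * gg a b c * D) = 0 := by
  have h1 : Submodule.span ℂ (Cub_K D) ≤ LinearMap.ker φ :=
    Submodule.span_le.mpr fun Y hY => h Y hY
  exact h1 (hD.2.2 a b c)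

theorem Cub_tr {D D' Y Z : Matrix (Fin 4) (Fin 4) ℂ} (hD : Cub_Sp D D') {a b c a' b' c' : ℂ}
    (hY : D * Y = gg a b c * D) (hZ : D * Z = gg a' b' c' * D) :
    (Y * Z).trace = 20 * b * b' + 10 * (a * c' + c * a') := by
  rw [← gg_trace_mul]
  have : gg a b c * gg a' b' c' = D * (Y * Z) * D' := by
    rw [← Matrix.mul_assoc, hY, Matrix.mul_assoc _ D, hZ, Matrix.mul_assoc, Matrix.mul_assoc _ D,
      hD.1, Matrix.mul_one]
  rw [this, Matrix.trace_mul_comm (D * (Y * Z)) D', ← Matrix.mul_assoc, hD.2.1, Matrix.one_mul]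

theorem Cub_comm {D Y Z : Matrix (Fin 4) (Fin 4) ℂ} {a b c a' b' c' : ℂ}
    (hY : D * Y = gg a b c * D) (hZ : D * Z = gg a' b' c' * D) :
    D * (Y * Z - Z * Y) =
      gg (2 * (b * a' - a * b')) (a * c' - c * a') (2 * (c * b' - b * c')) * D := by
  rw [← gg_comm, Matrix.mul_sub, ← Matrix.mul_assoc, ← Matrix.mul_assoc, hY, hZ, Matrix.mul_assoc,
    Matrix.mul_assoc, hY, hZ, ← Matrix.mul_assoc, ← Matrix.mul_assoc, ← Matrix.sub_mul]

/-- there is an algebraic element with non-zero discriminant -/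
theorem Cub_exists_q {D D' : Matrix (Fin 4) (Fin 4) ℂ} (hD : Cub_Sp D D') :
    ∃ (Y : Matrix (Fin 4) (Fin 4) ℂ) (a b c : ℂ), IsAl Y ∧ D * Y = gg a b c * D ∧
      b ^ 2 + a * c ≠ 0 := by
  by_contra hcon
  push Not at hcon
  have h1 : ∀ Y ∈ Cub_K D, ∀ Z ∈ Cub_K D, (Y * Z).trace = 0 := by
    rintro Y ⟨hY, a, b, c, h1⟩ Z ⟨hZ, a', b', c', h2⟩
    rw [Cub_tr hD h1 h2]
    have e1 := hcon Y a b c hY h1
    have e2 := hcon Z a' b' c' hZ h2
    have e3 := hcon (Y + Z) (a + a') (b + b') (c + c') (Cub_add hY hZ) (by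
      rw [Matrix.mul_add, h1, h2, ← Matrix.add_mul, gg_add])
    linear_combination 10 * (e3 - e1 - e2)
  have h2 : ∀ Z ∈ Cub_K D, ∀ a b c : ℂ, (D' * gg a b c * D * Z).trace = 0 := by
    intro Z hZ a b c
    exact Cub_lin hD ((Matrix.traceLinearMap (Fin 4) ℂ ℂ).comp (LinearMap.mulRight ℂ Z))
      (fun Y hY => h1 Y hY Z hZ) a b c
  have h3 := Cub_lin hD ((Matrix.traceLinearMap (Fin 4) ℂ ℂ).comp
    (LinearMap.mulLeft ℂ (D' * gg 0 1 0 * D))) (fun Y hY => h2 Y hY 0 1 0) 0 1 0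
  have h4 : D * (D' * gg 0 1 0 * D) = gg 0 1 0 * D := by
    rw [← Matrix.mul_assoc, ← Matrix.mul_assoc, hD.1, Matrix.one_mul]
  have h5 := Cub_tr hD h4 h4
  simp only [LinearMap.comp_apply, LinearMap.mulLeft_apply, Matrix.traceLinearMap_apply] at h3
  rw [h3] at h5
  norm_num at h5

theorem Cub_exists_one {D D' : Matrix (Fin 4) (Fin 4) ℂ} (hD : Cub_Sp D D') :
    ∃ (Y : Matrix (Fin 4) (Fin 4) ℂ) (a b c : ℂ), IsAl Y ∧ D * Y = gg a b c * D ∧
      b ^ 2 + a * c = 1 ∧ (c ≠ 0 ∨ b = 1) := by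
  obtain ⟨Y, a, b, c, hY, h1, h2⟩ := Cub_exists_q hD
  have hq : IsAlgebraic ℚ (b ^ 2 + a * c) := by
    have e := Cub_tr hD h1 h1
    have e2 : b ^ 2 + a * c = ((1 / 20 : ℚ) : ℂ) * (Y * Y).trace := by
      rw [e]
      push_cast
      ring
    rw [e2]
    exact (Cub_rat _).mul (Cub_trace (Cub_mul hY hY))
  obtain ⟨m, hm⟩ := IsAlgClosed.exists_pow_nat_eq (b ^ 2 + a * c) (n := 2) (by norm_num)
  have hm0 : m ≠ 0 := by
    intro h
    apply h2
    rw [← hm, h]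
    norm_num
  have hma : IsAlgebraic ℚ m := by
    refine IsAlgebraic.of_pow (n := 2) (by norm_num) ?_
    rw [hm]
    exact hq
  have key : ∀ t : ℂ, IsAlgebraic ℚ t → t ^ 2 = 1 → IsAl ((t * m⁻¹) • Y) ∧
      D * ((t * m⁻¹) • Y) = gg (t * m⁻¹ * a) (t * m⁻¹ * b) (t * m⁻¹ * c) * D ∧
      (t * m⁻¹ * b) ^ 2 + t * m⁻¹ * a * (t * m⁻¹ * c) = 1 := by
    intro t ht ht2
    refine ⟨Cub_smul (ht.mul hma.inv) hY, ?_, ?_⟩
    · rw [Matrix.mul_smul, h1, ← Matrix.smul_mul, gg_smul]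
    · have : (t * m⁻¹ * b) ^ 2 + t * m⁻¹ * a * (t * m⁻¹ * c) =
          t ^ 2 * (m⁻¹) ^ 2 * (b ^ 2 + a * c) := by ring
      rw [this, ht2, ← hm]
      field_simp
  by_cases hc : c = 0
  · have hb : b ^ 2 = m ^ 2 := by rw [hm, hc]; ring
    rcases sq_eq_sq_iff_eq_or_eq_neg.mp hb with h | h
    · obtain ⟨k1, k2, k3⟩ := key 1 isAlgebraic_one (by norm_num)
      refine ⟨_, _, _, _, k1, k2, k3, Or.inr ?_⟩
      rw [h]
      field_simp
    · obtain ⟨k1, k2, k3⟩ := key (-1) (isAlgebraic_one.neg) (by norm_num)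
      refine ⟨_, _, _, _, k1, k2, k3, Or.inr ?_⟩
      rw [h]
      field_simp
  · obtain ⟨k1, k2, k3⟩ := key 1 isAlgebraic_one (by norm_num)
    exact ⟨_, _, _, _, k1, k2, k3, Or.inl (by
      intro h
      rcases mul_eq_zero.mp h with h | h
      · rw [one_mul] at h
        exact hm0 (inv_eq_zero.mp h)
      · exact hc h)⟩

/-- the weight components of algebraic elements -/
theorem Cub_wt {D h Y : Matrix (Fin 4) (Fin 4) ℂ} (hh : IsAl h) (hY : IsAl Y)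
    (h5 : D * h = gg 0 1 0 * D) {a b c : ℂ} (h6 : D * Y = gg a b c * D) :
    (∃ e, IsAl e ∧ D * e = gg a 0 0 * D) ∧ ∃ f, IsAl f ∧ D * f = gg 0 0 c * D := by
  have c1 := Cub_comm h5 h6
  have c2 := Cub_comm h5 c1
  have a1 : IsAl (h * Y - Y * h) := Cub_sub (Cub_mul hh hY) (Cub_mul hY hh)
  generalize h * Y - Y * h = U at c1 c2 a1
  have a2 : IsAl (h * U - U * h) := Cub_sub (Cub_mul hh a1) (Cub_mul a1 hh)
  generalize h * U - U * h = V at c2 a2
  refine ⟨⟨(((1 / 8 : ℚ) : ℂ)) • (V + ((2 : ℚ) : ℂ) • U), ?_, ?_⟩,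
    ⟨(((1 / 8 : ℚ) : ℂ)) • (V - ((2 : ℚ) : ℂ) • U), ?_, ?_⟩⟩
  · exact Cub_smul (Cub_rat _) (Cub_add a2 (Cub_smul (Cub_rat _) a1))
  · rw [Matrix.mul_smul, Matrix.mul_add, Matrix.mul_smul, c1, c2, ← Matrix.smul_mul,
      ← Matrix.add_mul, ← Matrix.smul_mul, gg_smul, gg_add, gg_smul]
    congr 2 <;> push_cast <;> ring
  · exact Cub_smul (Cub_rat _) (Cub_sub a2 (Cub_smul (Cub_rat _) a1))
  · have e1 : V - ((2 : ℚ) : ℂ) • U = V + ((-2 : ℚ) : ℂ) • U := by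
      push_cast
      module
    rw [e1, Matrix.mul_smul, Matrix.mul_add, Matrix.mul_smul, c1, c2, ← Matrix.smul_mul,
      ← Matrix.add_mul, ← Matrix.smul_mul, gg_smul, gg_add, gg_smul]
    congr 2 <;> push_cast <;> ring

/-- the coordinates of algebraic elements do not all vanish -/
theorem Cub_coord {D D' : Matrix (Fin 4) (Fin 4) ℂ} (hD : Cub_Sp D D') :
    (∃ (Y : Matrix (Fin 4) (Fin 4) ℂ) (a b c : ℂ), IsAl Y ∧ D * Y = gg a b c * D ∧ a ≠ 0) ∧
    ∃ (Y : Matrix (Fin 4) (Fin 4) ℂ) (a b c : ℂ), IsAl Y ∧ D * Y = gg a b c * D ∧ c ≠ 0 := by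
  have key : ∀ a b c : ℂ, D * (D' * gg a b c * D) = gg a b c * D := by
    intro a b c
    rw [← Matrix.mul_assoc, ← Matrix.mul_assoc, hD.1, Matrix.one_mul]
  have hz : ∀ x y z : ℂ, (∀ Y ∈ Cub_K D, (D' * gg x y z * D * Y).trace = 0) →
      ∀ a b c, 20 * y * b + 10 * (x * c + z * a) = 0 := by
    intro x y z h a b c
    have := Cub_lin hD ((Matrix.traceLinearMap (Fin 4) ℂ ℂ).comp
      (LinearMap.mulLeft ℂ (D' * gg x y z * D))) h a b c
    simp only [LinearMap.comp_apply, LinearMap.mulLeft_apply,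
      Matrix.traceLinearMap_apply] at this
    rwa [Cub_tr hD (key x y z) (key a b c)] at this
  constructor
  · by_contra hcon
    push Not at hcon
    have := hz 0 0 1 (by
      rintro Y ⟨hY, a, b, c, h⟩
      rw [Cub_tr hD (key 0 0 1) h, hcon Y a b c hY h]
      ring) 1 0 0
    norm_num at this
  · by_contra hcon
    push Not at hcon
    have := hz 1 0 0 (by
      rintro Y ⟨hY, a, b, c, h⟩
      rw [Cub_tr hD (key 1 0 0) h, hcon Y a b c hY h]
      ring) 0 0 1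
    norm_num at this

/-- `D` can be changed such that the triple is algebraic -/
theorem Cub_triple {D D' : Matrix (Fin 4) (Fin 4) ℂ} (hD : Cub_Sp D D') :
    ∃ R R' e h f : Matrix (Fin 4) (Fin 4) ℂ, Cub_Adm R R' ∧ IsAl e ∧ IsAl h ∧ IsAl f ∧
      R * D * e = gg 1 0 0 * (R * D) ∧ R * D * h = gg 0 1 0 * (R * D) ∧
      R * D * f = gg 0 0 1 * (R * D) := by
  obtain ⟨h, a, b, c, hh, h1, h2, h3⟩ := Cub_exists_one hD
  obtain ⟨R, R', hR, h4⟩ := Cub_conj a b c h2 h3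
  have hD1 := Cub_Sp_adm hD hR
  have h5 : R * D * h = gg 0 1 0 * (R * D) := by
    rw [Matrix.mul_assoc, h1, ← Matrix.mul_assoc, h4, Matrix.mul_assoc]
  obtain ⟨⟨Y, y1, y2, y3, hY, hY1, hY2⟩, ⟨Z, z1, z2, z3, hZ, hZ1, hZ2⟩⟩ := Cub_coord hD1
  obtain ⟨⟨e, he, he1⟩, -⟩ := Cub_wt hh hY h5 hY1
  obtain ⟨-, ⟨f, hf, hf1⟩⟩ := Cub_wt hh hZ h5 hZ1
  have hc := Cub_comm he1 hf1
  have hc2 : e * f - f * e = (y1 * z3) • h := by
    have e1 : D' * R' * (R * D * (e * f - f * e)) = D' * R' * ((y1 * z3) • (R * D * h)) := by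
      rw [hc, h5, ← Matrix.smul_mul, gg_smul]
      congr 2
      congr 1 <;> ring
    rw [← Matrix.mul_smul, ← Matrix.mul_assoc (D' * R') (R * D),
      ← Matrix.mul_assoc (D' * R') (R * D), hD1.2.1, Matrix.one_mul, Matrix.one_mul] at e1
    exact e1
  have hh0 : ∃ i j, h i j ≠ 0 := by
    by_contra hcon
    push Not at hcon
    have : h = 0 := by
      ext i j
      exact hcon i j
    have e1 := Cub_tr hD1 h5 h5
    rw [this] at e1
    simp at e1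
  obtain ⟨i, j, hij⟩ := hh0
  have hal : IsAlgebraic ℚ (y1 * z3) := by
    have e1 : y1 * z3 = (e * f - f * e) i j * (h i j)⁻¹ := by
      rw [hc2, Matrix.smul_apply, smul_eq_mul]
      field_simp
    rw [e1]
    exact (Cub_sub (Cub_mul he hf) (Cub_mul hf he) i j).mul (hh i j).inv
  have hT := Cub_adm_T (z3⁻¹) (inv_ne_zero hZ2)
  refine ⟨_, _, (y1 * z3)⁻¹ • e, h, f, hT.mul hR, Cub_smul hal.inv he, hh, hf, ?_, ?_, ?_⟩
  · rw [Matrix.mul_assoc (Cub_T _), Matrix.mul_smul, Matrix.mul_assoc, he1, ← Matrix.mul_assoc,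
      Cub_T_gg _ (inv_ne_zero hZ2), ← Matrix.smul_mul, ← Matrix.smul_mul, gg_smul,
      Matrix.mul_assoc]
    congr 2
    · field_simp
    · ring
    · ring
  · rw [Matrix.mul_assoc (Cub_T _), Matrix.mul_assoc, h5, ← Matrix.mul_assoc,
      Cub_T_gg _ (inv_ne_zero hZ2), Matrix.mul_assoc]
    congr 2
    · ring
    · ring
  · rw [Matrix.mul_assoc (Cub_T _), Matrix.mul_assoc, hf1, ← Matrix.mul_assoc,
      Cub_T_gg _ (inv_ne_zero hZ2), Matrix.mul_assoc]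
    congr 2
    · ring
    · field_simp

/-- a multiple of the inverse is algebraic -/
theorem Cub_alg {D D' h f : Matrix (Fin 4) (Fin 4) ℂ} (h1 : D * D' = 1) (h2 : D' * D = 1)
    (hh : IsAl h) (hf : IsAl f) (h3 : D * h = gg 0 1 0 * D) (h4 : D * f = gg 0 0 1 * D) :
    ∃ l : ℂ, l ≠ 0 ∧ IsAl (l • D') := by
  have h3' : h * D' = D' * gg 0 1 0 := by
    have : D' * (D * h) * D' = D' * (gg 0 1 0 * D) * D' := by rw [h3]
    rw [← Matrix.mul_assoc, h2, Matrix.one_mul, Matrix.mul_assoc, Matrix.mul_assoc _ D, h1,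
      Matrix.mul_one] at this
    exact this
  have h4' : f * D' = D' * gg 0 0 1 := by
    have : D' * (D * f) * D' = D' * (gg 0 0 1 * D) * D' := by rw [h4]
    rw [← Matrix.mul_assoc, h2, Matrix.one_mul, Matrix.mul_assoc, Matrix.mul_assoc _ D, h1,
      Matrix.mul_one] at this
    exact this
  have hne : ∃ j, D 0 j ≠ 0 := by
    by_contra hcon
    push Not at hcon
    have e1 : (D * D') 0 0 = 0 := by
      rw [Matrix.mul_apply]
      exact Finset.sum_eq_zero fun j _ => by rw [hcon j, zero_mul]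
    rw [h1] at e1
    simp at e1
  obtain ⟨j, hj⟩ := hne
  have hP : (h * h - 1) * (h + (((3 : ℚ) : ℂ)) • 1) * D' =
      D' * ((gg 0 1 0 * gg 0 1 0 - 1) * (gg 0 1 0 + (((3 : ℚ) : ℂ)) • 1)) := by
    have e1 : ∀ A B : Matrix (Fin 4) (Fin 4) ℂ, h * A * D' = h * (A * D') := fun A _ =>
      Matrix.mul_assoc _ _ _
    have e2 : (h + (((3 : ℚ) : ℂ)) • 1) * D' = D' * (gg 0 1 0 + (((3 : ℚ) : ℂ)) • 1) := by
      rw [Matrix.add_mul, Matrix.mul_add, h3', Matrix.smul_mul, Matrix.mul_smul, Matrix.one_mul,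
        Matrix.mul_one]
    have e3 : (h * h - 1) * D' = D' * (gg 0 1 0 * gg 0 1 0 - 1) := by
      rw [Matrix.sub_mul, Matrix.mul_sub, Matrix.mul_assoc, h3', ← Matrix.mul_assoc, h3',
        Matrix.mul_assoc, Matrix.one_mul, Matrix.mul_one]
    rw [Matrix.mul_assoc, e2, ← Matrix.mul_assoc, e3, Matrix.mul_assoc]
  have hM : (gg 0 1 0 * gg 0 1 0 - 1) * (gg 0 1 0 + (((3 : ℚ) : ℂ)) • 1) =
      !![48, 0, 0, 0; 0, 0, 0, 0; 0, 0, 0, 0; 0, 0, 0, 0] := by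
    have h5 : gg 0 1 0 * gg 0 1 0 = !![9, 0, 0, 0; 0, 1, 0, 0; 0, 0, 1, 0; 0, 0, 0, 9] := by
      rw [gg_eq]
      ext i j
      rw [Matrix.mul_apply, Fin.sum_univ_four]
      fin_cases i <;> fin_cases j <;> simp <;> ring
    rw [h5, gg_eq]
    ext i j
    rw [Matrix.mul_apply, Fin.sum_univ_four]
    simp only [Matrix.sub_apply, Matrix.add_apply, Matrix.smul_apply, Matrix.one_apply]
    fin_cases i <;> fin_cases j <;> simp <;> norm_num
  rw [hM] at hP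
  have hP2 : (h * h - 1) * (h + (((3 : ℚ) : ℂ)) • 1) =
      D' * !![48, 0, 0, 0; 0, 0, 0, 0; 0, 0, 0, 0; 0, 0, 0, 0] * D := by
    rw [← hP, Matrix.mul_assoc _ D', h2, Matrix.mul_one]
  have hPa : IsAl ((h * h - 1) * (h + (((3 : ℚ) : ℂ)) • 1)) :=
    Cub_mul (Cub_sub (Cub_mul hh hh) Cub_one) (Cub_add hh (Cub_smul (Cub_rat _) Cub_one))
  have hcol0 : ∀ i, IsAlgebraic ℚ ((D 0 j • D') i 0) := by
    intro i
    have e1 := hPa i j
    rw [hP2, Matrix.mul_apply, Fin.sum_univ_four] at e1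
    simp only [Matrix.mul_apply, Fin.sum_univ_four] at e1
    simp at e1
    have e2 : (D 0 j • D') i 0 = ((1 / 48 : ℚ) : ℂ) * (D' i 0 * 48 * D 0 j) := by
      rw [Matrix.smul_apply, smul_eq_mul]
      push_cast
      ring
    rw [e2]
    exact (Cub_rat _).mul e1
  have hS : f * (D 0 j • D') = (D 0 j • D') * gg 0 0 1 := by
    rw [Matrix.mul_smul, Matrix.smul_mul, h4']
  generalize hSd : D 0 j • D' = S at hcol0 hS
  refine ⟨D 0 j, hj, ?_⟩
  rw [hSd]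
  have hstep : ∀ k : Fin 4, (∀ i, IsAlgebraic ℚ (S i k)) →
      ∀ i, IsAlgebraic ℚ ((S * gg 0 0 1) i k) := by
    intro k hk i
    rw [← hS, Matrix.mul_apply, Fin.sum_univ_four]
    exact ((((hf _ _).mul (hk _)).add ((hf _ _).mul (hk _))).add
      ((hf _ _).mul (hk _))).add ((hf _ _).mul (hk _))
  have hval : ∀ i, (S * gg 0 0 1) i 0 = S i 1 ∧ (S * gg 0 0 1) i 1 = S i 2 ∧
      (S * gg 0 0 1) i 2 = S i 3 := by
    intro i
    rw [gg_eq]
    simp only [Matrix.mul_apply, Fin.sum_univ_four]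
    simp
  have hcol1 : ∀ i, IsAlgebraic ℚ (S i 1) := fun i => by
    rw [← (hval i).1]
    exact hstep 0 hcol0 i
  have hcol2 : ∀ i, IsAlgebraic ℚ (S i 2) := fun i => by
    rw [← (hval i).2.1]
    exact hstep 1 hcol1 i
  have hcol3 : ∀ i, IsAlgebraic ℚ (S i 3) := fun i => by
    rw [← (hval i).2.2]
    exact hstep 2 hcol2 i
  intro i k
  fin_cases k
  · exact hcol0 i
  · exact hcol1 i
  · exact hcol2 i
  · exact hcol3 i

theorem Cub_ker {a b c : ℂ} (h0 : ¬ (a = 0 ∧ b = 0 ∧ c = 0)) (hq : b ^ 2 + a * c = 0)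
    {w : Fin 4 → ℂ} (h : (gg a b c).mulVec w = 0) :
    (∃ x : ℂ, w 0 = 6 * x ^ 3 * w 3 ∧ w 1 = 6 * x ^ 2 * w 3 ∧ w 2 = 3 * x * w 3) ∨
      (w 1 = 0 ∧ w 2 = 0 ∧ w 3 = 0) := by
  rw [gg_eq] at h
  have k0 := congrFun h 0
  have k1 := congrFun h 1
  have k2 := congrFun h 2
  have k3 := congrFun h 3
  simp only [Matrix.mulVec, dotProduct, Fin.sum_univ_four] at k0 k1 k2 k3
  simp at k0 k1 k2 k3
  by_cases hc : c = 0
  · right
    have hb : b = 0 := by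
      rw [hc, mul_zero, add_zero] at hq
      exact pow_eq_zero_iff (by norm_num) |>.mp hq
    have ha : a ≠ 0 := fun h => h0 ⟨h, hb, hc⟩
    refine ⟨?_, ?_, ?_⟩
    · have : a * w 1 = 0 := by
        rw [hb] at k0
        linear_combination (1 / 3) * k0
      exact (mul_eq_zero.mp this).resolve_left ha
    · have : a * w 2 = 0 := by
        rw [hb, hc] at k1
        linear_combination (1 / 4) * k1
      exact (mul_eq_zero.mp this).resolve_left ha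
    · have : a * w 3 = 0 := by
        rw [hb, hc] at k2
        linear_combination (1 / 3) * k2
      exact (mul_eq_zero.mp this).resolve_left ha
  · left
    have ha : a = - (b / c) ^ 2 * c := by
      field_simp
      linear_combination hq
    have hb : b = (b / c) * c := by field_simp
    refine ⟨b / c, ?_⟩
    generalize b / c = x at ha hb
    subst hb ha
    have e2 : w 2 = 3 * x * w 3 := by
      have : c * (w 2 - 3 * x * w 3) = 0 := by linear_combination k3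
      rcases mul_eq_zero.mp this with h | h
      · exact absurd h hc
      · linear_combination h
    have e1 : w 1 = 6 * x ^ 2 * w 3 := by
      have : c * (w 1 - 6 * x ^ 2 * w 3) = 0 := by
        rw [e2] at k2
        linear_combination k2
      rcases mul_eq_zero.mp this with h | h
      · exact absurd h hc
      · linear_combination h
    have e0 : w 0 = 6 * x ^ 3 * w 3 := by
      have : c * (w 0 - 6 * x ^ 3 * w 3) = 0 := by
        rw [e2, e1] at k1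
        linear_combination k1
      rcases mul_eq_zero.mp this with h | h
      · exact absurd h hc
      · linear_combination h
    exact ⟨e0, e1, e2⟩

theorem Cub_poly {a : ℂ} (ha : IsAlgebraic ℚ a) (k m : ℕ) :
    IsAlgebraic ℚ ((Polynomial.C a * Polynomial.X ^ k).coeff m) := by
  rw [Polynomial.coeff_C_mul_X_pow]
  split_ifs
  · exact ha
  · exact isAlgebraic_zero

theorem thm_Cub : St_Cub := by
  rintro D ⟨hdet, hspan⟩ u a b c h0 hq hu
  have hun : IsUnit D.det := isUnit_iff_ne_zero.mpr hdet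
  have hD : Cub_Sp D D⁻¹ := by
    refine ⟨Matrix.mul_nonsing_inv D hun, Matrix.nonsing_inv_mul D hun, ?_⟩
    rw [← Cub_K_eq hdet]
    exact hspan
  obtain ⟨R, R', e, h, f, hR, he, hh, hf, h1, h2, h3⟩ := Cub_triple hD
  have hD1 := Cub_Sp_adm hD hR
  obtain ⟨l, hl, hS⟩ := Cub_alg hD1.1 hD1.2.1 hh hf h2 h3
  obtain ⟨a1, b1, c1, e1, e2⟩ := hR.nr a b c
  have hne : ¬ (a1 = 0 ∧ b1 = 0 ∧ c1 = 0) := by
    rintro ⟨ha, hb, hc⟩
    rw [ha, hb, hc, gg_zero, Matrix.zero_mul] at e1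
    have e3 : R' * (R * gg a b c) = 0 := by rw [e1, Matrix.mul_zero]
    rw [← Matrix.mul_assoc, hR.im, Matrix.one_mul, ← gg_zero] at e3
    exact h0 (gg_inj e3)
  have hw : (gg a1 b1 c1).mulVec ((R * D).mulVec u) = 0 := by
    rw [Matrix.mulVec_mulVec, ← Matrix.mul_assoc, ← e1, ← Matrix.mulVec_mulVec,
      ← Matrix.mulVec_mulVec, hu, Matrix.mulVec_zero]
  have huw : u = (D⁻¹ * R').mulVec ((R * D).mulVec u) := by
    rw [Matrix.mulVec_mulVec, hD1.2.1, Matrix.one_mulVec]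
  generalize (R * D).mulVec u = w at hw huw
  have hu2 : ∀ s, u s = l⁻¹ * ((l • (D⁻¹ * R')) s 0 * w 0 + (l • (D⁻¹ * R')) s 1 * w 1 +
      (l • (D⁻¹ * R')) s 2 * w 2 + (l • (D⁻¹ * R')) s 3 * w 3) := by
    intro s
    rw [huw]
    simp only [Matrix.mulVec, dotProduct, Fin.sum_univ_four, Matrix.smul_apply, smul_eq_mul]
    field_simp
  generalize l • (D⁻¹ * R') = S at hS hu2
  rcases Cub_ker hne (by rw [e2, hq]) hw with ⟨x, w0, w1, w2⟩ | ⟨w1, w2, w3⟩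
  · refine ⟨x, l⁻¹ * w 3, fun s => Polynomial.C (((6 : ℚ) : ℂ) * S s 0) * Polynomial.X ^ 3 +
      Polynomial.C (((6 : ℚ) : ℂ) * S s 1) * Polynomial.X ^ 2 +
      Polynomial.C (((3 : ℚ) : ℂ) * S s 2) * Polynomial.X ^ 1 +
      Polynomial.C (S s 3) * Polynomial.X ^ 0, ?_, ?_⟩
    · intro s m
      simp only [Polynomial.coeff_add]
      exact (((Cub_poly ((Cub_rat _).mul (hS _ _)) _ _).add
        (Cub_poly ((Cub_rat _).mul (hS _ _)) _ _)).add
        (Cub_poly ((Cub_rat _).mul (hS _ _)) _ _)).add (Cub_poly (hS _ _) _ _)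
    · intro s
      rw [hu2, w0, w1, w2]
      simp
      ring
  · refine ⟨0, l⁻¹ * w 0, fun s => Polynomial.C (S s 0) * Polynomial.X ^ 0, ?_, ?_⟩
    · intro s m
      exact Cub_poly (hS _ _) _ _
    · intro s
      rw [hu2, w1, w2, w3]
      simp
      ring

end Pool.Agent.KT.Alg
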