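import Pool.Agent.KT.Alg.Sl

/-!
# KT, algebra part: the dichotomy at a place of dimension four
-/

set_option autoImplicit false
set_option linter.unusedVariables false

namespace Pool.Agent.KT.Alg

open Module NumberField LieAlgebra LieModule
open Pool.Agent.Helper7 Pool.Agent.Helper7.HU Pool.Agent.GPC

attribute [local instance 100] LieRing.ofAssociativeRing

open Pool.Agent.Helper8 (IsPl NoPair KerLe Symp Principal Irr exists_adapted4 g4)
open Pool.Agent.Helper84 (mat mat_e mat_h mat_f mat_isSp mat_lie mat_eq_zero GG_eq)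
open Pool.Agent.Helper84.Iso (EE FF HH GG IsSp)

private theorem DichL_isSp {V : Type*} [AddCommGroup V] [Module ℂ V] (b : Basis (Fin 4) ℂ V)
    (ω : V →ₗ[ℂ] V →ₗ[ℂ] ℂ) (hg : ∀ i j, ω (b i) (b j) = (g4 i j : ℂ)) (Y : Module.End ℂ V)
    (hY : ∀ u v, ω (Y u) v + ω u (Y v) = 0) : IsSp (LinearMap.toMatrix b b Y) := by
  have hm : ∀ j, Y (b j) = ∑ i, LinearMap.toMatrix b b Y i j • b i := by
    intro j
    conv_lhs => rw [← b.sum_repr (Y (b j))]
    simp only [LinearMap.toMatrix_apply]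
  unfold IsSp
  ext i j
  rw [Matrix.add_apply, Matrix.mul_apply, Matrix.mul_apply, Matrix.zero_apply]
  have h1 := hY (b i) (b j)
  rw [hm i, hm j, map_sum, LinearMap.sum_apply, map_sum] at h1
  simp only [map_smul, LinearMap.smul_apply, smul_eq_mul, hg, ← GG_eq] at h1
  simp only [Matrix.transpose_apply]
  rw [← h1]
  congr 1
  exact Finset.sum_congr rfl fun k _ => mul_comm _ _

theorem thm_DichL (h1 : St_Dich) : St_DichL := by
  intro I _ _ n κ _ _ ϖ P K _ _ F k α s p hirr hs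
  have hirrs := hirr s hs.1 hs.nt
  have hω := omV_symp n P F α s hs.1
  obtain ⟨A⟩ := exists_adapted4 (p := p) hω hs.2
  have me := mat_e p A.b A.e_b
  have mh := mat_h p A.b A.h_b
  have mf := mat_f p A.b A.e_b A.h_b
  have k1 : ∀ M ∈ LinearMap.range (mat (L := LL n P F α) A.b), IsSp M := by
    rintro M ⟨x, rfl⟩
    exact mat_isSp hω A.b A.g_b x
  have k2 : ∀ M ∈ LinearMap.range (mat (L := LL n P F α) A.b),
      ∀ N ∈ LinearMap.range (mat (L := LL n P F α) A.b),
        M * N - N * M ∈ LinearMap.range (mat (L := LL n P F α) A.b) := by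
    rintro M ⟨x, rfl⟩ N ⟨y, rfl⟩
    exact ⟨⁅x, y⁆, mat_lie A.b x y⟩
  rcases h1 (LinearMap.range (mat A.b)) k1 ⟨p.e, me⟩ ⟨p.h, mh⟩ ⟨p.f, mf⟩ k2 with h | h
  · left
    intro x
    obtain ⟨a, b, c, habc⟩ := h (mat A.b x) ⟨x, rfl⟩
    refine ⟨a, b, c, fun v => ?_⟩
    have h2 : mat A.b (x - (a • p.e + b • p.h + c • p.f)) = 0 := by
      rw [map_sub, map_add, map_add, map_smul, map_smul, map_smul, me, mh, mf, habc]
      unfold gg
      rw [sub_self]
    have h3 := (mat_eq_zero A.b _).1 h2 v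
    rw [sub_lie, add_lie, add_lie, smul_lie, smul_lie, smul_lie, sub_eq_zero] at h3
    exact h3
  · right
    intro Y hY
    obtain ⟨x, hx⟩ := h _ (DichL_isSp A.b _ A.g_b Y hY)
    refine ⟨x, fun v => ?_⟩
    have h2 : toEnd ℂ (LL n P F α) (Vs n P F α s) x = Y :=
      (LinearMap.toMatrix A.b A.b).injective hx
    rw [← h2]
    rfl

end Pool.Agent.KT.Alg
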