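import Pool.Agent.KT.Alg.Sl
import Pool.Agent.Helper8.H.BigData
import Pool.Agent.Helper8.H.Dim
import Pool.Agent.Helper84.Iso4

/-!
# KT, algebra part: the full symplectic algebra at a place, independently of the other places
-/

set_option autoImplicit false
set_option linter.unusedSectionVars false

namespace Pool.Agent.KT.Alg

open Module NumberField LieAlgebra
open Pool.Agent.Helper7 Pool.Agent.Helper7.HU Pool.Agent.GPC

attribute [local instance 100] LieRing.ofAssociativeRing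

open Pool.Agent.Helper8 (IsPl NoPair KerLe Symp Principal Irr ML2 Inv2)

/-! ### skew operators -/

section skew

variable {V : Type} [AddCommGroup V] [Module ℂ V] (ω : V →ₗ[ℂ] V →ₗ[ℂ] ℂ)

/-- the skew operators -/
def Full_skew : Submodule ℂ (Module.End ℂ V) where
  carrier := {Y | ∀ u v, ω (Y u) v + ω u (Y v) = 0}
  add_mem' := by
    intro Y Z hY hZ u v
    simp only [LinearMap.add_apply, map_add]
    linear_combination hY u v + hZ u v
  zero_mem' := by
    intro u v
    simp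
  smul_mem' := by
    intro c Y hY u v
    simp only [LinearMap.smul_apply, map_smul, smul_eq_mul]
    linear_combination c * hY u v

lemma Full_mem (Y : Module.End ℂ V) : Y ∈ Full_skew ω ↔ ∀ u v, ω (Y u) v + ω u (Y v) = 0 := Iff.rfl

/-- `w ↦ (x ↦ ω(v, x) w + ω(w, x) v)` -/
noncomputable def Full_dot (v : V) : V →ₗ[ℂ] Module.End ℂ V where
  toFun w := (ω v).smulRight w + (ω w).smulRight v
  map_add' a b := by
    ext x
    simp only [LinearMap.add_apply, LinearMap.smulRight_apply, map_add, smul_add, add_smul]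
    abel
  map_smul' c a := by
    ext x
    simp only [LinearMap.add_apply, LinearMap.smulRight_apply, map_smul, LinearMap.smul_apply,
      smul_add, RingHom.id_apply, smul_eq_mul, mul_smul]
    rw [smul_comm]

lemma Full_dot_apply (v w x : V) : Full_dot ω v w x = ω v x • w + ω w x • v := rfl

variable {ω}

lemma Full_dot_mem (halt : ∀ x y, ω x y = - ω y x) (v w : V) : Full_dot ω v w ∈ Full_skew ω := by
  intro a b
  rw [Full_dot_apply, Full_dot_apply]
  simp only [map_add, map_smul, LinearMap.add_apply, LinearMap.smul_apply, smul_eq_mul]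
  rw [halt a w, halt a v]
  ring

/-- the operator `x ↦ ω(v, x) v` -/
lemma Full_sq_mem (halt : ∀ x y, ω x y = - ω y x) (v : V) : (ω v).smulRight v ∈ Full_skew ω := by
  intro a b
  rw [LinearMap.smulRight_apply, LinearMap.smulRight_apply]
  simp only [map_smul, LinearMap.smul_apply, smul_eq_mul]
  rw [halt a v]
  ring

lemma Full_dim [FiniteDimensional ℂ V] (halt : ∀ x y, ω x y = - ω y x)
    (hnd : ∀ x, (∀ y, ω x y = 0) → x = 0) (hd : finrank ℂ V = 4) :
    4 < finrank ℂ (Full_skew ω) := by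
  have hself : ∀ x, ω x x = 0 := fun x => by
    have := halt x x
    linear_combination (1 / 2 : ℂ) * this
  have : Nontrivial V := (Module.finrank_pos_iff (R := ℂ)).1 (by rw [hd]; norm_num)
  obtain ⟨v, hv⟩ := exists_ne (0 : V)
  obtain ⟨y, hy⟩ : ∃ y, ω v y ≠ 0 := by
    by_contra hcon
    push Not at hcon
    exact hv (hnd v hcon)
  -- a vector orthogonal to `v` and independent of it
  obtain ⟨u, hu⟩ : ∃ u : V, ∀ c : ℂ, u ≠ c • v := by
    by_contra hcon
    push Not at hcon
    have h1 : finrank ℂ V ≤ 1 := finrank_le_one v (fun w => by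
      obtain ⟨c, hc⟩ := hcon w
      exact ⟨c, hc.symm⟩)
    omega
  obtain ⟨x, hvx, hux⟩ : ∃ x, ω v x = 0 ∧ ω u x ≠ 0 := by
    by_contra hcon
    push Not at hcon
    have h1 : ∀ x, ω u x = (ω u y / ω v y) * ω v x := by
      intro x
      have h2 := hcon (x - (ω v x / ω v y) • y) (by
        rw [map_sub, map_smul, smul_eq_mul, div_mul_cancel₀ _ hy, sub_self])
      rw [map_sub, map_smul, smul_eq_mul, sub_eq_zero] at h2
      rw [h2]; ring
    refine hu (ω u y / ω v y) (sub_eq_zero.1 (hnd _ fun x => ?_))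
    rw [map_sub, map_smul, LinearMap.sub_apply, LinearMap.smul_apply, smul_eq_mul, h1 x, sub_self]
  let D : V →ₗ[ℂ] Full_skew ω := (Full_dot ω v).codRestrict _ (Full_dot_mem halt v)
  have hDv : ∀ w x, (D w : Module.End ℂ V) x = ω v x • w + ω w x • v := fun w x => rfl
  have hinj : Function.Injective D := by
    rw [← LinearMap.ker_eq_bot, LinearMap.ker_eq_bot']
    intro w hw
    have h1 : ∀ x, ω v x • w + ω w x • v = 0 := by
      intro x
      rw [← hDv, hw]; rfl
    have h2 : w = (-(ω w y / ω v y)) • v := by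
      have h3 := h1 y
      have h4 : (ω v y)⁻¹ • (ω v y • w + ω w y • v) = 0 := by rw [h3, smul_zero]
      rw [smul_add, smul_smul, inv_mul_cancel₀ hy, one_smul, smul_smul] at h4
      rw [neg_smul, eq_neg_iff_add_eq_zero, div_eq_mul_inv, mul_comm]
      exact h4
    obtain ⟨c, hc⟩ : ∃ c, w = c • v := ⟨_, h2⟩
    have h3 := h1 y
    rw [hc, map_smul, LinearMap.smul_apply, smul_eq_mul, smul_smul, ← add_smul] at h3
    rcases smul_eq_zero.1 h3 with h4 | h4
    · have h5 : c = 0 := by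
        have h6 : (2 : ℂ) * (ω v y * c) = 0 := by linear_combination h4
        rcases mul_eq_zero.1 h6 with h7 | h7
        · norm_num at h7
        · exact (mul_eq_zero.1 h7).resolve_left hy
      rw [hc, h5, zero_smul]
    · exact absurd h4 hv
  have hlt : LinearMap.range D ≠ ⊤ := by
    intro htop
    have h1 : (⟨(ω u).smulRight u, Full_sq_mem halt u⟩ : Full_skew ω) ∈ LinearMap.range D := by
      rw [htop]; trivial
    obtain ⟨w, hw⟩ := h1
    have h2 : ω v x • w + ω w x • v = ω u x • u := by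
      rw [← hDv, hw]; rfl
    rw [hvx, zero_smul, zero_add] at h2
    apply hu ((ω u x)⁻¹ * ω w x)
    rw [mul_smul, h2, smul_smul, inv_mul_cancel₀ hux, one_smul]
  have h1 := Submodule.finrank_lt hlt
  rw [LinearMap.finrank_range_of_inj hinj, hd] at h1
  exact h1

end skew

/-! ### transport of skew operators -/

lemma Full_transport {V W : Type} [AddCommGroup V] [Module ℂ V] [FiniteDimensional ℂ V]
    [AddCommGroup W] [Module ℂ W] [FiniteDimensional ℂ W]
    (ω : V →ₗ[ℂ] V →ₗ[ℂ] ℂ) (ω' : W →ₗ[ℂ] W →ₗ[ℂ] ℂ) (b : Basis (Fin 4) ℂ V)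
    (b' : Basis (Fin 4) ℂ W) (h : ∀ i j, ω (b i) (b j) = ω' (b' i) (b' j)) :
    finrank ℂ (Full_skew ω') ≤ finrank ℂ (Full_skew ω) := by
  let T : W ≃ₗ[ℂ] V := b'.equiv b (Equiv.refl _)
  have hTb : ∀ j, T (b' j) = b j := fun j => by
    rw [Basis.equiv_apply]; rfl
  have hT : ∀ x y, ω (T x) (T y) = ω' x y := by
    intro x y
    have h1 : ω.compl₁₂ T.toLinearMap T.toLinearMap = ω' := by
      apply b'.ext
      intro i
      apply b'.ext
      intro j
      rw [LinearMap.compl₁₂_apply]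
      show ω (T (b' i)) (T (b' j)) = _
      rw [hTb, hTb, h]
    rw [← h1]; rfl
  have h2 : (Full_skew ω').map T.conj.toLinearMap ≤ Full_skew ω := by
    rintro _ ⟨Y, hY, rfl⟩ u v
    show ω (T (Y (T.symm u))) v + ω u (T (Y (T.symm v))) = 0
    obtain ⟨u, rfl⟩ := T.surjective u
    obtain ⟨v, rfl⟩ := T.surjective v
    rw [T.symm_apply_apply, T.symm_apply_apply, hT, hT]
    exact hY u v
  have h3 : finrank ℂ ((Full_skew ω').map T.conj.toLinearMap) = finrank ℂ (Full_skew ω') :=
    LinearEquiv.finrank_map_eq T.conj _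
  rw [← h3]
  exact Submodule.finrank_mono h2

/-! ### an ideal which acts trivially at one place and not at the other -/

section lie

variable {L : Type} [LieRing L] [LieAlgebra ℂ L] [FiniteDimensional ℂ L]
  {V : Type} [AddCommGroup V] [Module ℂ V] [LieRingModule L V] [LieModule ℂ L V]
  [FiniteDimensional ℂ V] {ω : V →ₗ[ℂ] V →ₗ[ℂ] ℂ}
  {W : Type} [AddCommGroup W] [Module ℂ W] [LieRingModule L W] [LieModule ℂ L W]
  [FiniteDimensional ℂ W] {ω' : W →ₗ[ℂ] W →ₗ[ℂ] ℂ}

lemma Full_claim (p : Principal L) [LieModule.IsIrreducible ℂ L V]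
    [LieModule.IsIrreducible ℂ L W] (hω : Symp L ω) (hω' : Symp L ω') (hd : finrank ℂ V = 4)
    (hd' : finrank ℂ W = 2 ∨ finrank ℂ W = 4)
    (hS : ∀ Y ∈ Full_skew ω, ∃ x : L, ∀ v : V, ⁅x, v⁆ = Y v)
    (hno : finrank ℂ W = 4 → ∀ f : V → W → ℂ, ML2 f → Inv2 L f → ∀ x y, f x y = 0) :
    ∃ x : L, (∀ w : W, ⁅x, w⁆ = 0) ∧ ∃ v : V, ⁅x, v⁆ ≠ 0 := by
  by_contra hcon
  push Not at hcon
  let πV : L →ₗ[ℂ] Module.End ℂ V := (LieModule.toEnd ℂ L V : L →ₗ[ℂ] Module.End ℂ V)
  let πW : L →ₗ[ℂ] Module.End ℂ W := (LieModule.toEnd ℂ L W : L →ₗ[ℂ] Module.End ℂ W)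
  have hkV : ∀ x, x ∈ LinearMap.ker πV ↔ ∀ v : V, ⁅x, v⁆ = 0 := by
    intro x
    rw [LinearMap.mem_ker]
    constructor
    · intro h v
      exact LinearMap.congr_fun h v
    · intro h
      exact LinearMap.ext h
  have hkW : ∀ x, x ∈ LinearMap.ker πW ↔ ∀ v : W, ⁅x, v⁆ = 0 := by
    intro x
    rw [LinearMap.mem_ker]
    constructor
    · intro h v
      exact LinearMap.congr_fun h v
    · intro h
      exact LinearMap.ext h
  have hle : LinearMap.ker πW ≤ LinearMap.ker πV := fun x hx => (hkV x).2 (hcon x ((hkW x).1 hx))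
  have e1 := LinearMap.finrank_range_add_finrank_ker πV
  have e2 := LinearMap.finrank_range_add_finrank_ker πW
  have e3 := Submodule.finrank_mono hle
  have hsV : Full_skew ω ≤ LinearMap.range πV := by
    intro Y hY
    obtain ⟨x, hx⟩ := hS Y hY
    exact ⟨x, LinearMap.ext hx⟩
  have hsW : LinearMap.range πW ≤ Full_skew ω' := by
    rintro _ ⟨x, rfl⟩ u v
    show ω' ⁅x, u⁆ v + ω' u ⁅x, v⁆ = 0
    rw [hω'.inv]; ring
  have e4 := Submodule.finrank_mono hsV
  have e5 := Submodule.finrank_mono hsW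
  rcases hd' with hd' | hd'
  · have e6 := Full_dim hω.alt hω.nd hd
    have e7 : finrank ℂ (LinearMap.range πW) ≤ finrank ℂ (Module.End ℂ W) :=
      Submodule.finrank_le _
    have e8 : finrank ℂ (Module.End ℂ W) = 4 := by
      rw [Module.finrank_linearMap, hd']
    omega
  · obtain ⟨A⟩ := Pool.Agent.Helper8.exists_adapted4 (p := p) hω hd
    obtain ⟨B⟩ := Pool.Agent.Helper8.exists_adapted4 (p := p) hω' hd'
    have e6 := Full_transport ω ω' A.b B.b (fun i j => by rw [A.g_b, B.g_b])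
    have e7 : LinearMap.ker πW = LinearMap.ker πV :=
      Submodule.eq_of_le_of_finrank_le hle (by omega)
    obtain ⟨β, h1, h2, x, y, h3⟩ := Pool.Agent.Helper84.iso4 p hω hω' hd hd'
      (fun x hx => (hkW x).1 (by rw [e7]; exact (hkV x).2 hx)) hcon
    exact h3 (hno hd' β h1 h2 x y)

/-- the intersection of two ideals which surject acts non-trivially -/
lemma Full_inter [Nontrivial V] (hω : Symp L ω) (N M : LieIdeal ℂ L)
    (hN : ∀ Y ∈ Full_skew ω, ∃ x ∈ N, ∀ v : V, ⁅x, v⁆ = Y v)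
    (hM : ∀ Y ∈ Full_skew ω, ∃ x ∈ M, ∀ v : V, ⁅x, v⁆ = Y v) :
    ∃ x, (x ∈ N ∧ x ∈ M) ∧ ∃ v : V, ⁅x, v⁆ ≠ 0 := by
  have hself : ∀ x, ω x x = 0 := fun x => by
    have := hω.alt x x
    linear_combination (1 / 2 : ℂ) * this
  obtain ⟨w, hw⟩ := exists_ne (0 : V)
  obtain ⟨v, hv⟩ : ∃ v, ω w v ≠ 0 := by
    by_contra hcon
    push Not at hcon
    exact hw (hω.nd w hcon)
  obtain ⟨x, hx, hx'⟩ := hN _ (Full_sq_mem hω.alt w)
  obtain ⟨y, hy, hy'⟩ := hM _ (Full_sq_mem hω.alt v)
  refine ⟨⁅x, y⁆, ⟨lie_mem_left ℂ L N x y hx, LieSubmodule.lie_mem _ hy⟩, w, ?_⟩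
  rw [lie_lie, hx' w, LinearMap.smulRight_apply, hself w, zero_smul, lie_zero, sub_zero, hy' w,
    LinearMap.smulRight_apply, lie_smul, hx' v, LinearMap.smulRight_apply, smul_smul]
  intro h
  rcases smul_eq_zero.1 h with h | h
  · rcases mul_eq_zero.1 h with h | h
    · exact hv (by rw [hω.alt, h, neg_zero])
    · exact hv h
  · exact hw h

end lie

/-! ### the ideals of the elements acting trivially at given places -/

section family

variable {I : Type} [Fintype I] [DecidableEq I] (n : I → ℕ)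
  {κ : I → Type} [∀ i, Fintype (κ i)] [∀ i, DecidableEq (κ i)] {ϖ : ℂ}
  (P : ∀ i, PData (κ i) ϖ)
  {K : I → Type} [∀ i, Field (K i)] [∀ i, NumberField (K i)]
  (F : ∀ i, FS (P i) (K i))
  {k : ℕ} (α : MultilinearMap ℂ (fun _ : Fin (2 * k) => HW κ n) ℂ)

/-- the elements which act trivially at the places in `T` -/
def Full_N (T : Finset (Emb K)) : LieIdeal ℂ (LL n P F α) where
  carrier := {x | ∀ t ∈ T, ∀ v : Vs n P F α t, ⁅x, v⁆ = 0}
  add_mem' ha hb t ht v := by rw [add_lie, ha t ht v, hb t ht v, add_zero]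
  zero_mem' t _ v := zero_lie v
  smul_mem' c x hx t ht v := by rw [smul_lie, hx t ht v, smul_zero]
  lie_mem {x m} hm t ht v := by
    rw [lie_lie, hm t ht v, hm t ht ⁅x, v⁆, lie_zero, sub_zero]

lemma Full_mem_N (T : Finset (Emb K)) (x : LL n P F α) : x ∈ Full_N n P F α T ↔
    ∀ t ∈ T, ∀ v : Vs n P F α t, ⁅x, v⁆ = 0 := Iff.rfl

end family

theorem thm_Full (h1 : St_Simp) : St_Full := by
  intro I _ _ n κ _ _ ϖ P K _ _ F k α s p hirr hs hrk hno hS
  classical
  have hnt : Nontrivial (Vs n P F α s) := hs.nt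
  have hirrs := hirr s hs.1 hnt
  have hω := omV_symp n P F α s hs.1
  have key : ∀ T : Finset (Emb K), (∀ t ∈ T, t ≠ s ∧ n t.1 ≠ 0 ∧ (F t.1).isLeft) →
      ∀ Y ∈ Full_skew (omV n P F α s), ∃ x ∈ Full_N n P F α T,
        ∀ v : Vs n P F α s, ⁅x, v⁆ = Y v := by
    intro T
    induction T using Finset.induction_on with
    | empty =>
      intro _ Y hY
      obtain ⟨x, hx⟩ := hS Y hY
      exact ⟨x, fun t ht => absurd ht (Finset.notMem_empty t), hx⟩
    | insert t T _ ih =>
      intro hT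
      have ih' := ih (fun t ht => hT t (Finset.mem_insert_of_mem ht))
      obtain ⟨hts, hnt', htl⟩ := hT t (Finset.mem_insert_self _ _)
      have hone : ∀ Y ∈ Full_skew (omV n P F α s), ∃ x ∈ Full_N n P F α {t},
          ∀ v : Vs n P F α s, ⁅x, v⁆ = Y v := by
        refine h1 (LL n P F α) (Vs n P F α s) (omV n P F α s) (Full_N n P F α {t}) hω hS ?_
        have hfin := Pool.Agent.Helper8.finrank_Vs (n := n) (P := P) (F := F) (α := α) t htl
        have hd' : finrank ℂ (Vs n P F α t) = 2 ∨ finrank ℂ (Vs n P F α t) = 4 := by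
          rw [hfin]; exact hrk t.1 htl
        have hnt2 : Nontrivial (Vs n P F α t) :=
          (Module.finrank_pos_iff (R := ℂ)).1 (by rcases hd' with h | h <;> rw [h] <;> norm_num)
        have hirrt := hirr t htl hnt2
        obtain ⟨x, hx, hv⟩ := Full_claim p hω (omV_symp n P F α t htl) hs.2 hd' hS
          (fun h4 => hno t hts hnt' ⟨htl, h4⟩)
        refine ⟨x, fun t' ht' => ?_, hv⟩
        obtain rfl := Finset.mem_singleton.1 ht'
        exact hx
      refine h1 (LL n P F α) (Vs n P F α s) (omV n P F α s) (Full_N n P F α (insert t T)) hω hS ?_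
      obtain ⟨x, ⟨hx1, hx2⟩, hv⟩ := Full_inter hω _ _ ih' hone
      refine ⟨x, fun t' ht' => ?_, hv⟩
      rcases Finset.mem_insert.1 ht' with rfl | ht'
      · exact hx2 _ (Finset.mem_singleton_self _)
      · exact hx1 _ ht'
  intro Y hY
  obtain ⟨x, hx, hxY⟩ := key (Finset.univ.filter fun t => t ≠ s ∧ n t.1 ≠ 0 ∧ (F t.1).isLeft)
    (fun t ht => (Finset.mem_filter.1 ht).2) Y hY
  exact ⟨x, hxY, fun t h2 h3 h4 => hx t (Finset.mem_filter.2 ⟨Finset.mem_univ _, h2, h3, h4⟩)⟩

end Pool.Agent.KT.Alg
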