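import Pool.Agent.KT.Alg.St

/-!
# KT, algebra part: identities in the image of `sl_2`
-/

set_option autoImplicit false

namespace Pool.Agent.KT.Alg

open Pool.Agent.Helper84.Iso (EE FF HH IsSp)

theorem gg_eq (a b c : ℂ) : gg a b c = !![3 * b, 3 * a, 0, 0; c, b, 4 * a, 0; 0, c, -b, 3 * a;
    0, 0, c, -(3 * b)] := by
  unfold gg EE FF HH
  ext i j
  fin_cases i <;> fin_cases j <;> simp <;> ring

theorem thm_Sl : St_Sl := by
  refine ⟨?_, ?_, ?_, ?_, ?_, ?_, ?_⟩
  · intro a b c a' b' c'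
    simp only [gg_eq]
    ext i j
    rw [Matrix.sub_apply, Matrix.mul_apply, Matrix.mul_apply, Fin.sum_univ_four,
      Fin.sum_univ_four]
    fin_cases i <;> fin_cases j <;> simp <;> ring
  · intro a b c a' b' c'
    simp only [gg_eq, Matrix.trace, Matrix.diag_apply, Matrix.mul_apply, Fin.sum_univ_four]
    simp
    ring
  · intro a b c
    simp only [gg_eq, Matrix.trace, Matrix.diag_apply, Fin.sum_univ_four]
    simp
  · intro a b c
    simp only [gg_eq, Matrix.trace, Matrix.diag_apply, Matrix.mul_apply, Fin.sum_univ_four]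
    simp
    ring
  · intro a b c
    have h : gg a b c * gg a b c = !![9 * b ^ 2 + 3 * (a * c), 12 * a * b, 12 * a ^ 2, 0;
        4 * b * c, b ^ 2 + 7 * (a * c), 0, 12 * a ^ 2;
        c ^ 2, 0, b ^ 2 + 7 * (a * c), -(12 * a * b);
        0, c ^ 2, -(4 * b * c), 9 * b ^ 2 + 3 * (a * c)] := by
      rw [gg_eq]
      ext i j
      rw [Matrix.mul_apply, Fin.sum_univ_four]
      fin_cases i <;> fin_cases j <;> simp <;> ring
    have h1 : ∀ q : ℂ, q • (1 : Matrix (Fin 4) (Fin 4) ℂ) =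
        !![q, 0, 0, 0; 0, q, 0, 0; 0, 0, q, 0; 0, 0, 0, q] := by
      intro q
      ext i j
      fin_cases i <;> fin_cases j <;> simp
    rw [h, h1, h1]
    ext i j
    rw [Matrix.mul_apply, Fin.sum_univ_four]
    simp only [Matrix.sub_apply]
    fin_cases i <;> fin_cases j <;> simp <;> ring
  · intro a b c
    rw [gg_eq, Matrix.det_succ_row_zero, Fin.sum_univ_four]
    simp [Matrix.det_fin_three, Matrix.submatrix_apply, Fin.succAbove]
    ring
  · intro a b c a' b' c' h
    rw [gg_eq, gg_eq] at h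
    have h1 := congrFun (congrFun h 0) 1
    have h2 := congrFun (congrFun h 1) 1
    have h3 := congrFun (congrFun h 1) 0
    simp at h1 h2 h3
    exact ⟨h1, h2, h3⟩

/-- the bracket -/
theorem gg_comm (a b c a' b' c' : ℂ) : gg a b c * gg a' b' c' - gg a' b' c' * gg a b c =
    gg (2 * (b * a' - a * b')) (a * c' - c * a') (2 * (c * b' - b * c')) :=
  thm_Sl.1 a b c a' b' c'

theorem gg_trace_mul (a b c a' b' c' : ℂ) :
    (gg a b c * gg a' b' c').trace = 20 * b * b' + 10 * (a * c' + c * a') :=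
  thm_Sl.2.1 a b c a' b' c'

theorem gg_add (a b c a' b' c' : ℂ) : gg a b c + gg a' b' c' = gg (a + a') (b + b') (c + c') := by
  unfold gg
  module

theorem gg_smul (t a b c : ℂ) : t • gg a b c = gg (t * a) (t * b) (t * c) := by
  unfold gg
  module

theorem gg_zero : gg 0 0 0 = 0 := by
  unfold gg
  simp

theorem gg_quartic (a b c : ℂ) : (gg a b c * gg a b c - (b ^ 2 + a * c) • 1) *
    (gg a b c * gg a b c - (9 * (b ^ 2 + a * c)) • 1) = 0 := thm_Sl.2.2.2.2.1 a b c

theorem gg_det (a b c : ℂ) : (gg a b c).det = 9 * (b ^ 2 + a * c) ^ 2 := thm_Sl.2.2.2.2.2.1 a b c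

theorem gg_inj {a b c a' b' c' : ℂ} (h : gg a b c = gg a' b' c') : a = a' ∧ b = b' ∧ c = c' :=
  thm_Sl.2.2.2.2.2.2 a b c a' b' c' h

end Pool.Agent.KT.Alg
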