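import Pool.Agent.KT.Alg.St
import Pool.Agent.KT.Alg.Sl

/-!
# KT, algebra part: generic surfaces are of relative dimension two over the rational numbers
-/

set_option autoImplicit false

namespace Pool.Agent.KT.Alg

open Module NumberField Pool.Agent.Helper7 Pool.Agent.GPC

/-- rational scalars are endomorphisms -/
lemma Gen_smul (B : AbVar) (q : ℚ) : B.IsEnd (fun v => (q : ℂ) • v) := by
  refine ⟨⟨fun u v => smul_add _ u v, fun c v => smul_comm _ c v⟩, fun v hv => ?_, fun v hv j => ?_,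
    fun v hv a => ?_⟩
  · rw [← mem_pData_Q] at hv ⊢
    exact (pData B).rat_smul_mem _ _ hv
  · rw [Pi.smul_apply, smul_eq_mul]
    exact (isAlgebraic_algebraMap (A := ℂ) q).mul (hv j)
  · rw [Pi.smul_apply, hv a, smul_zero]

/-- endomorphisms of generic surfaces are rational scalars -/
lemma Gen_rat (B : AbVar) (hB : B.IsGenericSurface) (f : B.H1 → B.H1) (hf : B.IsEnd f) :
    ∃ q : ℚ, ∀ v, f v = (q : ℂ) • v := by
  obtain ⟨c, hc⟩ := hB.2 f hf.linear hf.betti hf.hodge
  have hg : 0 < B.g := by rw [hB.1]; norm_num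
  have hnt : Nontrivial B.H1 := by
    refine ⟨Pi.single (Sum.inl ⟨0, hg⟩) 1, 0, fun h => ?_⟩
    have h1 := congrArg (fun v : B.H1 => v (Sum.inl ⟨0, hg⟩)) h
    change (Pi.single (Sum.inl ⟨0, hg⟩) (1 : ℂ) : B.H1) (Sum.inl ⟨0, hg⟩) = 0 at h1
    rw [Pi.single_eq_same] at h1
    exact one_ne_zero h1
  obtain ⟨j⟩ := (pData B).bB.index_nonempty
  have h1 : f ((pData B).bB j) ∈ (pData B).Q := by
    rw [mem_pData_Q]
    apply hf.betti
    rw [← mem_pData_Q]
    exact (pData B).basis_mem j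
  obtain ⟨q, hq⟩ := (pData B).repr_rat _ h1 j
  rw [hc, map_smul, Basis.repr_self, Finsupp.smul_apply, Finsupp.single_eq_same, smul_eq_mul,
    mul_one] at hq
  refine ⟨q, fun v => ?_⟩
  rw [hc, hq]

theorem thm_Gen : St_Gen := by
  intro B hB
  refine ⟨⟨inferInstance, ⟨{
    ρ := fun q v => (q : ℂ) • v
    one := fun v => by rw [Rat.cast_one, one_smul]
    mul := fun x y v => by rw [Rat.cast_mul, mul_smul]
    add := fun x y v => by rw [Rat.cast_add, add_smul]
    endo := fun x => Gen_smul B x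
    rosati := fun x u v => by
      simp only [AbVar.pol, Pi.smul_apply, smul_eq_mul]
      exact Finset.sum_congr rfl fun a _ => by ring
    centralizer := fun f hf _ => Gen_rat B hB f hf }⟩⟩, ?_, ?_⟩
  · rw [Module.finrank_self, hB.1]
  · rw [Module.finrank_self]
    refine ⟨fun _ v => v, fun _ => ⟨⟨fun _ _ => rfl, fun _ _ => rfl⟩, fun _ h => h, fun _ h => h,
      fun _ h => h⟩, fun f hf => ?_⟩
    obtain ⟨q, hq⟩ := Gen_rat B hB f hf
    exact ⟨fun _ => q, fun v => by rw [hq]; simp⟩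

end Pool.Agent.KT.Alg
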