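import Pool.Agent.KT.Alg.T12F
import Pool.Agent.KT.Alg.Act
import Pool.Agent.Helper26.GPC.Main

/-!
# KT, algebra part: the main theorem
-/

namespace Pool.Agent.KT.Alg

open Module NumberField Pool.Agent.GPC Pool.Agent.Helper7 Pool.Agent.Helper39.AF
open Pool.Agent.Helper8.T1 Pool.Agent.Helper26.GPC

/-- Grothendieck classes are Hodge classes, for abelian varieties all of whose simple factors have
real multiplication of relative dimension one or two or complex multiplication or are generic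
surfaces -/
theorem main_E (hKT : St_KT) (hAct : St_Act) (hGen : St_Gen) (X : AbVar)
    (hX : ∀ B : AbVar, B.IsSimpleFactor X →
      (∃ (K : Type) (_ : Field K) (_ : NumberField K), IsRMType B K) ∨
      (∃ (K : Type) (_ : Field K) (_ : NumberField K) (ρ : K → B.H1 → B.H1), B.HasCM K ρ) ∨
      (∃ (K : Type) (_ : Field K) (_ : NumberField K), B.IsRelTwoFactor X K) ∨
      B.IsGenericSurface)
    (k : ℕ) (α : X.Class (2 * k)) (hα : X.IsGrothendieckClass k α)
    (hCM : X.IsInFilPred k α ∨ X.IsGoodCMVar) : X.IsInFil k α := by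
  classical
  obtain ⟨I, _, A, n, Φ, ι, hΦ, hg, hs, hA, hn, -, hι⟩ := exists_decomp X
  have hfac : ∀ i, (A i).IsSimpleFactor X := by
    intro i
    refine ⟨hs i, ι i, (hι i).1, ?_⟩
    by_contra hcon
    push Not at hcon
    let u : (A i).H1 := Pi.single (Sum.inl ⟨0, Nat.pos_of_ne_zero (hg i)⟩) 1
    have h1 : ∀ v, (pData (A i)).ψ u v = 0 := by
      intro v
      have h2 := (hι i).2 u v
      have h3 : X.pol (ι i u) (ι i v) = 0 := by
        rw [hcon u, hcon v]
        simp [AbVar.pol]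
      rw [h3] at h2
      exact h2.symm
    have h4 := congrFun ((pData (A i)).hψnd u h1) (Sum.inl ⟨0, Nat.pos_of_ne_zero (hg i)⟩)
    have h5 : u (Sum.inl ⟨0, Nat.pos_of_ne_zero (hg i)⟩) = 1 := Pi.single_eq_same _ _
    rw [h5] at h4
    exact one_ne_zero h4
  have hK : ∀ i, ∃ (K : Type) (_ : Field K) (_ : NumberField K), IsRMType (A i) K ∨
      (A i).IsRelTwoFactor X K ∨ IsCMType (A i) K ∨
      ((A i).IsGenericSurface ∧ IsRelTwoType (A i) K ∧ finrank ℚ K = 1) := by
    intro i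
    rcases hX (A i) (hfac i) with ⟨K, h1, h2, h⟩ | ⟨K, h1, h2, ρ, h⟩ | ⟨K, h1, h2, h⟩ | h
    · exact ⟨K, h1, h2, Or.inl h⟩
    · obtain ⟨K', h3, h4, h5, -⟩ := cm_of_hasCM h (hs i)
      exact ⟨K', h3, h4, Or.inr (Or.inr (Or.inl h5))⟩
    · exact ⟨K, h1, h2, Or.inr (Or.inl h)⟩
    · exact ⟨ℚ, inferInstance, inferInstance,
        Or.inr (Or.inr (Or.inr ⟨h, hGen (A i) h, finrank_self ℚ⟩))⟩
  choose K iF iN hK using hK
  obtain ⟨S, hS⟩ : ∃ S : Finset I, ∀ i, i ∈ S ↔ IsRMType (A i) (K i) :=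
    ⟨Finset.univ.filter fun i => IsRMType (A i) (K i), fun i => by simp⟩
  obtain ⟨U, hU⟩ : ∃ U : Finset I, ∀ i, i ∈ U ↔ (A i).IsRelTwoFactor X (K i) :=
    ⟨Finset.univ.filter fun i => (A i).IsRelTwoFactor X (K i), fun i => by simp⟩
  obtain ⟨T, hT⟩ : ∃ T : Finset I, ∀ i, i ∈ T ↔ IsCMType (A i) (K i) :=
    ⟨Finset.univ.filter fun i => IsCMType (A i) (K i), fun i => by simp⟩
  obtain ⟨G, hG⟩ : ∃ G : Finset I, ∀ i, i ∈ G ↔
      ((A i).IsGenericSurface ∧ IsRelTwoType (A i) (K i) ∧ finrank ℚ (K i) = 1) :=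
    ⟨Finset.univ.filter fun i => ((A i).IsGenericSurface ∧ IsRelTwoType (A i) (K i) ∧
      finrank ℚ (K i) = 1), fun i => by simp⟩
  have hST : ∀ i, i ∈ S ∨ i ∈ U ∪ G ∨ i ∈ T := fun i => by
    rw [hS, Finset.mem_union, hU, hT, hG]
    rcases hK i with h | h | h | h
    · exact Or.inl h
    · exact Or.inr (Or.inl (Or.inl h))
    · exact Or.inr (Or.inr h)
    · exact Or.inr (Or.inl (Or.inr h))
  have hUG : ∀ i ∈ U ∪ G, IsRelTwoType (A i) (K i) := by
    intro i hi
    rcases Finset.mem_union.mp hi with h | h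
    · exact ((hU i).mp h).type
    · exact ((hG i).mp h).2.1
  have hc := relTwoCond hΦ hg hfac hA hn K S U (fun i hi => (hS i).mp hi)
    (fun i hi => (hU i).mp hi)
  have hcG : CondG A n K S (U ∪ G) G := by
    refine ⟨fun i j _ _ _ _ hij => hA i j hij, Finset.subset_union_right,
      fun i hi => ((hG i).mp hi).1, fun i hi => ((hG i).mp hi).2.2, fun i hi hi' => ?_,
      fun i hi hi' => ?_⟩
    · exact hc.mult i ((Finset.mem_union.mp hi).resolve_right hi')
    · exact hc.link i ((Finset.mem_union.mp hi).resolve_right hi')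
  have hα' := grothendieck_transfer hΦ α hα
  refine inFil_of_hodge hΦ α ?_
  rcases hCM with h | h
  · exact thm_T1 I A n K S (U ∪ G) T hST (fun i hi => (hS i).mp hi) hUG
      (fun i hi => (hT i).mp hi) k _
      (fun F hF => hAct hKT I A n K S (U ∪ G) G (fun i hi => (hS i).mp hi) hUG hcG F hF k _ hα')
      hα' (filPred_transfer hΦ α h)
  · obtain ⟨h1, h2⟩ := good_family h A K T (fun i _ => hfac i) hA (fun i hi => (hT i).mp hi)
    exact thm_T2 I A n K S (U ∪ G) T hST (fun i hi => (hS i).mp hi) hUG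
      (fun i hi => (hT i).mp hi) k _
      (fun F hF => hAct hKT I A n K S (U ∪ G) G (fun i hi => (hS i).mp hi) hUG hcG F hF k _ hα')
      hα' h1 h2

end Pool.Agent.KT.Alg
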