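import Pool.Agent.KT.Alg.Sl

/-!
# KT, algebra part: matrices of the symmetries at a place with field `ℚ`
-/

set_option autoImplicit false
set_option linter.unusedSectionVars false

namespace Pool.Agent.KT.Alg

open Module NumberField LieAlgebra
open Pool.Agent.Helper7 Pool.Agent.Helper7.HU Pool.Agent.GPC

attribute [local instance 100] LieRing.ofAssociativeRing

open Pool.Agent.Helper8 (IsPl NoPair KerLe Symp Principal Irr)
open Pool.Agent.Helper84.Iso (EE FF HH IsSp)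

section family

variable {I : Type} [Fintype I] [DecidableEq I] (n : I → ℕ)
  {κ : I → Type} [∀ i, Fintype (κ i)] [∀ i, DecidableEq (κ i)] {ϖ : ℂ}
  (P : ∀ i, PData (κ i) ϖ)
  {K : I → Type} [∀ i, Field (K i)] [∀ i, NumberField (K i)]
  (F : ∀ i, FS (P i) (K i))
  {k : ℕ} (α : MultilinearMap ℂ (fun _ : Fin (2 * k) => HW κ n) ℂ)

private theorem Mat_proj (i : I) (σ : K i →+* ℂ) (h : finrank ℚ (K i) = 1) (w : κ i → ℂ) :
    proj (F i).ρ σ w = w := by
  have h1 : Fintype.card (K i →+* ℂ) = 1 := by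
    rw [NumberField.Embeddings.card (K i) ℂ, h]
  have h2 : ∀ τ : K i →+* ℂ, τ = σ := by
    obtain ⟨x, hx⟩ := Fintype.card_eq_one_iff.mp h1
    intro τ
    rw [hx τ, hx σ]
  have h3 := sum_proj (F i).ρ
  have h4 : ∑ τ : K i →+* ℂ, proj (F i).ρ τ = proj (F i).ρ σ := by
    rw [Finset.sum_eq_single σ]
    · intro τ _ hτ
      exact absurd (h2 τ) hτ
    · intro h5
      exact absurd (Finset.mem_univ σ) h5
  rw [h4] at h3
  rw [h3]
  rfl

/-- the eigenspace is the whole factor -/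
private noncomputable def Mat_T (i : I) (σ : K i →+* ℂ) (h : finrank ℚ (K i) = 1) :
    Vs n P F α ⟨i, σ⟩ ≃ₗ[ℂ] (κ i → ℂ) :=
  LinearEquiv.ofLinearMap
    ((LinearMap.proj i : MM κ →ₗ[ℂ] (κ i → ℂ)) ∘ₗ (Vs n P F α ⟨i, σ⟩).toSubmodule.subtype)
    (toVs n P F α ⟨i, σ⟩)
    (by
      apply LinearMap.ext
      intro w
      show ((toVs n P F α ⟨i, σ⟩ w : Vs n P F α ⟨i, σ⟩) : MM κ) i = w
      rw [toVs_apply n P F α ⟨i, σ⟩ w]
      exact Mat_proj P F i σ h w)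
    (by
      apply LinearMap.ext
      intro x
      apply Vs_ext n P F α ⟨i, σ⟩
      show ((toVs n P F α ⟨i, σ⟩ ((x : MM κ) i) : Vs n P F α ⟨i, σ⟩) : MM κ) i = (x : MM κ) i
      rw [toVs_apply n P F α ⟨i, σ⟩]
      exact Mat_proj P F i σ h _)

private theorem Mat_T_apply (i : I) (σ : K i →+* ℂ) (h : finrank ℚ (K i) = 1)
    (x : Vs n P F α ⟨i, σ⟩) : Mat_T n P F α i σ h x = (x : MM κ) i := rfl

/-- the matrix of a symmetry -/
private noncomputable def Mat_Th {i : I} (B : Basis (Fin 4) ℂ (κ i → ℂ)) :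
    GG κ →ₗ[ℂ] Matrix (Fin 4) (Fin 4) ℂ :=
  (LinearMap.toMatrix B B).toLinearMap ∘ₗ
    ((LinearMap.proj i : ((j : I) → Module.End ℂ (κ j → ℂ)) →ₗ[ℂ] Module.End ℂ (κ i → ℂ)) ∘ₗ
      LinearMap.fst ℂ _ ℂ - (LinearMap.toSpanSingleton ℂ (Module.End ℂ (κ i → ℂ)) 1) ∘ₗ
        ((1 / 2 : ℂ) • LinearMap.snd ℂ ((j : I) → Module.End ℂ (κ j → ℂ)) ℂ))

private theorem Mat_Th_apply {i : I} (B : Basis (Fin 4) ℂ (κ i → ℂ)) (X : GG κ) :
    Mat_Th B X = LinearMap.toMatrix B B (X.1 i - (X.2 / 2) • (1 : Module.End ℂ (κ i → ℂ))) := by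
  show LinearMap.toMatrix B B (X.1 i - ((1 / 2 : ℂ) • X.2) • (1 : Module.End ℂ (κ i → ℂ))) = _
  rw [smul_eq_mul, one_div, inv_mul_eq_div]

private theorem Mat_entry {i : I} (B : Basis (Fin 4) ℂ (κ i → ℂ)) (X : GG κ) (a b : Fin 4) :
    Mat_Th B X a b = B.repr (X.1 i (B b)) a - X.2 / 2 * (if b = a then 1 else 0) := by
  rw [Mat_Th_apply, LinearMap.toMatrix_apply]
  rw [LinearMap.sub_apply, LinearMap.smul_apply, Module.End.one_apply, map_sub, map_smul,
    Finsupp.sub_apply, Finsupp.smul_apply, Basis.repr_self, Finsupp.single_apply, smul_eq_mul]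

private theorem Mat_core (i : I) (σ : K i →+* ℂ) (h1 : finrank ℚ (K i) = 1)
    (hl : (F i).isLeft) (p : Principal (LL n P F α)) (A : Basis (Fin 4) ℂ (Vs n P F α ⟨i, σ⟩))
    (he : Helper84.mat A p.e = EE) (hh : Helper84.mat A p.h = HH)
    (hf : Helper84.mat A p.f = FF) (h3 : Three n P F α p.e p.h p.f ⟨i, σ⟩)
    (R : Matrix (Fin 4) (Fin 4) ℂ → Prop) (R' : GG κ → Prop) (B : Basis (Fin 4) ℂ (κ i → ℂ))
    (hR : ∀ X, IsInv n P α X → X ∈ Submodule.span ℂ {Y | IsInv n P α Y ∧ R' Y})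
    (hR' : ∀ X, R' X → R (Mat_Th B X)) :
    Sp3 R ((A.map (Mat_T n P F α i σ h1)).toMatrix B) := by
  obtain ⟨b', hb'⟩ : ∃ b', b' = A.map (Mat_T n P F α i σ h1) := ⟨_, rfl⟩
  rw [← hb']
  obtain ⟨C, hC⟩ : ∃ C, C = b'.toMatrix B := ⟨_, rfl⟩
  rw [← hC]
  have hCB : C * B.toMatrix b' = 1 := by rw [hC]; exact b'.toMatrix_mul_toMatrix_flip B
  have hBC : B.toMatrix b' * C = 1 := by rw [hC]; exact B.toMatrix_mul_toMatrix_flip b'
  have hdet : C.det ≠ 0 := by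
    intro h0
    have h4 := congrArg Matrix.det hCB
    rw [Matrix.det_mul, h0, zero_mul, Matrix.det_one] at h4
    exact zero_ne_one h4
  have hCi : C⁻¹ = B.toMatrix b' := Matrix.inv_eq_right_inv hCB
  -- the matrix of an element of the Lie algebra
  have hmat : ∀ (X : GG κ) (hX : IsInv n P α X),
      Mat_Th B X = C⁻¹ * Helper84.mat A (elL n P F α X hX) * C := by
    intro X hX
    have h5 : Helper84.mat A (elL n P F α X hX) = Mat_Th b' X := by
      ext a b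
      rw [Helper84.mat_apply, Mat_Th_apply, LinearMap.toMatrix_apply, hb', Basis.map_apply,
        Basis.map_repr, LinearEquiv.trans_apply]
      congr 2
      rw [LinearEquiv.eq_symm_apply, Mat_T_apply, elL_real n P F α X hX ⟨i, σ⟩ hl, Mat_T_apply]
      rfl
    rw [h5, Mat_Th_apply, Mat_Th_apply, hCi, hC,
      basis_toMatrix_mul_linearMap_toMatrix_mul_basis_toMatrix]
  have hgg : ∀ x : LL n P F α, ∃ a b c : ℂ, Helper84.mat A x = gg a b c := by
    intro x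
    obtain ⟨a, b, c, h4⟩ := h3 x
    refine ⟨a, b, c, ?_⟩
    have h5 : Helper84.mat A (x - (a • p.e + b • p.h + c • p.f)) = 0 := by
      rw [Helper84.mat_eq_zero]
      intro v
      rw [sub_lie, add_lie, add_lie, smul_lie, smul_lie, smul_lie, h4 v, sub_self]
    rw [map_sub, map_add, map_add, map_smul, map_smul, map_smul, he, hh, hf, sub_eq_zero] at h5
    exact h5
  refine ⟨hdet, fun a b c => ?_⟩
  have hx : Helper84.mat A (a • p.e + b • p.h + c • p.f) = gg a b c := by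
    rw [map_add, map_add, map_smul, map_smul, map_smul, he, hh, hf]
    rfl
  obtain ⟨X, hX, hX'⟩ := exists_elL n P F α (a • p.e + b • p.h + c • p.f)
  rw [← hx, hX', ← hmat X hX]
  have h6 : Mat_Th B X ∈ (Submodule.span ℂ {Y | IsInv n P α Y ∧ R' Y}).map (Mat_Th B) :=
    ⟨X, hR X hX, rfl⟩
  rw [Submodule.map_span] at h6
  refine Submodule.span_mono ?_ h6
  rintro _ ⟨Y, ⟨hY, hY'⟩, rfl⟩
  refine ⟨hR' Y hY', ?_⟩
  obtain ⟨a', b', c', h7⟩ := hgg (elL n P F α Y hY)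
  refine ⟨a', b', c', ?_⟩
  have h8 : C * C⁻¹ = 1 := by rw [hCi, hCB]
  rw [hmat Y hY, h7]
  calc C * (C⁻¹ * gg a' b' c' * C) * C⁻¹ = (C * C⁻¹) * gg a' b' c' * (C * C⁻¹) := by
        simp only [Matrix.mul_assoc]
    _ = gg a' b' c' := by rw [h8, Matrix.one_mul, Matrix.mul_one]

end family

theorem thm_Mat (h1 : St_AlgS) : St_Mat := by
  intro I _ _ n κ _ _ ϖ P K _ _ F k α i σ p hϖ hB hA hl hK hcard h3
  classical
  have T := Mat_T n P F α i σ hK
  have hfr : finrank ℂ (Vs n P F α ⟨i, σ⟩) = 4 := by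
    rw [T.finrank_eq, Module.finrank_fintype_fun_eq_card, hcard]
  have hnt : Nontrivial (Vs n P F α ⟨i, σ⟩) :=
    Module.finrank_pos_iff.mp (by rw [hfr]; omega)
  have := Vs_irr n P F α hϖ hB hA ⟨i, σ⟩ hl hnt
  have hω := omV_symp n P F α ⟨i, σ⟩ hl
  obtain ⟨A⟩ := Helper8.exists_adapted4 (p := p) hω hfr
  have hι : Fintype.card (P i).ι = 4 := by
    rw [← Module.finrank_eq_card_basis (P i).bB, Module.finrank_fintype_fun_eq_card, hcard]
  obtain ⟨e₁⟩ : Nonempty (Fin 4 ≃ (P i).ι) := ⟨(Fintype.equivFinOfCardEq hι).symm⟩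
  obtain ⟨e₂⟩ : Nonempty (Fin 4 ≃ κ i) := ⟨(Fintype.equivFinOfCardEq hcard).symm⟩
  obtain ⟨B₁, hB₁⟩ : ∃ B₁, B₁ = (P i).bB.reindex e₁.symm := ⟨_, rfl⟩
  obtain ⟨B₂, hB₂⟩ : ∃ B₂, B₂ = (Pi.basisFun ℂ (κ i)).reindex e₂.symm := ⟨_, rfl⟩
  have hB₁' : ∀ j, B₁ j = (P i).bB (e₁ j) := fun j => by
    rw [hB₁, Basis.reindex_apply, Equiv.symm_symm]
  have hB₂' : ∀ j, B₂ j = Pi.single (e₂ j) 1 := fun j => by
    rw [hB₂, Basis.reindex_apply, Equiv.symm_symm, Pi.basisFun_apply]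
  have he := Helper84.mat_e p A.b A.e_b
  have hh := Helper84.mat_h p A.b A.h_b
  have hf := Helper84.mat_f p A.b A.e_b A.h_b
  obtain ⟨b', hb'⟩ : ∃ b', b' = A.b.map (Mat_T n P F α i σ hK) := ⟨_, rfl⟩
  refine ⟨e₁, e₂, b'.toMatrix B₁, b'.toMatrix B₂, ?_, ?_, ?_⟩
  · rw [hb']
    refine Mat_core n P F α i σ hK hl p A.b he hh hf h3 IsQ (IsRatl P) B₁
      (fun X hX => mem_span_of_isInv n P α hϖ hB X hX) ?_
    intro X hX a b
    rw [Mat_entry, hB₁' b]
    obtain ⟨q, hq⟩ := hX.2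
    obtain ⟨r, hr⟩ := (P i).repr_rat _ (hX.1 i _ ((P i).basis_mem (e₁ b))) (e₁ a)
    have e : B₁.repr (X.1 i ((P i).bB (e₁ b))) a =
        (P i).bB.repr (X.1 i ((P i).bB (e₁ b))) (e₁ a) := by
      rw [hB₁, Basis.repr_reindex_apply, Equiv.symm_symm]
    rw [e, hr, hq]
    refine ⟨r - q / 2 * (if b = a then 1 else 0), ?_⟩
    split_ifs <;> push_cast <;> ring
  · rw [hb']
    refine Mat_core n P F α i σ hK hl p A.b he hh hf h3 IsAl IsAlgl B₂
      (fun X hX => h1 I n κ ϖ P k α hA X hX) ?_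
    intro X hX a b
    rw [Mat_entry, hB₂' b]
    have e : B₂.repr (X.1 i (Pi.single (e₂ b) 1)) a = X.1 i (Pi.single (e₂ b) 1) (e₂ a) := by
      rw [hB₂, Basis.repr_reindex_apply, Equiv.symm_symm, Pi.basisFun_repr]
    rw [e]
    have e1 : IsAlgebraic ℚ (X.1 i (Pi.single (e₂ b) 1) (e₂ a)) := by
      refine hX.1 i _ (fun j => ?_) _
      by_cases hj : j = e₂ b
      · subst hj
        rw [Pi.single_eq_same]
        exact isAlgebraic_one
      · rw [Pi.single_eq_of_ne hj]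
        exact isAlgebraic_zero
    have e2 : IsAlgebraic ℚ (X.2 / 2 * (if b = a then 1 else 0 : ℂ)) := by
      have e3 : IsAlgebraic ℚ (X.2 / 2) := by
        rw [div_eq_mul_inv]
        exact hX.2.mul (isAlgebraic_algebraMap (2 : ℚ)).inv
      split_ifs
      · rw [mul_one]
        exact e3
      · rw [mul_zero]
        exact isAlgebraic_zero
    exact e1.sub e2
  · intro j
    funext a
    have e1 : (b'.toMatrix B₁).mulVec (Pi.single j 1) a = b'.repr (B₁ j) a := by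
      rw [Matrix.mulVec_single_one]
      rfl
    have e2 : (b'.toMatrix B₂).mulVec (fun s => (P i).bB (e₁ j) (e₂ s)) a =
        b'.repr (∑ s, (P i).bB (e₁ j) (e₂ s) • B₂ s) a := by
      rw [map_sum, Finsupp.finsetSum_apply]
      show ∑ s, b'.toMatrix B₂ a s * (P i).bB (e₁ j) (e₂ s) = _
      refine Finset.sum_congr rfl fun s _ => ?_
      rw [map_smul, Finsupp.smul_apply, smul_eq_mul, mul_comm]
      rfl
    have e3 : (∑ s, (P i).bB (e₁ j) (e₂ s) • B₂ s) = B₁ j := by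
      rw [hB₁' j]
      conv_rhs => rw [← B₂.sum_repr ((P i).bB (e₁ j))]
      refine Finset.sum_congr rfl fun s _ => ?_
      rw [hB₂, Basis.repr_reindex_apply, Equiv.symm_symm, Pi.basisFun_repr]
    rw [e1, e2, e3]

end Pool.Agent.KT.Alg
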