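import Pool.Agent.KT.Alg.Sl

/-!
# KT, algebra part: a rational form of `sl_2` acting on a rational form of the third symmetric
power contains a nilpotent element
-/

set_option autoImplicit false

namespace Pool.Agent.KT.Alg

open Pool.Agent.Helper84.Iso (EE FF HH IsSp)

/-- the third symmetric power of a matrix of size two -/
private noncomputable def Nil_S (p q r s : ℂ) : Matrix (Fin 4) (Fin 4) ℂ :=
  !![p ^ 3, 3 * p ^ 2 * q, 6 * p * q ^ 2, 6 * q ^ 3;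
    p ^ 2 * r, p ^ 2 * s + 2 * p * q * r, 2 * (2 * p * q * s + r * q ^ 2), 6 * q ^ 2 * s;
    p * r ^ 2 / 2, (2 * p * r * s + r ^ 2 * q) / 2, p * s ^ 2 + 2 * q * r * s, 3 * q * s ^ 2;
    r ^ 3 / 6, r ^ 2 * s / 2, r * s ^ 2, s ^ 3]

private theorem Nil_S_mul (p q r s : ℂ) :
    Nil_S p q r s * Nil_S s (-q) (-r) p = ((p * s - q * r) ^ 3) • 1 := by
  unfold Nil_S
  ext i j
  rw [Matrix.mul_apply, Fin.sum_univ_four]
  fin_cases i <;> fin_cases j <;> simp <;> ring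

private theorem Nil_S_gg (p q r s a b c : ℂ) :
    (p * s - q * r) • (Nil_S p q r s * gg a b c) =
      gg (p ^ 2 * a - 2 * p * q * b - q ^ 2 * c) (b * (p * s + q * r) + q * s * c - p * r * a)
        (s ^ 2 * c + 2 * r * s * b - r ^ 2 * a) * Nil_S p q r s := by
  rw [gg_eq, gg_eq]
  unfold Nil_S
  ext i j
  rw [Matrix.smul_apply, Matrix.mul_apply, Matrix.mul_apply, Fin.sum_univ_four,
    Fin.sum_univ_four]
  fin_cases i <;> fin_cases j <;> simp <;> ring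


private theorem Nil_S_inv (p q r s : ℂ) (h : p * s - q * r ≠ 0) :
    (Nil_S p q r s).det ≠ 0 ∧
      (Nil_S p q r s)⁻¹ = ((p * s - q * r) ^ 3)⁻¹ • Nil_S s (-q) (-r) p := by
  have h3 : (p * s - q * r) ^ 3 ≠ 0 := pow_ne_zero 3 h
  have h1 : Nil_S p q r s * (((p * s - q * r) ^ 3)⁻¹ • Nil_S s (-q) (-r) p) = 1 := by
    rw [Matrix.mul_smul, Nil_S_mul, smul_smul, inv_mul_cancel₀ h3, one_smul]
  refine ⟨?_, Matrix.inv_eq_right_inv h1⟩
  intro h0
  have h2 := congrArg Matrix.det h1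
  rw [Matrix.det_mul, h0, zero_mul, Matrix.det_one] at h2
  exact zero_ne_one h2

/-- conjugation by the third symmetric power -/
private theorem Nil_conj (p q r s a b c : ℂ) (h : p * s - q * r ≠ 0) :
    Nil_S p q r s * gg a b c * (Nil_S p q r s)⁻¹ =
      gg ((p ^ 2 * a - 2 * p * q * b - q ^ 2 * c) / (p * s - q * r))
        ((b * (p * s + q * r) + q * s * c - p * r * a) / (p * s - q * r))
        ((s ^ 2 * c + 2 * r * s * b - r ^ 2 * a) / (p * s - q * r)) := by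
  have h1 := Nil_S_gg p q r s a b c
  have h2 : Nil_S p q r s * gg a b c =
      gg ((p ^ 2 * a - 2 * p * q * b - q ^ 2 * c) / (p * s - q * r))
        ((b * (p * s + q * r) + q * s * c - p * r * a) / (p * s - q * r))
        ((s ^ 2 * c + 2 * r * s * b - r ^ 2 * a) / (p * s - q * r)) * Nil_S p q r s := by
    have h3 := congrArg (fun M => (p * s - q * r)⁻¹ • M) h1
    simp only [smul_smul, inv_mul_cancel₀ h, one_smul] at h3
    rw [h3, ← Matrix.smul_mul, gg_smul]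
    congr 2 <;> field_simp
  rw [h2, Matrix.mul_assoc, Matrix.mul_nonsing_inv _ (IsUnit.mk0 _ (Nil_S_inv p q r s h).1),
    Matrix.mul_one]

/-- conjugation by the inverse -/
private theorem Nil_conj' (p q r s a b c : ℂ) (h : p * s - q * r ≠ 0) :
    ∃ a' b' c' : ℂ, (Nil_S p q r s)⁻¹ * gg a b c * Nil_S p q r s = gg a' b' c' := by
  have h' : s * p - (-q) * (-r) ≠ 0 := by
    intro h0
    apply h
    linear_combination h0
  have h3 : (p * s - q * r) ^ 3 ≠ 0 := pow_ne_zero 3 h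
  have h1 := Nil_conj s (-q) (-r) p a b c h'
  rw [(Nil_S_inv s (-q) (-r) p h').2] at h1
  rw [(Nil_S_inv p q r s h).2]
  refine ⟨_, _, _, Eq.trans ?_ h1⟩
  rw [Matrix.smul_mul, Matrix.smul_mul, Matrix.mul_smul]
  have h4 : (s * p - (-q) * (-r)) = p * s - q * r := by ring
  rw [h4, neg_neg, neg_neg]

/-- rational matrices -/
private theorem Nil_isQ_iff (Y : Matrix (Fin 4) (Fin 4) ℂ) :
    IsQ Y ↔ ∃ Z : Matrix (Fin 4) (Fin 4) ℚ, Y = Z.map (fun q => (q : ℂ)) := by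
  constructor
  · intro h
    choose f hf using h
    exact ⟨Matrix.of f, by ext i j; simp [hf]⟩
  · rintro ⟨Z, rfl⟩ i j
    exact ⟨Z i j, rfl⟩

private theorem Nil_isQ_mul {Y Z : Matrix (Fin 4) (Fin 4) ℂ} (hY : IsQ Y) (hZ : IsQ Z) :
    IsQ (Y * Z) := by
  intro i j
  choose f hf using hY
  choose g hg using hZ
  refine ⟨∑ l, f i l * g l j, ?_⟩
  rw [Matrix.mul_apply]
  push_cast
  exact Finset.sum_congr rfl fun l _ => by rw [hf, hg]

private theorem Nil_isQ_sub {Y Z : Matrix (Fin 4) (Fin 4) ℂ} (hY : IsQ Y) (hZ : IsQ Z) :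
    IsQ (Y - Z) := by
  intro i j
  obtain ⟨a, ha⟩ := hY i j
  obtain ⟨b, hb⟩ := hZ i j
  exact ⟨a - b, by rw [Matrix.sub_apply, ha, hb]; push_cast; ring⟩

private theorem Nil_isQ_add {Y Z : Matrix (Fin 4) (Fin 4) ℂ} (hY : IsQ Y) (hZ : IsQ Z) :
    IsQ (Y + Z) := by
  intro i j
  obtain ⟨a, ha⟩ := hY i j
  obtain ⟨b, hb⟩ := hZ i j
  exact ⟨a + b, by rw [Matrix.add_apply, ha, hb]; push_cast; ring⟩

private theorem Nil_isQ_smul {Y : Matrix (Fin 4) (Fin 4) ℂ} (r : ℚ) (hY : IsQ Y) :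
    IsQ ((r : ℂ) • Y) := by
  intro i j
  obtain ⟨a, ha⟩ := hY i j
  exact ⟨r * a, by rw [Matrix.smul_apply, ha, smul_eq_mul]; push_cast; ring⟩

private theorem Nil_isQ_one : IsQ 1 := by
  intro i j
  by_cases h : i = j
  · exact ⟨1, by rw [h, Matrix.one_apply_eq]; norm_num⟩
  · exact ⟨0, by rw [Matrix.one_apply_ne h]; norm_num⟩

private theorem Nil_isQ_trace {Y : Matrix (Fin 4) (Fin 4) ℂ} (hY : IsQ Y) :
    ∃ q : ℚ, Y.trace = q := by
  choose f hf using hY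
  refine ⟨∑ i, f i i, ?_⟩
  unfold Matrix.trace
  push_cast
  exact Finset.sum_congr rfl fun l _ => by rw [Matrix.diag_apply, hf]

/-- the conclusion -/
private def Nil_Con (C : Matrix (Fin 4) (Fin 4) ℂ) : Prop :=
  ∃ (v : Fin 4 → ℚ) (a b c : ℂ), v ≠ 0 ∧ ¬ (a = 0 ∧ b = 0 ∧ c = 0) ∧ b ^ 2 + a * c = 0 ∧
    (gg a b c).mulVec (C.mulVec fun i => (v i : ℂ)) = 0

/-- step 1 -/
private theorem Nil_of_zero (C Y : Matrix (Fin 4) (Fin 4) ℂ) (hC : C.det ≠ 0) (hY : IsQ Y)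
    (a b c : ℂ) (h : C * Y * C⁻¹ = gg a b c) (h0 : ¬ (a = 0 ∧ b = 0 ∧ c = 0))
    (hq : b ^ 2 + a * c = 0) : Nil_Con C := by
  obtain ⟨Z, rfl⟩ := (Nil_isQ_iff Y).mp hY
  have hdet : Z.det = 0 := by
    have h1 := congrArg Matrix.det h
    rw [Matrix.det_mul, Matrix.det_mul, gg_det, hq, Matrix.det_nonsing_inv,
      Ring.inverse_eq_inv'] at h1
    have h2 : (Z.map (fun q => (q : ℂ))).det = (Z.det : ℂ) := by
      have h3 := (RingHom.map_det (Rat.castHom ℂ) Z).symm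
      simpa [RingHom.mapMatrix_apply] using h3
    rw [h2] at h1
    have h3 : (Z.det : ℂ) = 0 := by
      have h4 : C.det * (Z.det : ℂ) * (C.det)⁻¹ = Z.det := by field_simp
      rw [← h4, h1]; norm_num
    exact_mod_cast h3
  obtain ⟨v, hv, hv0⟩ := Matrix.exists_mulVec_eq_zero_iff.mpr hdet
  refine ⟨v, a, b, c, hv, h0, hq, ?_⟩
  rw [← h, Matrix.mulVec_mulVec, Matrix.mul_assoc,
    Matrix.nonsing_inv_mul _ (IsUnit.mk0 _ hC), Matrix.mul_one, ← Matrix.mulVec_mulVec]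
  have h5 : (Z.map (fun q => (q : ℂ))).mulVec (fun i => (v i : ℂ)) = 0 := by
    funext i
    have h6 := congrFun hv0 i
    simp only [Matrix.mulVec, dotProduct, Pi.zero_apply, Matrix.map_apply] at h6 ⊢
    exact_mod_cast h6
  rw [h5, Matrix.mulVec_zero]

/-- there are elements with non-zero first coordinate -/
private theorem Nil_exists (C : Matrix (Fin 4) (Fin 4) ℂ) (h : Sp3 IsQ C) :
    ∃ Y, IsQ Y ∧ ∃ a b c : ℂ, C * Y * C⁻¹ = gg a b c ∧ a ≠ 0 := by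
  by_contra hcon
  push Not at hcon
  have h1 : ∀ Z ∈ Submodule.span ℂ {Y | IsQ Y ∧ ∃ a b c : ℂ, C * Y * C⁻¹ = gg a b c},
      (C * Z * C⁻¹) 0 1 = 0 := by
    intro Z hZ
    induction hZ using Submodule.span_induction with
    | mem x hx =>
      obtain ⟨hx1, a, b, c, hx2⟩ := hx
      have ha := hcon x hx1 a b c hx2
      rw [hx2, gg_eq, ha]
      simp
    | zero => simp
    | add x y _ _ hx hy =>
      rw [Matrix.mul_add, Matrix.add_mul, Matrix.add_apply, hx, hy, add_zero]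
    | smul t x _ hx =>
      rw [Matrix.mul_smul, Matrix.smul_mul, Matrix.smul_apply, hx, smul_zero]
  have h2 := h1 _ (h.2 1 0 0)
  have h3 : C * (C⁻¹ * gg 1 0 0 * C) * C⁻¹ = gg 1 0 0 := by
    have hu := IsUnit.mk0 _ h.1
    calc C * (C⁻¹ * gg 1 0 0 * C) * C⁻¹ = (C * C⁻¹) * gg 1 0 0 * (C * C⁻¹) := by
          simp only [Matrix.mul_assoc]
      _ = gg 1 0 0 := by
          rw [Matrix.mul_nonsing_inv _ hu, Matrix.one_mul, Matrix.mul_one]
  rw [h3, gg_eq] at h2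
  simp at h2

private theorem Nil_isQ_mulVec {Y : Matrix (Fin 4) (Fin 4) ℂ} (hY : IsQ Y) (v : Fin 4 → ℂ)
    (hv : ∀ i, ∃ q : ℚ, v i = q) : ∀ i, ∃ q : ℚ, (Y.mulVec v) i = q := by
  intro i
  choose f hf using hY
  choose g hg using hv
  refine ⟨∑ l, f i l * g l, ?_⟩
  rw [Matrix.mulVec, dotProduct]
  push_cast
  exact Finset.sum_congr rfl fun l _ => by rw [hf, hg]

/-- rational minors -/
private theorem Nil_minor (v w : Fin 4 → ℂ) (hv : ∀ i, ∃ q : ℚ, v i = q)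
    (hw : ∀ i, ∃ q : ℚ, w i = q) (s t : Fin 4) : ∃ q : ℚ, v s * w t - v t * w s = q := by
  choose f hf using hv
  choose g hg using hw
  exact ⟨f s * g t - f t * g s, by rw [hf, hf, hg, hg]; push_cast; ring⟩

/-- the case of a semisimple element in normal form -/
private theorem Nil_main (C i : Matrix (Fin 4) (Fin 4) ℂ) (h : Sp3 IsQ C) (hi : IsQ i) (m : ℂ)
    (hm : m ≠ 0) (hci : C * i * C⁻¹ = gg 0 m 0) : Nil_Con C := by
  have hu : IsUnit C.det := IsUnit.mk0 _ h.1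
  have hmul : ∀ Y Z, C * (Y * Z) * C⁻¹ = (C * Y * C⁻¹) * (C * Z * C⁻¹) := by
    intro Y Z
    calc C * (Y * Z) * C⁻¹ = C * Y * 1 * Z * C⁻¹ := by simp only [Matrix.mul_assoc, Matrix.one_mul]
      _ = C * Y * (C⁻¹ * C) * Z * C⁻¹ := by rw [Matrix.nonsing_inv_mul _ hu]
      _ = (C * Y * C⁻¹) * (C * Z * C⁻¹) := by simp only [Matrix.mul_assoc]
  have htr : ∀ Y : Matrix (Fin 4) (Fin 4) ℂ, (C * Y * C⁻¹).trace = Y.trace := by
    intro Y
    rw [Matrix.trace_mul_comm, ← Matrix.mul_assoc, Matrix.nonsing_inv_mul _ hu, Matrix.one_mul]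
  have hvec : ∀ (Y : Matrix (Fin 4) (Fin 4) ℂ) (v : Fin 4 → ℂ),
      C.mulVec (Y.mulVec v) = (C * Y * C⁻¹).mulVec (C.mulVec v) := by
    intro Y v
    rw [Matrix.mulVec_mulVec, Matrix.mulVec_mulVec, Matrix.mul_assoc, Matrix.mul_assoc,
      Matrix.nonsing_inv_mul _ hu, Matrix.mul_one]
  obtain ⟨a, ha⟩ : ∃ a : ℚ, m ^ 2 = a := by
    obtain ⟨q, hq⟩ := Nil_isQ_trace (Nil_isQ_mul hi hi)
    refine ⟨q / 20, ?_⟩
    have h1 := htr (i * i)
    rw [hmul, hci, gg_trace_mul, hq] at h1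
    push_cast
    linear_combination (1 / 20 : ℂ) * h1
  have ha0 : (a : ℂ) ≠ 0 := by rw [← ha]; exact pow_ne_zero 2 hm
  obtain ⟨Y, hY, α, β, γ, hcY, hα⟩ := Nil_exists C h
  obtain ⟨j, hj⟩ : ∃ j, j = i * Y - Y * i := ⟨_, rfl⟩
  obtain ⟨A, hA⟩ : ∃ A, A = 2 * m * α := ⟨_, rfl⟩
  obtain ⟨G, hG⟩ : ∃ G, G = -(2 * m * γ) := ⟨_, rfl⟩
  have hA0 : A ≠ 0 := by
    rw [hA]
    exact mul_ne_zero (mul_ne_zero two_ne_zero hm) hα
  have hcj : C * j * C⁻¹ = gg A 0 G := by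
    rw [hj, Matrix.mul_sub, Matrix.sub_mul, hmul, hmul, hci, hcY, gg_comm, hA, hG]
    congr 1 <;> ring
  have hjQ : IsQ j := hj ▸ Nil_isQ_sub (Nil_isQ_mul hi hY) (Nil_isQ_mul hY hi)
  have hcij : C * (i * j - j * i) * C⁻¹ = gg (2 * m * A) 0 (-(2 * m * G)) := by
    rw [Matrix.mul_sub, Matrix.sub_mul, hmul, hmul, hci, hcj, gg_comm]
    congr 1 <;> ring
  have hijQ : IsQ (i * j - j * i) := Nil_isQ_sub (Nil_isQ_mul hi hjQ) (Nil_isQ_mul hjQ hi)
  by_cases hG0 : G = 0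
  · exact Nil_of_zero C j h.1 hjQ A 0 G hcj (fun h0 => hA0 h0.1) (by rw [hG0]; ring)
  obtain ⟨b, hb⟩ : ∃ b : ℚ, A * G = b := by
    obtain ⟨q, hq⟩ := Nil_isQ_trace (Nil_isQ_mul hjQ hjQ)
    refine ⟨q / 20, ?_⟩
    have h1 := htr (j * j)
    rw [hmul, hcj, gg_trace_mul, hq] at h1
    push_cast
    linear_combination (1 / 20 : ℂ) * h1
  have hb0 : (b : ℂ) ≠ 0 := by rw [← hb]; exact mul_ne_zero hA0 hG0
  -- the projection to the extreme weights
  obtain ⟨P, hP⟩ : ∃ P, P = i * i - (a : ℂ) • (1 : Matrix (Fin 4) (Fin 4) ℂ) := ⟨_, rfl⟩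
  have hPQ : IsQ P := hP ▸ Nil_isQ_sub (Nil_isQ_mul hi hi) (Nil_isQ_smul a Nil_isQ_one)
  have hcP : C * P * C⁻¹ = !![8 * m ^ 2, 0, 0, 0; 0, 0, 0, 0; 0, 0, 0, 0; 0, 0, 0, 8 * m ^ 2] := by
    rw [hP, Matrix.mul_sub, Matrix.sub_mul, hmul, hci, Matrix.mul_smul, Matrix.smul_mul,
      Matrix.mul_one, Matrix.mul_nonsing_inv _ hu, ← ha, gg_eq]
    ext s t
    rw [Matrix.sub_apply, Matrix.mul_apply, Fin.sum_univ_four]
    fin_cases s <;> fin_cases t <;> simp <;> ring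
  have hP0 : P ≠ 0 := by
    rintro rfl
    rw [Matrix.mul_zero, Matrix.zero_mul] at hcP
    have h1 := congrFun (congrFun hcP 0) 0
    simp at h1
    exact hm h1
  obtain ⟨s₀, w, hw, hwP⟩ : ∃ (s₀ : Fin 4) (w : Fin 4 → ℂ), w ≠ 0 ∧
      w = P.mulVec (Pi.single s₀ 1) := by
    by_contra hcon
    push Not at hcon
    apply hP0
    ext t s
    have h1 := hcon s (P.mulVec (Pi.single s 1))
    by_contra h2
    refine h1 ?_ rfl
    intro h3
    apply h2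
    have h4 := congrFun h3 t
    rw [Matrix.mulVec_single_one] at h4
    simpa using h4
  have hwQ : ∀ t, ∃ q : ℚ, w t = q := by
    rw [hwP]
    refine Nil_isQ_mulVec hPQ _ fun t => ?_
    by_cases h1 : t = s₀
    · exact ⟨1, by rw [h1, Pi.single_eq_same]; norm_num⟩
    · exact ⟨0, by rw [Pi.single_eq_of_ne h1]; norm_num⟩
  obtain ⟨x, y, hxy⟩ : ∃ x y : ℂ, C.mulVec w = ![x, 0, 0, y] := by
    refine ⟨8 * m ^ 2 * (C.mulVec (Pi.single s₀ 1)) 0, 8 * m ^ 2 * (C.mulVec (Pi.single s₀ 1)) 3, ?_⟩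
    rw [hwP, hvec, hcP]
    funext t
    rw [Matrix.mulVec, dotProduct, Fin.sum_univ_four]
    fin_cases t <;> simp
  have hw' : ∀ v : Fin 4 → ℂ, v = C⁻¹.mulVec (C.mulVec v) := by
    intro v
    rw [Matrix.mulVec_mulVec, Matrix.nonsing_inv_mul _ hu, Matrix.one_mulVec]
  have hiw : C.mulVec (i.mulVec w) = ![3 * m * x, 0, 0, -(3 * m * y)] := by
    rw [hvec, hci, hxy, gg_eq]
    funext t
    rw [Matrix.mulVec, dotProduct, Fin.sum_univ_four]
    fin_cases t <;> simp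
  have hiwQ := Nil_isQ_mulVec hi w hwQ
  by_cases hmin : ∃ s t, w s * (i.mulVec w) t - w t * (i.mulVec w) s ≠ 0
  · -- the generic case
    obtain ⟨s, t, hst⟩ := hmin
    have hw1 : C.mulVec (P.mulVec (j.mulVec (j.mulVec (j.mulVec w)))) =
        ![8 * m ^ 2 * (36 * A ^ 3 * y), 0, 0, 8 * m ^ 2 * (G ^ 3 * x)] := by
      have e1 : (gg A 0 G).mulVec ![x, 0, 0, y] = ![0, G * x, 3 * A * y, 0] := by
        rw [gg_eq]
        funext t
        rw [Matrix.mulVec, dotProduct, Fin.sum_univ_four]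
        fin_cases t <;> simp
      have e2 : (gg A 0 G).mulVec ![0, G * x, 3 * A * y, 0] =
          ![3 * A * (G * x), 4 * A * (3 * A * y), G * (G * x), G * (3 * A * y)] := by
        rw [gg_eq]
        funext t
        rw [Matrix.mulVec, dotProduct, Fin.sum_univ_four]
        fin_cases t <;> simp
      have e3 : !![8 * m ^ 2, 0, 0, 0; 0, 0, 0, 0; 0, 0, 0, 0; 0, 0, 0, 8 * m ^ 2].mulVec
          ((gg A 0 G).mulVec
            ![3 * A * (G * x), 4 * A * (3 * A * y), G * (G * x), G * (3 * A * y)]) =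
          ![8 * m ^ 2 * (36 * A ^ 3 * y), 0, 0, 8 * m ^ 2 * (G ^ 3 * x)] := by
        rw [gg_eq]
        funext t
        simp only [Matrix.mulVec, dotProduct, Fin.sum_univ_four]
        fin_cases t <;> simp [-mul_eq_mul_left_iff] <;> ring
      rw [hvec, hcP, hvec, hcj, hvec, hcj, hvec, hcj, hxy, e1, e2, e3]
    have hw1Q := Nil_isQ_mulVec hPQ _ (Nil_isQ_mulVec hjQ _ (Nil_isQ_mulVec hjQ _
      (Nil_isQ_mulVec hjQ w hwQ)))
    obtain ⟨w1, hw1d⟩ : ∃ w1, w1 = P.mulVec (j.mulVec (j.mulVec (j.mulVec w))) := ⟨_, rfl⟩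
    rw [← hw1d] at hw1 hw1Q
    obtain ⟨iw, hiwd⟩ : ∃ iw, iw = i.mulVec w := ⟨_, rfl⟩
    rw [← hiwd] at hiw hiwQ hst
    obtain ⟨r1, hr1⟩ := Nil_minor w iw hwQ hiwQ s t
    obtain ⟨r2, hr2⟩ := Nil_minor w w1 hwQ hw1Q s t
    obtain ⟨r3, hr3⟩ := Nil_minor w1 iw hw1Q hiwQ s t
    have hr10 : (r1 : ℂ) ≠ 0 := hr1 ▸ hst
    have c1 : ∀ (v : Fin 4 → ℂ) (x y : ℂ), C.mulVec v = ![x, 0, 0, y] → ∀ t,
        v t = C⁻¹ t 0 * x + C⁻¹ t 3 * y := by
      intro v x y hv t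
      have h1 := congrFun (hw' v) t
      rw [hv, Matrix.mulVec, dotProduct, Fin.sum_univ_four] at h1
      simpa using h1
    obtain ⟨D, hD⟩ : ∃ D, D = C⁻¹ s 0 * C⁻¹ t 3 - C⁻¹ s 3 * C⁻¹ t 0 := ⟨_, rfl⟩
    have d1 : (r1 : ℂ) = D * (-(6 * m * x * y)) := by
      rw [← hr1, c1 w x y hxy s, c1 w x y hxy t, c1 iw _ _ hiw s, c1 iw _ _ hiw t, hD]
      ring
    have d2 : (r2 : ℂ) = D * (x * (8 * m ^ 2 * (G ^ 3 * x)) - y * (8 * m ^ 2 * (36 * A ^ 3 * y))) := by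
      rw [← hr2, c1 w x y hxy s, c1 w x y hxy t, c1 w1 _ _ hw1 s, c1 w1 _ _ hw1 t, hD]
      ring
    have d3 : (r3 : ℂ) = D * (-(3 * m) * ((8 * m ^ 2 * (36 * A ^ 3 * y)) * y +
        (8 * m ^ 2 * (G ^ 3 * x)) * x)) := by
      rw [← hr3, c1 w1 _ _ hw1 s, c1 w1 _ _ hw1 t, c1 iw _ _ hiw s, c1 iw _ _ hiw t, hD]
      ring
    have hkey : (r3 : ℂ) ^ 2 - 9 * a * r2 ^ 2 = 36 * (8 * a) ^ 2 * b ^ 3 * r1 ^ 2 := by
      rw [d1, d2, d3, ← hb, ← ha]
      ring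
    obtain ⟨p, hp⟩ : ∃ p : ℚ, p = r3 / (6 * (8 * a) * r1 * b) := ⟨_, rfl⟩
    obtain ⟨r, hr⟩ : ∃ r : ℚ, r = r2 / (2 * (8 * a) * r1 * b) := ⟨_, rfl⟩
    have hnorm : (p : ℂ) ^ 2 - a * r ^ 2 = b := by
      rw [hp, hr]
      push_cast
      have h1 : ((r3 : ℂ) / (6 * (8 * a) * r1 * b)) ^ 2 - a * (r2 / (2 * (8 * a) * r1 * b)) ^ 2 =
          (r3 ^ 2 - 9 * a * r2 ^ 2) / (6 * (8 * a) * r1 * b) ^ 2 := by
        field_simp
        ring
      rw [h1, hkey]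
      field_simp
      ring
    have hxc : C * (i + (((-(a * r / b) : ℚ) : ℂ) • j + ((p / (2 * b) : ℚ) : ℂ) • (i * j - j * i))) * C⁻¹
        = gg (-(a * r / b) * A + p / (2 * b) * (2 * m * A)) m
          (-(a * r / b) * G + p / (2 * b) * (-(2 * m * G))) := by
      rw [Matrix.mul_add, Matrix.add_mul, Matrix.mul_add, Matrix.add_mul, Matrix.mul_smul,
        Matrix.smul_mul, Matrix.mul_smul, Matrix.smul_mul, hci, hcj, hcij, gg_smul, gg_smul,
        gg_add, gg_add]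
      push_cast
      congr 1 <;> ring
    refine Nil_of_zero C _ h.1 (Nil_isQ_add hi (Nil_isQ_add (Nil_isQ_smul _ hjQ)
      (Nil_isQ_smul _ hijQ))) _ _ _ hxc (fun h0 => hm h0.2.1) ?_
    have h1 : m ^ 2 + (-(a * r / b) * A + p / (2 * b) * (2 * m * A)) *
        (-(a * r / b) * G + p / (2 * b) * (-(2 * m * G))) =
        m ^ 2 + ((a * r) ^ 2 - m ^ 2 * p ^ 2) * (A * G) / b ^ 2 := by
      field_simp
      ring
    rw [h1, hb, ha]
    have h2 : (a : ℂ) + ((a * r) ^ 2 - a * p ^ 2) * b / b ^ 2 =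
        (a / b) * (b - (p ^ 2 - a * r ^ 2)) := by
      field_simp
      ring
    rw [h2, hnorm, sub_self, mul_zero]
  · -- the split case
    push Not at hmin
    obtain ⟨s, hs⟩ : ∃ s, w s ≠ 0 := by
      by_contra hcon
      push Not at hcon
      exact hw (funext hcon)
    obtain ⟨l, hl⟩ : ∃ l : ℚ, (i.mulVec w) s / w s = l := by
      obtain ⟨p, hp⟩ := hwQ s
      obtain ⟨q, hq⟩ := hiwQ s
      exact ⟨q / p, by rw [hp, hq]; push_cast; rfl⟩
    have h1 : i.mulVec w = (l : ℂ) • w := by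
      funext t
      rw [Pi.smul_apply, smul_eq_mul, ← hl]
      have h2 := hmin s t
      field_simp
      linear_combination h2
    rw [h1, Matrix.mulVec_smul, hxy] at hiw
    have h3 := congrFun hiw 0
    have h4 := congrFun hiw 3
    simp at h3 h4
    obtain ⟨μ, hμ⟩ : ∃ μ : ℚ, m = μ := by
      by_cases hx : x = 0
      · have hy : y ≠ 0 := by
          rintro rfl
          apply hw
          rw [hw' w, hxy, hx]
          have h5 : (![0, 0, 0, 0] : Fin 4 → ℂ) = 0 := by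
            funext t
            fin_cases t <;> rfl
          rw [h5, Matrix.mulVec_zero]
        refine ⟨-(l / 3), ?_⟩
        push_cast
        have h6 : ((l : ℂ) + 3 * m) * y = 0 := by linear_combination h4
        rcases mul_eq_zero.mp h6 with h7 | h7
        · linear_combination (1 / 3 : ℂ) * h7
        · exact absurd h7 hy
      · refine ⟨l / 3, ?_⟩
        push_cast
        rcases h3 with h7 | h7
        · linear_combination (-1 / 3 : ℂ) * h7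
        · exact absurd h7 hx
    have hxc : C * ((i * j - j * i) + ((2 * μ : ℚ) : ℂ) • j) * C⁻¹ = gg (4 * m * A) 0 0 := by
      rw [Matrix.mul_add, Matrix.add_mul, Matrix.mul_smul, Matrix.smul_mul, hcij, hcj, gg_smul,
        gg_add]
      push_cast
      rw [← hμ]
      congr 1 <;> ring
    exact Nil_of_zero C _ h.1 (Nil_isQ_add hijQ (Nil_isQ_smul _ hjQ)) _ _ _ hxc
      (fun h0 => mul_ne_zero (mul_ne_zero (by norm_num) hm) hA0 h0.1) (by ring)

theorem thm_Nil : St_Nil := by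
  intro C h
  have hu : IsUnit C.det := IsUnit.mk0 _ h.1
  obtain ⟨i, hi, a, b, c, hci, ha⟩ := Nil_exists C h
  by_cases hq : b ^ 2 + a * c = 0
  · exact Nil_of_zero C i h.1 hi a b c hci (fun h0 => ha h0.1) hq
  obtain ⟨m, hm⟩ : ∃ m : ℂ, m ^ 2 = b ^ 2 + a * c := by
    obtain ⟨m, hm⟩ := IsAlgClosed.exists_pow_nat_eq (b ^ 2 + a * c) (n := 2) (by norm_num)
    exact ⟨m, hm⟩
  have hm0 : m ≠ 0 := by
    rintro rfl
    apply hq
    rw [← hm]; ring
  have hδ : (-(m + b)) * a - (-a) * (b - m) ≠ 0 := by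
    have h1 : (-(m + b)) * a - (-a) * (b - m) = -(2 * (a * m)) := by ring
    rw [h1]
    exact neg_ne_zero.mpr (mul_ne_zero two_ne_zero (mul_ne_zero ha hm0))
  obtain ⟨T, hT⟩ : ∃ T, T = Nil_S (-(m + b)) (-a) (b - m) a := ⟨_, rfl⟩
  have hTdet : T.det ≠ 0 := hT ▸ (Nil_S_inv _ _ _ _ hδ).1
  have huT : IsUnit T.det := IsUnit.mk0 _ hTdet
  have hconj : ∀ x y z : ℂ, ∃ x' y' z' : ℂ, T * gg x y z * T⁻¹ = gg x' y' z' := by
    intro x y z
    rw [hT]
    exact ⟨_, _, _, Nil_conj _ _ _ _ x y z hδ⟩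
  have hconj' : ∀ x y z : ℂ, ∃ x' y' z' : ℂ, T⁻¹ * gg x y z * T = gg x' y' z' := by
    intro x y z
    rw [hT]
    exact Nil_conj' _ _ _ _ x y z hδ
  have hTi : T * gg a b c * T⁻¹ = gg 0 m 0 := by
    rw [hT, Nil_conj _ _ _ _ a b c hδ]
    congr 1
    · rw [div_eq_zero_iff]
      left
      linear_combination a * hm
    · rw [div_eq_iff hδ]
      linear_combination a * hm
    · rw [div_eq_zero_iff]
      left
      linear_combination (-a) * hm
  have hdet' : (T * C).det ≠ 0 := by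
    rw [Matrix.det_mul]
    exact mul_ne_zero hTdet h.1
  have hinv : (T * C)⁻¹ = C⁻¹ * T⁻¹ := Matrix.mul_inv_rev T C
  have hSp : Sp3 IsQ (T * C) := by
    refine ⟨hdet', fun x y z => ?_⟩
    obtain ⟨x', y', z', h1⟩ := hconj' x y z
    have h2 : (T * C)⁻¹ * gg x y z * (T * C) = C⁻¹ * gg x' y' z' * C := by
      rw [hinv, ← h1]
      simp only [Matrix.mul_assoc]
    rw [h2]
    refine Submodule.span_mono ?_ (h.2 x' y' z')
    rintro Y ⟨hY, x1, y1, z1, h3⟩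
    refine ⟨hY, ?_⟩
    obtain ⟨x2, y2, z2, h4⟩ := hconj x1 y1 z1
    refine ⟨x2, y2, z2, ?_⟩
    rw [hinv, ← h4, ← h3]
    simp only [Matrix.mul_assoc]
  have hci' : (T * C) * i * (T * C)⁻¹ = gg 0 m 0 := by
    rw [hinv, ← hTi, ← hci]
    simp only [Matrix.mul_assoc]
  obtain ⟨v, x, y, z, hv, h0, h1, h2⟩ := Nil_main (T * C) i hSp hi m hm0 hci'
  obtain ⟨x', y', z', h3⟩ := hconj' x y z
  have h4 : gg x y z = T * gg x' y' z' * T⁻¹ := by
    rw [← h3]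
    calc gg x y z = (T * T⁻¹) * gg x y z * (T * T⁻¹) := by
          rw [Matrix.mul_nonsing_inv _ huT, Matrix.one_mul, Matrix.mul_one]
      _ = T * (T⁻¹ * gg x y z * T) * T⁻¹ := by simp only [Matrix.mul_assoc]
  refine ⟨v, x', y', z', hv, ?_, ?_, ?_⟩
  · rintro ⟨rfl, rfl, rfl⟩
    apply h0
    rw [gg_zero, Matrix.mul_zero, Matrix.zero_mul, ← gg_zero] at h4
    exact gg_inj h4
  · have h5 := congrArg Matrix.det h3
    rw [Matrix.det_mul, Matrix.det_mul, gg_det, gg_det, h1] at h5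
    have h6 : 9 * (y' ^ 2 + x' * z') ^ 2 = 0 := by
      rw [← h5]; ring
    have h7 : (y' ^ 2 + x' * z') ^ 2 = 0 := by linear_combination (1 / 9 : ℂ) * h6
    exact pow_eq_zero_iff (two_ne_zero) |>.mp h7
  · rw [← h3, ← Matrix.mulVec_mulVec, ← Matrix.mulVec_mulVec]
    have h8 : T.mulVec (C.mulVec fun i => (v i : ℂ)) = (T * C).mulVec fun i => (v i : ℂ) :=
      Matrix.mulVec_mulVec _ _ _
    rw [h8, h2, Matrix.mulVec_zero]

end Pool.Agent.KT.Alg
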