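import Pool.Agent.KT.Alg.Sl

/-!
# KT, algebra part: the third symmetric power does not occur at a generic surface
-/

set_option autoImplicit false

namespace Pool.Agent.KT.Alg

open Module NumberField LieAlgebra
open Pool.Agent.Helper7 Pool.Agent.GPC

attribute [local instance 100] LieRing.ofAssociativeRing

open Pool.Agent.Helper8 (IsPl NoPair KerLe Symp Principal Irr)

private theorem No_period_zero (A : AbVar) : A.period 0 = 0 := by
  funext s
  rcases s with a | a
  · rfl
  · show A.eta 0 a = 0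
    unfold AbVar.eta hermForm bilForm
    simp

/-- the vector of coordinates of a combination of Betti basis vectors -/
private theorem No_mulVec {κ ι : Type} [Fintype κ] (e₂ : Fin 4 ≃ κ) (bB : ι → κ → ℂ)
    (e₁ : Fin 4 → ι) (C D : Matrix (Fin 4) (Fin 4) ℂ)
    (h : ∀ j, D.mulVec (fun s => bB (e₁ j) (e₂ s)) = C.mulVec (Pi.single j 1))
    (v : Fin 4 → ℂ) :
    D.mulVec (fun s => (∑ j, v j • bB (e₁ j)) (e₂ s)) = C.mulVec v := by
  have h1 : (fun s => (∑ j, v j • bB (e₁ j)) (e₂ s)) = ∑ j, v j • (fun s => bB (e₁ j) (e₂ s)) := by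
    funext s
    simp only [Finset.sum_apply, Pi.smul_apply]
  have h2 : v = ∑ j, v j • (Pi.single j 1 : Fin 4 → ℂ) := by
    funext s
    simp [Finset.sum_apply, Pi.single_apply]
  rw [h1, Matrix.mulVec_sum]
  conv_rhs => rw [h2, Matrix.mulVec_sum]
  refine Finset.sum_congr rfl fun j _ => ?_
  rw [Matrix.mulVec_smul, Matrix.mulVec_smul, h]

theorem thm_No (h1 : St_Mat) (h2 : St_Nil) (h3 : St_Cub) : St_No := by
  intro hKT I _ _ A n K _ _ F k α i σ p hα hgen hleft hfin hthree
  have hcard : Fintype.card (Fin (A i).g ⊕ Fin (A i).g) = 4 := by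
    rw [Fintype.card_sum, Fintype.card_fin, hgen.1]
  have hB : ∀ v : Fin (2 * k) → HW (fun i => Fin (A i).g ⊕ Fin (A i).g) n,
      (∀ r, IsRatP n (fun i => pData (A i)) (v r)) →
      ∃ q : ℚ, (toM' n α) v = (2 * Real.pi * Complex.I) ^ k * q := by
    intro v hv
    apply hα.2
    intro r i m
    exact (mem_pData_Q _ _).mp (hv r i m)
  obtain ⟨e₁, e₂, C, D, hC, hD, hCD⟩ := h1 I n (fun i => Fin (A i).g ⊕ Fin (A i).g)
    (2 * Real.pi * Complex.I) (fun i => pData (A i)) K F k (toM' n α) i σ p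
    Complex.two_pi_I_ne_zero hB hα.1 hleft hfin hcard hthree
  obtain ⟨v, a, b, c, hv, habc, hq, hker⟩ := h2 C hC
  -- the Betti vector
  have hmem : (∑ j, (v j : ℂ) • (pData (A i)).bB (e₁ j)) ∈ (pData (A i)).Q := by
    refine Submodule.sum_mem _ fun j _ => ?_
    have h4 : ((v j : ℂ) • (pData (A i)).bB (e₁ j)) = (v j : ℚ) • (pData (A i)).bB (e₁ j) := by
      funext s
      simp [Pi.smul_apply, Rat.smul_def]
    rw [h4]
    exact Submodule.smul_mem _ _ ((pData (A i)).basis_mem _)
  obtain ⟨N, hN, l, hl, hNl⟩ := (mem_pData_Q _ _).mp hmem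
  have hne : (∑ j, (v j : ℂ) • (pData (A i)).bB (e₁ j)) ≠ 0 := by
    intro h0
    apply hv
    have hli : LinearIndependent ℂ (fun j => (pData (A i)).bB (e₁ j)) :=
      (pData (A i)).bB.linearIndependent.comp _ e₁.injective
    have h5 := Fintype.linearIndependent_iff.mp hli (fun j => (v j : ℂ)) h0
    funext j
    exact_mod_cast h5 j
  have hl0 : l ≠ 0 := by
    rintro rfl
    rw [No_period_zero, smul_eq_zero] at hNl
    rcases hNl with h | h
    · exact hN (by exact_mod_cast h)
    · exact hne h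
  have hker' := hker
  rw [← No_mulVec e₂ (fun q => (pData (A i)).bB q) e₁ C D hCD (fun j => (v j : ℂ))] at hker'
  obtain ⟨x, c', pp, hpp, hu⟩ := h3 D hD _ a b c habc hq hker'
  refine hKT (A i) hgen l hl hl0 x (N * c') (fun s => pp (e₂.symm s)) (fun s m => hpp _ m) ?_
  intro s
  rw [← hNl, Pi.smul_apply, smul_eq_mul]
  have h6 := hu (e₂.symm s)
  simp only [Equiv.apply_symm_apply] at h6
  rw [h6]
  ring

end Pool.Agent.KT.Alg
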