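import Pool.Agent.KT.Alg.Dich
import Pool.Agent.KT.Alg.Simp
import Pool.Agent.KT.Alg.Full
import Pool.Agent.KT.Alg.DichL
import Pool.Agent.KT.Alg.AlgS
import Pool.Agent.KT.Alg.Nil
import Pool.Agent.KT.Alg.Cub
import Pool.Agent.KT.Alg.Gen
import Pool.Agent.KT.Alg.Mat
import Pool.Agent.KT.Alg.No
import Pool.Agent.KT.Alg.Act
import Pool.Agent.KT.Alg.Main

/-!
# KT, algebra part: assembly
-/

set_option autoImplicit false

namespace Pool.Agent.KT.Alg

theorem Full_ : St_Full := thm_Full thm_Simp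

theorem DichL_ : St_DichL := thm_DichL thm_Dich

theorem Mat_ : St_Mat := thm_Mat thm_AlgS

theorem No_ : St_No := thm_No Mat_ thm_Nil thm_Cub

theorem Act_ : St_Act := thm_Act No_ DichL_ Full_

end Pool.Agent.KT.Alg
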