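import Pool.Agent.KT.Alg.Defs
import Pool.Agent.Helper7.HU.Setup
import Pool.Agent.Helper7.L8
import Pool.Agent.Helper8.D.Types
import Pool.Agent.Helper8.T1.GoodDefs

/-!
# KT, algebra part: frozen statements
-/

set_option autoImplicit false

namespace Pool.Agent.KT.Alg

open Module NumberField LieAlgebra
open Pool.Agent.Helper7 Pool.Agent.Helper7.HU Pool.Agent.GPC

attribute [local instance 100] LieRing.ofAssociativeRing

open Pool.Agent.Helper8 (IsPl NoPair KerLe Symp Principal Irr)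
open Pool.Agent.Helper84.Iso (EE FF HH IsSp)

/-- the theorem on periods of generic surfaces (from the analysis) -/
def St_KT : Prop := ∀ A : AbVar, A.IsGenericSurface → ∀ l ∈ A.Λ, l ≠ 0 → ∀ (x c : ℂ)
  (p : Fin A.g ⊕ Fin A.g → Polynomial ℂ), (∀ s m, IsAlgebraic ℚ ((p s).coeff m)) →
  ¬ ∀ s, A.period l s = c * (p s).eval x

/-! ## Linear algebra -/

/-- [Sl] identities in the image of `sl_2` -/
def St_Sl : Prop :=
  (∀ a b c a' b' c' : ℂ, gg a b c * gg a' b' c' - gg a' b' c' * gg a b c =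
    gg (2 * (b * a' - a * b')) (a * c' - c * a') (2 * (c * b' - b * c'))) ∧
  (∀ a b c a' b' c' : ℂ, (gg a b c * gg a' b' c').trace = 20 * b * b' + 10 * (a * c' + c * a')) ∧
  (∀ a b c : ℂ, (gg a b c).trace = 0) ∧ (∀ a b c : ℂ, (gg a b c * gg a b c * gg a b c).trace = 0) ∧
  (∀ a b c : ℂ, (gg a b c * gg a b c - (b ^ 2 + a * c) • 1) *
    (gg a b c * gg a b c - (9 * (b ^ 2 + a * c)) • 1) = 0) ∧
  (∀ a b c : ℂ, (gg a b c).det = 9 * (b ^ 2 + a * c) ^ 2) ∧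
  (∀ a b c a' b' c' : ℂ, gg a b c = gg a' b' c' → a = a' ∧ b = b' ∧ c = c')

/-- [Dich] subalgebras of `sp_4` containing the principal `sl_2` -/
def St_Dich : Prop := ∀ 𝔪 : Submodule ℂ (Matrix (Fin 4) (Fin 4) ℂ), (∀ M ∈ 𝔪, IsSp M) →
  EE ∈ 𝔪 → HH ∈ 𝔪 → FF ∈ 𝔪 → (∀ M ∈ 𝔪, ∀ N ∈ 𝔪, M * N - N * M ∈ 𝔪) →
  (∀ M ∈ 𝔪, ∃ a b c : ℂ, M = gg a b c) ∨ ∀ M, IsSp M → M ∈ 𝔪

/-- [Simp] the symplectic Lie algebra is simple -/
def St_Simp : Prop := ∀ (L V : Type) [LieRing L] [LieAlgebra ℂ L] [AddCommGroup V] [Module ℂ V]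
  [LieRingModule L V] [LieModule ℂ L V] [FiniteDimensional ℂ V] (ω : V →ₗ[ℂ] V →ₗ[ℂ] ℂ)
  (N : LieIdeal ℂ L), Symp L ω →
  (∀ Y : Module.End ℂ V, (∀ u v, ω (Y u) v + ω u (Y v) = 0) → ∃ x : L, ∀ v, ⁅x, v⁆ = Y v) →
  (∃ x ∈ N, ∃ v : V, ⁅x, v⁆ ≠ 0) →
  ∀ Y : Module.End ℂ V, (∀ u v, ω (Y u) v + ω u (Y v) = 0) → ∃ x ∈ N, ∀ v, ⁅x, v⁆ = Y v

/-- the image of `sl_2` is defined, in the coordinates given by `C`, by matrices satisfying `R` -/
def Sp3 (R : Matrix (Fin 4) (Fin 4) ℂ → Prop) (C : Matrix (Fin 4) (Fin 4) ℂ) : Prop :=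
  C.det ≠ 0 ∧ ∀ a b c : ℂ, C⁻¹ * gg a b c * C ∈
    Submodule.span ℂ {Y | R Y ∧ ∃ a b c : ℂ, C * Y * C⁻¹ = gg a b c}

/-- [Nil] a rational form of `sl_2` acting on a rational form of the third symmetric power contains
a nilpotent element -/
def St_Nil : Prop := ∀ C : Matrix (Fin 4) (Fin 4) ℂ, Sp3 IsQ C →
  ∃ (v : Fin 4 → ℚ) (a b c : ℂ), v ≠ 0 ∧ ¬ (a = 0 ∧ b = 0 ∧ c = 0) ∧ b ^ 2 + a * c = 0 ∧
    (gg a b c).mulVec (C.mulVec fun i => (v i : ℂ)) = 0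

/-- [Cub] kernels of nilpotent elements in algebraic coordinates -/
def St_Cub : Prop := ∀ D : Matrix (Fin 4) (Fin 4) ℂ, Sp3 IsAl D →
  ∀ (u : Fin 4 → ℂ) (a b c : ℂ), ¬ (a = 0 ∧ b = 0 ∧ c = 0) → b ^ 2 + a * c = 0 →
    (gg a b c).mulVec (D.mulVec u) = 0 →
    ∃ (x c' : ℂ) (p : Fin 4 → Polynomial ℂ), (∀ s m, IsAlgebraic ℚ ((p s).coeff m)) ∧
      ∀ s, u s = c' * (p s).eval x

/-- [Gen] generic surfaces are of relative dimension two over `ℚ` -/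
def St_Gen : Prop := ∀ B : AbVar, B.IsGenericSurface → IsRelTwoType B ℚ

/-! ## The Lie algebra of symmetries -/

/-- [AlgS] symmetries are combinations of symmetries with algebraic entries -/
def St_AlgS : Prop := ∀ (I : Type) [Fintype I] [DecidableEq I] (n : I → ℕ) (κ : I → Type)
  [∀ i, Fintype (κ i)] [∀ i, DecidableEq (κ i)] (ϖ : ℂ) (P : ∀ i, PData (κ i) ϖ) (k : ℕ)
  (α : MultilinearMap ℂ (fun _ : Fin (2 * k) => HW κ n) ℂ),
  (∀ v : Fin (2 * k) → HW κ n, (∀ r i m j, IsAlgebraic ℚ (v r i m j)) → IsAlgebraic ℚ (α v)) →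
  ∀ X, IsInv n P α X → X ∈ Submodule.span ℂ {Y | IsInv n P α Y ∧ IsAlgl Y}

/-- [Full] -/
def St_Full : Prop := ∀ (I : Type) [Fintype I] [DecidableEq I] (n : I → ℕ) (κ : I → Type)
  [∀ i, Fintype (κ i)] [∀ i, DecidableEq (κ i)] (ϖ : ℂ) (P : ∀ i, PData (κ i) ϖ)
  (K : I → Type) [∀ i, Field (K i)] [∀ i, NumberField (K i)] (F : ∀ i, FS (P i) (K i)) (k : ℕ)
  (α : MultilinearMap ℂ (fun _ : Fin (2 * k) => HW κ n) ℂ) (s : Emb K),
  Principal (LL n P F α) → Irr n P F α → IsPl n P F α s 4 →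
  (∀ i, (F i).isLeft → (F i).rk = 2 ∨ (F i).rk = 4) →
  (∀ t : Emb K, t ≠ s → n t.1 ≠ 0 → IsPl n P F α t 4 → NoPair n P F α s t) →
  Surj n P F α s → Full n P F α s

/-- [DichL] the dichotomy at a place of dimension four -/
def St_DichL : Prop := ∀ (I : Type) [Fintype I] [DecidableEq I] (n : I → ℕ) (κ : I → Type)
  [∀ i, Fintype (κ i)] [∀ i, DecidableEq (κ i)] (ϖ : ℂ) (P : ∀ i, PData (κ i) ϖ)
  (K : I → Type) [∀ i, Field (K i)] [∀ i, NumberField (K i)] (F : ∀ i, FS (P i) (K i)) (k : ℕ)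
  (α : MultilinearMap ℂ (fun _ : Fin (2 * k) => HW κ n) ℂ) (s : Emb K)
  (p : Principal (LL n P F α)), Irr n P F α → IsPl n P F α s 4 →
  Three n P F α p.e p.h p.f s ∨ Surj n P F α s

/-- [Lab] the action of the Hodge element at a label -/
def St_Lab : Prop := ∀ (I : Type) [Fintype I] [DecidableEq I] (n : I → ℕ) (κ : I → Type)
  [∀ i, Fintype (κ i)] [∀ i, DecidableEq (κ i)] (ϖ : ℂ) (P : ∀ i, PData (κ i) ϖ)
  (K : I → Type) [∀ i, Field (K i)] [∀ i, NumberField (K i)] (F : ∀ i, FS (P i) (K i)) (k : ℕ)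
  (α : (HW κ n) [⋀^Fin (2 * k)]→ₗ[ℂ] ℂ) (a : Fin (2 * k) → At n K) (G : Emb K → Prop), ϖ ≠ 0 →
  (∀ v : Fin (2 * k) → HW κ n, (∀ r, IsRatP n P (v r)) → ∃ q : ℚ, α v = ϖ ^ k * q) →
  (∀ v : Fin (2 * k) → HW κ n, (∀ r i m j, IsAlgebraic ℚ (v r i m j)) → IsAlgebraic ℚ (α v)) →
  IsKilling ℂ (LL n P F (toM' n α)) → Principal (LL n P F (toM' n α)) →
  (∀ i, (F i).isLeft → (F i).rk = 2 ∨ (F i).rk = 4) →
  (∀ a b : At n K, pl n a ≠ pl n b → IsPl n P F (toM' n α) (pl n a) 4 →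
    IsPl n P F (toM' n α) (pl n b) 4 → NoPair n P F (toM' n α) (pl n a) (pl n b)) →
  (∀ s, G s → IsPl n P F (toM' n α) s 4 ∧ Full n P F (toM' n α) s) →
  (∀ b : At n K, IsPl n P F (toM' n α) (pl n b) 4 → ¬ G (pl n b) →
    CondB n P F (toM' n α) b) →
  ∀ (H : GG κ), IsMT P H → ∀ v w : Fin (2 * k) → HW κ n,
  w = (fun r => EE n P F (a r) (v r)) →
  ∑ r, α (Function.update w r (lift n H.1 (w r))) = (∑ r, chiC P F (pl n (a r)) H) * α w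

/-- [Mat] matrices of the symmetries at a place with field `ℚ` -/
def St_Mat : Prop := ∀ (I : Type) [Fintype I] [DecidableEq I] (n : I → ℕ) (κ : I → Type)
  [∀ i, Fintype (κ i)] [∀ i, DecidableEq (κ i)] (ϖ : ℂ) (P : ∀ i, PData (κ i) ϖ)
  (K : I → Type) [∀ i, Field (K i)] [∀ i, NumberField (K i)] (F : ∀ i, FS (P i) (K i)) (k : ℕ)
  (α : MultilinearMap ℂ (fun _ : Fin (2 * k) => HW κ n) ℂ) (i : I) (σ : K i →+* ℂ)
  (p : Principal (LL n P F α)), ϖ ≠ 0 →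
  (∀ v : Fin (2 * k) → HW κ n, (∀ r, IsRatP n P (v r)) → ∃ q : ℚ, α v = ϖ ^ k * q) →
  (∀ v : Fin (2 * k) → HW κ n, (∀ r i m j, IsAlgebraic ℚ (v r i m j)) → IsAlgebraic ℚ (α v)) →
  (F i).isLeft → finrank ℚ (K i) = 1 → Fintype.card (κ i) = 4 →
  Three n P F α p.e p.h p.f ⟨i, σ⟩ →
  ∃ (e₁ : Fin 4 ≃ (P i).ι) (e₂ : Fin 4 ≃ κ i) (C D : Matrix (Fin 4) (Fin 4) ℂ),
    Sp3 IsQ C ∧ Sp3 IsAl D ∧
    ∀ j, D.mulVec (fun s => (P i).bB (e₁ j) (e₂ s)) = C.mulVec (Pi.single j 1)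

/-- [No] the third symmetric power does not occur -/
def St_No : Prop := St_KT → ∀ (I : Type) [Fintype I] [DecidableEq I] (A : I → AbVar) (n : I → ℕ)
  (K : I → Type) [∀ i, Field (K i)] [∀ i, NumberField (K i)]
  (F : ∀ i, FS (pData (A i)) (K i)) (k : ℕ) (α : Form A n (2 * k)) (i : I) (σ : K i →+* ℂ)
  (p : Principal (LL n (fun i => pData (A i)) F (toM' n α))), IsGrothendieck A n k α →
  (A i).IsGenericSurface → (F i).isLeft → finrank ℚ (K i) = 1 →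
  ¬ Three n (fun i => pData (A i)) F (toM' n α) p.e p.h p.f ⟨i, σ⟩

/-- the action of operators compatible with all de Rham-Betti morphisms at the labels -/
def ActLab {I : Type} [Fintype I] [DecidableEq I] (A : I → AbVar) (n : I → ℕ) (K : I → Type)
    [∀ i, Field (K i)] [∀ i, NumberField (K i)] (F : ∀ i, FS (pData (A i)) (K i)) (k : ℕ)
    (α : Form A n (2 * k)) : Prop :=
  ∀ (H : GG (fun i => Fin (A i).g ⊕ Fin (A i).g)), IsMT (fun i => pData (A i)) H →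
    ∀ (b : Fin (2 * k) → At n K) (v w : Fin (2 * k) → HW (fun i => Fin (A i).g ⊕ Fin (A i).g) n),
    w = (fun r => EE n (fun i => pData (A i)) F (b r) (v r)) →
    ∑ r, α (Function.update w r (lift n H.1 (w r))) =
      (∑ r, chiC (fun i => pData (A i)) F (pl n (b r)) H) * α w

/-- [Act] -/
def St_Act : Prop := St_KT → ∀ (I : Type) [Fintype I] [DecidableEq I] (A : I → AbVar) (n : I → ℕ)
  (K : I → Type) [∀ i, Field (K i)] [∀ i, NumberField (K i)] (S U G : Finset I),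
  (∀ i ∈ S, IsRMType (A i) (K i)) → (∀ i ∈ U, IsRelTwoType (A i) (K i)) → CondG A n K S U G →
  ∀ (F : ∀ i, FS (pData (A i)) (K i)), IsSys A K S U F → ∀ (k : ℕ) (α : Form A n (2 * k)),
  IsGrothendieck A n k α → ActLab A n K F k α

/-- [T1] the case of classes in the step of the Hodge filtration before the middle -/
def St_T1 : Prop := ∀ (I : Type) [Fintype I] [DecidableEq I] (A : I → AbVar) (n : I → ℕ)
  (K : I → Type) [∀ i, Field (K i)] [∀ i, NumberField (K i)] (S U T : Finset I),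
  (∀ i, i ∈ S ∨ i ∈ U ∨ i ∈ T) → (∀ i ∈ S, IsRMType (A i) (K i)) →
  (∀ i ∈ U, IsRelTwoType (A i) (K i)) → (∀ i ∈ T, IsCMType (A i) (K i)) →
  ∀ (k : ℕ) (α : Form A n (2 * k)),
  (∀ F : ∀ i, FS (pData (A i)) (K i), IsSys A K S U F → ActLab A n K F k α) →
  IsGrothendieck A n k α →
  (∀ v : Fin (2 * k) → HW (fun i => Fin (A i).g ⊕ Fin (A i).g) n,
    (∃ s : Finset (Fin (2 * k)), k + 1 < s.card ∧ ∀ r ∈ s, ∀ i m, (A i).IsFil (v r i m)) →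
      α v = 0) → IsHodge A n k α

/-- [T2] the case of good CM fields -/
def St_T2 : Prop := ∀ (I : Type) [Fintype I] [DecidableEq I] (A : I → AbVar) (n : I → ℕ)
  (K : I → Type) [∀ i, Field (K i)] [∀ i, NumberField (K i)] (S U T : Finset I),
  (∀ i, i ∈ S ∨ i ∈ U ∨ i ∈ T) → (∀ i ∈ S, IsRMType (A i) (K i)) →
  (∀ i ∈ U, IsRelTwoType (A i) (K i)) → (∀ i ∈ T, IsCMType (A i) (K i)) →
  ∀ (k : ℕ) (α : Form A n (2 * k)),
  (∀ F : ∀ i, FS (pData (A i)) (K i), IsSys A K S U F → ActLab A n K F k α) →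
  IsGrothendieck A n k α → (∀ i ∈ T, IsGoodCM (K i)) →
  (∀ i ∈ T, ∀ j ∈ T, i ≠ j → ¬ IsAbelianGalois ℚ (K i) → ¬ IsAbelianGalois ℚ (K j) →
      IntermediateField.normalClosure ℚ (K i) ℂ ≠ IntermediateField.normalClosure ℚ (K j) ℂ) →
  IsHodge A n k α

end Pool.Agent.KT.Alg
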