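import Pool.Agent.Helper8.H.BigData
import Pool.Agent.Helper8.H.Types

/-!
# KT, algebra part: definitions
-/

set_option autoImplicit false

namespace Pool.Agent.GPC

/-- `B` is a surface and all endomorphisms of the rational Hodge structure `H_1(B, ℚ)` are scalar -/
def AbVar.IsGenericSurface (B : AbVar) : Prop :=
  B.g = 2 ∧ ∀ f : B.H1 → B.H1, IsLinearMap ℂ f → (∀ v, B.IsBetti v → B.IsBetti (f v)) →
    (∀ v, B.IsFil v → B.IsFil (f v)) → ∃ c : ℂ, ∀ v, f v = c • v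

end Pool.Agent.GPC

namespace Pool.Agent.KT.Alg

open Module NumberField LieAlgebra
open Pool.Agent.Helper7 Pool.Agent.GPC

attribute [local instance 100] LieRing.ofAssociativeRing

open Pool.Agent.Helper8 (IsPl NoPair KerLe)
open Pool.Agent.Helper84.Iso (EE FF HH)

/-- the image of `sl_2` in the third symmetric power -/
def gg (a b c : ℂ) : Matrix (Fin 4) (Fin 4) ℂ :=
  a • EE + b • HH + c • FF

/-- rational matrices -/
def IsQ (Y : Matrix (Fin 4) (Fin 4) ℂ) : Prop := ∀ i j, ∃ q : ℚ, Y i j = q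

/-- matrices with algebraic entries -/
def IsAl (Y : Matrix (Fin 4) (Fin 4) ℂ) : Prop := ∀ i j, IsAlgebraic ℚ (Y i j)

section family

variable {I : Type} [Fintype I] [DecidableEq I] (n : I → ℕ)
  {κ : I → Type} [∀ i, Fintype (κ i)] [∀ i, DecidableEq (κ i)] {ϖ : ℂ}
  (P : ∀ i, PData (κ i) ϖ)
  {K : I → Type} [∀ i, Field (K i)] [∀ i, NumberField (K i)]
  (F : ∀ i, FS (P i) (K i))
  {k : ℕ} (α : MultilinearMap ℂ (fun _ : Fin (2 * k) => HW κ n) ℂ)

/-- every operator in the symplectic algebra of the place `s` is given by an element of the Lie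
algebra which acts trivially at all other places -/
def Full (s : Emb K) : Prop :=
  ∀ Y : Module.End ℂ (Vs n P F α s),
    (∀ u v, omV n P F α s (Y u) v + omV n P F α s u (Y v) = 0) →
    ∃ x : LL n P F α, (∀ v : Vs n P F α s, ⁅x, v⁆ = Y v) ∧
      ∀ t : Emb K, t ≠ s → n t.1 ≠ 0 → (F t.1).isLeft → ∀ v : Vs n P F α t, ⁅x, v⁆ = 0

/-- the Lie algebra acts through the whole symplectic algebra at the place `s` -/
def Surj (s : Emb K) : Prop :=
  ∀ Y : Module.End ℂ (Vs n P F α s),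
    (∀ u v, omV n P F α s (Y u) v + omV n P F α s u (Y v) = 0) →
    ∃ x : LL n P F α, ∀ v : Vs n P F α s, ⁅x, v⁆ = Y v

/-- the Lie algebra acts through three elements at the place `s` -/
def Three (e h f : LL n P F α) (s : Emb K) : Prop :=
  ∀ x : LL n P F α, ∃ a b c : ℂ, ∀ v : Vs n P F α s,
    ⁅x, v⁆ = a • ⁅e, v⁆ + b • ⁅h, v⁆ + c • ⁅f, v⁆

/-- elements with algebraic entries -/
def IsAlgl (X : GG κ) : Prop :=
  (∀ i (v : κ i → ℂ), (∀ j, IsAlgebraic ℚ (v j)) → ∀ j, IsAlgebraic ℚ (X.1 i v j)) ∧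
    IsAlgebraic ℚ X.2

/-- the conditions on a place `pl n b` of dimension four used in the theorem on factors of relative
dimension two -/
def CondB (b : At n K) : Prop :=
  (n b.1 ≤ 1 ∧ ∀ S : Finset (At n K), (∀ a ∈ S, IsPl n P F α (pl n a) 2 ∧
    KerLe n P F α (pl n b) (pl n a)) → S.card ≤ 2) ∨
  (n b.1 ≤ 2 ∧ ∀ a : At n K, IsPl n P F α (pl n a) 2 → ¬ KerLe n P F α (pl n b) (pl n a))

end family

section cond

variable {I : Type} (A : I → AbVar) (n : I → ℕ) (K : I → Type) [∀ i, Field (K i)]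
  [∀ i, NumberField (K i)]

/-- the conditions on the factors, `i ∈ S` (relative dimension one), `i ∈ U` (relative dimension
two), `i ∈ G ⊆ U` (generic surfaces) -/
structure CondG (S U G : Finset I) : Prop where
  hom_zero : ∀ i j, (i ∈ S ∨ i ∈ U) → (j ∈ S ∨ j ∈ U) → n i ≠ 0 → n j ≠ 0 → i ≠ j →
    ∀ f, (A i).IsMor (A j) f → ∀ v, f v = 0
  sub : G ⊆ U
  gen : ∀ i ∈ G, (A i).IsGenericSurface
  deg : ∀ i ∈ G, finrank ℚ (K i) = 1
  mult : ∀ i ∈ U, i ∉ G → n i ≤ 2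
  link : ∀ i ∈ U, i ∉ G → ∀ j ∈ S, n i ≠ 0 → n j ≠ 0 → IsEmpty (K i →+* K j) ∨
    ((A j).EndDimLe (A j).g ∧ IsEmpty (K i ≃+* K j)) ∨
    (n i ≤ 1 ∧ ∃ d, (A j).EndDimLe d ∧ n j * d ≤ 2 * (A j).g)

end cond

end Pool.Agent.KT.Alg
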