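import Pool.Agent.KT.Alg.Sl

/-!
# KT, algebra part: [Dich] subalgebras of `sp_4` containing the principal `sl_2`
-/

set_option autoImplicit false
set_option linter.unnecessarySeqFocus false

namespace Pool.Agent.KT.Alg

open Pool.Agent.Helper84.Iso (EE FF HH IsSp mat_ext)

/-- the matrix unit of weight `6` -/
def Dich_E : Matrix (Fin 4) (Fin 4) ℂ := !![0, 0, 0, 1; 0, 0, 0, 0; 0, 0, 0, 0; 0, 0, 0, 0]

/-- highest weight vectors modulo the principal `sl_2` -/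
theorem Dich_low {X : Matrix (Fin 4) (Fin 4) ℂ} (hX : IsSp X) {a b c : ℂ}
    (h : EE * X - X * EE = gg a b c) :
    X = gg (X 0 1 / 3) (X 1 1) (X 1 0) + X 0 3 • Dich_E := by
  obtain ⟨s33, s22, s23, s32, s13, s31⟩ := hX.rel
  rw [gg_eq] at h
  have e : ∀ i j, (EE * X - X * EE) i j = (!![3 * b, 3 * a, 0, 0; c, b, 4 * a, 0;
    0, c, -b, 3 * a; 0, 0, c, -(3 * b)] : Matrix (Fin 4) (Fin 4) ℂ) i j := fun i j => by rw [h]
  simp only [Matrix.mul_apply, Fin.sum_univ_four, Matrix.sub_apply] at e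
  have e03 := e 0 3
  have e02 := e 0 2
  have e20 := e 2 0
  have e10 := e 1 0
  have e21 := e 2 1
  have e00 := e 0 0
  have e11 := e 1 1
  have e01 := e 0 1
  have e12 := e 1 2
  simp [EE, -mul_eq_mul_left_iff, -mul_eq_zero] at e03 e02 e20 e10 e21 e00 e11 e01 e12
  rw [gg_eq]
  have x02 : X 0 2 = 0 := by linear_combination (-1 / 6 : ℂ) * e03 + (1 / 2 : ℂ) * s13
  have x12 : X 1 2 = 4 * (X 0 1 / 3) := by linear_combination (1 / 3 : ℂ) * e02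
  have x30 : X 3 0 = 0 := by linear_combination (1 / 3 : ℂ) * e20
  have x20 : X 2 0 = 0 := by
    linear_combination (1 / 10 : ℂ) * e10 - (1 / 10 : ℂ) * e21 + (3 / 10 : ℂ) * s31
  have x21 : X 2 1 = X 1 0 := by
    linear_combination (-1 / 4 : ℂ) * e00 + (1 / 4 : ℂ) * e11
  have x00 : X 0 0 = 3 * X 1 1 := by
    linear_combination (-1 / 3 : ℂ) * e01 + (1 / 4 : ℂ) * e12 - s22
  refine mat_ext ?_ ?_ ?_ ?_ ?_ ?_ ?_ ?_ ?_ ?_ ?_ ?_ ?_ ?_ ?_ ?_ <;> simp [Dich_E]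
  · exact x00
  · ring
  · exact x02
  · exact x12
  · rw [s13, x02, neg_zero]
  · exact x20
  · exact x21
  · exact s22
  · rw [s23]
    ring
  · exact x30
  · rw [s31, x20, neg_zero]
  · exact s32
  · rw [s33, x00]

/-- the symplectic matrices -/
theorem Dich_all (𝔪 : Submodule ℂ (Matrix (Fin 4) (Fin 4) ℂ)) (hE : EE ∈ 𝔪) (hH : HH ∈ 𝔪)
    (hF : FF ∈ 𝔪) (hbr : ∀ M ∈ 𝔪, ∀ N ∈ 𝔪, M * N - N * M ∈ 𝔪) (h0 : Dich_E ∈ 𝔪)
    {M : Matrix (Fin 4) (Fin 4) ℂ} (hM : IsSp M) : M ∈ 𝔪 := by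
  obtain ⟨s33, s22, s23, s32, s13, s31⟩ := hM.rel
  have y1 : FF * Dich_E - Dich_E * FF = !![0, 0, -1, 0; 0, 0, 0, 1; 0, 0, 0, 0; 0, 0, 0, 0] := by
    ext i j
    rw [Matrix.sub_apply, Matrix.mul_apply, Matrix.mul_apply, Fin.sum_univ_four,
      Fin.sum_univ_four]
    fin_cases i <;> fin_cases j <;> simp [FF, Dich_E]
  have h1 := hbr _ hF _ h0
  rw [y1] at h1
  have y2 : FF * !![0, 0, -1, 0; 0, 0, 0, 1; 0, 0, 0, 0; 0, 0, 0, 0] -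
      !![0, 0, -1, 0; 0, 0, 0, 1; 0, 0, 0, 0; 0, 0, 0, 0] * FF =
      !![0, 1, 0, 0; 0, 0, -2, 0; 0, 0, 0, 1; 0, 0, 0, 0] := by
    ext i j
    rw [Matrix.sub_apply, Matrix.mul_apply, Matrix.mul_apply, Fin.sum_univ_four,
      Fin.sum_univ_four]
    fin_cases i <;> fin_cases j <;> simp [FF] <;> norm_num
  have h2 := hbr _ hF _ h1
  rw [y2] at h2
  have y3 : FF * !![0, 1, 0, 0; 0, 0, -2, 0; 0, 0, 0, 1; 0, 0, 0, 0] -
      !![0, 1, 0, 0; 0, 0, -2, 0; 0, 0, 0, 1; 0, 0, 0, 0] * FF =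
      !![-1, 0, 0, 0; 0, 3, 0, 0; 0, 0, -3, 0; 0, 0, 0, 1] := by
    ext i j
    rw [Matrix.sub_apply, Matrix.mul_apply, Matrix.mul_apply, Fin.sum_univ_four,
      Fin.sum_univ_four]
    fin_cases i <;> fin_cases j <;> simp [FF] <;> norm_num
  have h3 := hbr _ hF _ h2
  rw [y3] at h3
  have y4 : FF * !![-1, 0, 0, 0; 0, 3, 0, 0; 0, 0, -3, 0; 0, 0, 0, 1] -
      !![-1, 0, 0, 0; 0, 3, 0, 0; 0, 0, -3, 0; 0, 0, 0, 1] * FF =
      !![0, 0, 0, 0; -4, 0, 0, 0; 0, 6, 0, 0; 0, 0, -4, 0] := by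
    ext i j
    rw [Matrix.sub_apply, Matrix.mul_apply, Matrix.mul_apply, Fin.sum_univ_four,
      Fin.sum_univ_four]
    fin_cases i <;> fin_cases j <;> simp [FF] <;> norm_num
  have h4 := hbr _ hF _ h3
  rw [y4] at h4
  have y5 : FF * !![0, 0, 0, 0; -4, 0, 0, 0; 0, 6, 0, 0; 0, 0, -4, 0] -
      !![0, 0, 0, 0; -4, 0, 0, 0; 0, 6, 0, 0; 0, 0, -4, 0] * FF =
      !![0, 0, 0, 0; 0, 0, 0, 0; -10, 0, 0, 0; 0, 10, 0, 0] := by
    ext i j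
    rw [Matrix.sub_apply, Matrix.mul_apply, Matrix.mul_apply, Fin.sum_univ_four,
      Fin.sum_univ_four]
    fin_cases i <;> fin_cases j <;> simp [FF] <;> norm_num
  have h5 := hbr _ hF _ h4
  rw [y5] at h5
  have y6 : FF * !![0, 0, 0, 0; 0, 0, 0, 0; -10, 0, 0, 0; 0, 10, 0, 0] -
      !![0, 0, 0, 0; 0, 0, 0, 0; -10, 0, 0, 0; 0, 10, 0, 0] * FF =
      !![0, 0, 0, 0; 0, 0, 0, 0; 0, 0, 0, 0; -20, 0, 0, 0] := by
    ext i j
    rw [Matrix.sub_apply, Matrix.mul_apply, Matrix.mul_apply, Fin.sum_univ_four,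
      Fin.sum_univ_four]
    fin_cases i <;> fin_cases j <;> simp [FF] <;> norm_num
  have h6 := hbr _ hF _ h5
  rw [y6] at h6
  have key : M = M 0 3 • Dich_E +
      (-(M 0 2)) • !![0, 0, -1, 0; 0, 0, 0, 1; 0, 0, 0, 0; 0, 0, 0, 0] +
      ((4 * M 0 1 - 3 * M 1 2) / 10) • !![0, 1, 0, 0; 0, 0, -2, 0; 0, 0, 0, 1; 0, 0, 0, 0] +
      ((2 * M 0 1 + M 1 2) / 10) • EE +
      ((3 * M 1 1 - M 0 0) / 10) • !![-1, 0, 0, 0; 0, 3, 0, 0; 0, 0, -3, 0; 0, 0, 0, 1] +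
      ((3 * M 0 0 + M 1 1) / 10) • HH +
      ((M 2 1 - M 1 0) / 10) • !![0, 0, 0, 0; -4, 0, 0, 0; 0, 6, 0, 0; 0, 0, -4, 0] +
      ((6 * M 1 0 + 4 * M 2 1) / 10) • FF +
      (-(M 2 0) / 10) • !![0, 0, 0, 0; 0, 0, 0, 0; -10, 0, 0, 0; 0, 10, 0, 0] +
      (-(M 3 0) / 20) • !![0, 0, 0, 0; 0, 0, 0, 0; 0, 0, 0, 0; -20, 0, 0, 0] := by
    refine mat_ext ?_ ?_ ?_ ?_ ?_ ?_ ?_ ?_ ?_ ?_ ?_ ?_ ?_ ?_ ?_ ?_ <;>
      simp [Dich_E, EE, FF, HH]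
    all_goals first
      | ring1
      | linear_combination s33
      | linear_combination s22
      | linear_combination s23
      | linear_combination s32
      | linear_combination s13
      | linear_combination s31
  rw [key]
  refine 𝔪.add_mem (𝔪.add_mem (𝔪.add_mem (𝔪.add_mem (𝔪.add_mem (𝔪.add_mem (𝔪.add_mem
    (𝔪.add_mem (𝔪.add_mem ?_ ?_) ?_) ?_) ?_) ?_) ?_) ?_) ?_) ?_
  · exact 𝔪.smul_mem _ h0
  · exact 𝔪.smul_mem _ h1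
  · exact 𝔪.smul_mem _ h2
  · exact 𝔪.smul_mem _ hE
  · exact 𝔪.smul_mem _ h3
  · exact 𝔪.smul_mem _ hH
  · exact 𝔪.smul_mem _ h4
  · exact 𝔪.smul_mem _ hF
  · exact 𝔪.smul_mem _ h5
  · exact 𝔪.smul_mem _ h6

theorem thm_Dich : St_Dich := by
  intro 𝔪 hsp hE hH hF hbr
  by_cases hg : ∀ M ∈ 𝔪, ∃ a b c : ℂ, M = gg a b c
  · exact Or.inl hg
  refine Or.inr fun M hM => Dich_all 𝔪 hE hH hF hbr ?_ hM
  push Not at hg
  obtain ⟨X, hX, hXg⟩ := hg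
  -- the operator `ad EE` is nilpotent
  have hnil : IsNilpotent (LinearMap.mulLeft ℂ EE - LinearMap.mulRight ℂ EE) := by
    have h4 : EE ^ 4 = 0 := by
      have h2 : EE * EE = !![0, 0, 12, 0; 0, 0, 0, 12; 0, 0, 0, 0; 0, 0, 0, 0] := by
        ext i j
        rw [Matrix.mul_apply, Fin.sum_univ_four]
        fin_cases i <;> fin_cases j <;> simp [EE] <;> norm_num
      have h3 : EE ^ 4 = (EE * EE) * (EE * EE) := by
        simp only [pow_succ, pow_zero, one_mul, mul_assoc]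
      rw [h3, h2]
      ext i j
      rw [Matrix.mul_apply, Fin.sum_univ_four]
      fin_cases i <;> fin_cases j <;> simp
    refine Commute.isNilpotent_sub (LinearMap.commute_mulLeft_right EE EE) ?_ ?_
    · exact (LinearMap.isNilpotent_mulLeft_iff ℂ EE).2 ⟨4, h4⟩
    · exact (LinearMap.isNilpotent_mulRight_iff ℂ EE).2 ⟨4, h4⟩
  obtain ⟨n, hn⟩ := hnil
  -- the last step outside of the principal `sl_2`
  obtain ⟨Y, hY, hYg, a, b, c, hYE⟩ : ∃ Y ∈ 𝔪, (∀ a b c : ℂ, Y ≠ gg a b c) ∧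
      ∃ a b c : ℂ, EE * Y - Y * EE = gg a b c := by
    by_contra hcon
    have hstep : ∀ Y ∈ 𝔪, (∀ a b c : ℂ, Y ≠ gg a b c) →
        ∀ a b c : ℂ, EE * Y - Y * EE ≠ gg a b c := by
      intro Y hY hYg a b c hab
      exact hcon ⟨Y, hY, hYg, a, b, c, hab⟩
    have hall : ∀ k : ℕ, ((LinearMap.mulLeft ℂ EE - LinearMap.mulRight ℂ EE) ^ k) X ∈ 𝔪 ∧
        ∀ a b c : ℂ, ((LinearMap.mulLeft ℂ EE - LinearMap.mulRight ℂ EE) ^ k) X ≠
          gg a b c := by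
      intro k
      induction k with
      | zero => exact ⟨hX, hXg⟩
      | succ k ih =>
        rw [pow_succ']
        exact ⟨hbr _ hE _ ih.1, hstep _ ih.1 ih.2⟩
    refine (hall n).2 0 0 0 ?_
    rw [hn, gg_zero]
    rfl
  have h1 := Dich_low (hsp Y hY) hYE
  have hgm : ∀ a b c : ℂ, gg a b c ∈ 𝔪 := fun a b c =>
    𝔪.add_mem (𝔪.add_mem (𝔪.smul_mem _ hE) (𝔪.smul_mem _ hH)) (𝔪.smul_mem _ hF)
  have h2 : Y 0 3 • Dich_E ∈ 𝔪 := by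
    have h3 : Y 0 3 • Dich_E = Y - gg (Y 0 1 / 3) (Y 1 1) (Y 1 0) := by
      exact (sub_eq_of_eq_add' h1).symm
    rw [h3]
    exact 𝔪.sub_mem hY (hgm _ _ _)
  have h4 : Y 0 3 ≠ 0 := by
    intro h0
    rw [h0, zero_smul, add_zero] at h1
    exact hYg _ _ _ h1
  have h5 := 𝔪.smul_mem (Y 0 3)⁻¹ h2
  rw [smul_smul, inv_mul_cancel₀ h4, one_smul] at h5
  exact h5

end Pool.Agent.KT.Alg
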