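import Pool.Agent.KT.Alg.St
import Pool.Agent.KT.Alg.Peel
import Pool.Agent.Helper7.HU.Labels

/-!
# KT, algebra part: the action at a label, with places at which the symmetries are the full
symplectic algebra
-/

set_option linter.unusedSectionVars false

namespace Pool.Agent.KT.Alg

open Module NumberField LieAlgebra

attribute [local instance 100] LieRing.ofAssociativeRing

open Pool.Agent.GPC (Emb)
open Pool.Agent.Helper7 Pool.Agent.Helper7.HU
open Pool.Agent.Helper8 (Symp Principal PS SF SF0 symG invF invF_symG IsPl NoPair KerLe Irr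
  exists_big exists_fam wt4 exists_adapted4 piecewise_update)

section odd

variable {R W : Type*} [DecidableEq R] [AddCommGroup W] [Module ℂ W]

/-- functions of odd degree which are invariant under an operator with odd weights vanish -/
lemma odd_zero (T : Finset R) (Φ : (R → W) → ℂ) (D : R → W → W)
    (hs : ∀ v, ∀ r ∈ T, ∀ (c : ℂ) x, Φ (Function.update v r (c • x)) =
      c * Φ (Function.update v r x))
    (hexp : ∀ r ∈ T, ∀ w : W, ∃ (c : Fin 4 → ℂ) (y : Fin 4 → W),
      (∀ j, ∃ l : ℤ, D r (y j) = (2 * l + 1 : ℂ) • y j) ∧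
      ∀ v, Φ (Function.update v r w) = ∑ j, c j * Φ (Function.update v r (y j)))
    (hinv : ∀ v, ∑ r ∈ T, Φ (Function.update v r (D r (v r))) = 0)
    (hodd : Odd T.card) (v : R → W) : Φ v = 0 := by
  have key : ∀ s : Finset R, s ⊆ T → ∀ v : R → W,
      (∀ r ∈ T, r ∉ s → ∃ l : ℤ, D r (v r) = (2 * l + 1 : ℂ) • v r) → Φ v = 0 := by
    intro s
    induction s using Finset.induction_on with
    | empty =>
      intro _ v hv
      have h0 : ∀ r, ∃ l : ℤ, r ∈ T → D r (v r) = (2 * l + 1 : ℂ) • v r := by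
        intro r
        by_cases hr : r ∈ T
        · obtain ⟨l, hl⟩ := hv r hr (Finset.notMem_empty r)
          exact ⟨l, fun _ => hl⟩
        · exact ⟨0, fun h => absurd h hr⟩
      choose l hl using h0
      have h1 := hinv v
      have h2 : ∀ t ∈ T, Φ (Function.update v t (D t (v t))) = (2 * l t + 1 : ℂ) * Φ v := by
        intro t ht
        rw [hl t ht, hs v t ht, Function.update_eq_self]
      rw [Finset.sum_congr rfl h2, ← Finset.sum_mul] at h1
      refine (mul_eq_zero.mp h1).resolve_left ?_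
      intro h3
      rw [Finset.sum_add_distrib, ← Finset.mul_sum, Finset.sum_const, nsmul_eq_mul, mul_one] at h3
      have h4 : ((2 * ∑ t ∈ T, l t + T.card : ℤ) : ℂ) = 0 := by
        push_cast
        exact h3
      have h5 : (2 * ∑ t ∈ T, l t + T.card : ℤ) = 0 := by exact_mod_cast h4
      obtain ⟨c, hc⟩ := hodd
      omega
    | insert r s hr ih =>
      intro hst v hv
      have hrT : r ∈ T := hst (Finset.mem_insert_self r s)
      obtain ⟨c, y, h1, h2⟩ := hexp r hrT (v r)
      have h3 := h2 v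
      rw [Function.update_eq_self] at h3
      rw [h3]
      refine Finset.sum_eq_zero fun j _ => ?_
      rw [ih (fun t ht => hst (Finset.mem_insert_of_mem ht)) (Function.update v r (y j)) ?_,
        mul_zero]
      intro t ht hts
      by_cases htr : t = r
      · subst htr
        rw [Function.update_self]
        exact h1 j
      · rw [Function.update_of_ne htr]
        exact hv t ht (by rw [Finset.mem_insert, not_or]; exact ⟨htr, hts⟩)
  exact key T (Finset.Subset.refl T) v (fun r hr h => absurd hr h)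

end odd

section full

variable {I : Type} [Fintype I] [DecidableEq I] (n : I → ℕ)
  {κ : I → Type} [∀ i, Fintype (κ i)] [∀ i, DecidableEq (κ i)] {ϖ : ℂ}
  (P : ∀ i, PData (κ i) ϖ)
  {K : I → Type} [∀ i, Field (K i)] [∀ i, NumberField (K i)]
  (F : ∀ i, FS (P i) (K i))
  {k : ℕ} (α : MultilinearMap ℂ (fun _ : Fin (2 * k) => HW κ n) ℂ)

/-- simultaneous lifting at the places of a set of full places -/
lemma exists_full (hk : IsKilling ℂ (LL n P F α)) (G : Emb K → Prop)
    (hG : ∀ s, G s → Full n P F α s)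
    (Y : ∀ s : Emb K, Module.End ℂ (Vs n P F α s))
    (hY : ∀ s, G s → ∀ u v, omV n P F α s (Y s u) v + omV n P F α s u (Y s v) = 0) :
    ∃ X, IsInv n P α X ∧ X.2 = 0 ∧ (∀ s, ¬ (F s.1).isLeft → chiC P F s X = 0) ∧
      ∀ t : At n K, (F t.1).isLeft →
        (G (pl n t) → ∀ u, lift n X.1 (inS n P F α t u) = inS n P F α t (Y (pl n t) u)) ∧
        (¬ G (pl n t) → ∀ u, lift n X.1 (inS n P F α t u) = 0) := by
  classical
  have h0 : ∀ s : Emb K, ∃ x : LL n P F α, G s → (∀ v : Vs n P F α s, ⁅x, v⁆ = Y s v) ∧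
      ∀ t : Emb K, t ≠ s → n t.1 ≠ 0 → (F t.1).isLeft → ∀ v : Vs n P F α t, ⁅x, v⁆ = 0 := by
    intro s
    by_cases hs : G s
    · obtain ⟨x, h1, h2⟩ := hG s hs (Y s) (hY s hs)
      exact ⟨x, fun _ => ⟨h1, h2⟩⟩
    · exact ⟨0, fun h => absurd h hs⟩
  choose x hx using h0
  obtain ⟨ξ, hξ⟩ : ∃ ξ : LL n P F α, ξ = ∑ s : Emb K, if G s then x s else 0 := ⟨_, rfl⟩
  obtain ⟨X, hX, h1, h2, h3⟩ := perfect_lift n P F α hk ξ
  refine ⟨X, hX, h2, h3, fun t ht => ?_⟩
  have hn : n t.1 ≠ 0 := fun h => by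
    have := t.2.1.2
    omega
  have h4 : ∀ u, lift n X.1 (inS n P F α t u) = inS n P F α t ⁅ξ, u⁆ := by
    intro u
    rw [lift_in n P F α X hX t ht, ← h1, h2, zero_div, zero_smul, add_zero]
  have h5 : ∀ u : Vs n P F α (pl n t), ⁅ξ, u⁆ = if G (pl n t) then Y (pl n t) u else 0 := by
    intro u
    rw [hξ, sum_lie, Finset.sum_eq_single (pl n t)]
    · split_ifs with h
      · exact (hx _ h).1 u
      · exact zero_lie u
    · intro s _ hs
      split_ifs with h
      · exact (hx s h).2 (pl n t) (Ne.symm hs) hn ht u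
      · exact zero_lie u
    · intro h
      exact absurd (Finset.mem_univ _) h
  constructor
  · intro h u
    rw [h4, h5, if_pos h]
  · intro h u
    rw [h4, h5, if_neg h, map_zero]

/-- the difference of an operator compatible with the morphisms and half its multiplier -/
noncomputable def YH (H : GG κ) (s : Emb K) : Module.End ℂ (Vs n P F α s) :=
  actV n P F α s (H.1 s.1) - (H.2 / 2) • (1 : Module.End ℂ (Vs n P F α s))

lemma YH_apply {H : GG κ} (hH : IsMT P H) (s : Emb K) (u : Vs n P F α s) :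
    ((YH n P F α H s u : Vs n P F α s) : MM κ) s.1 =
      H.1 s.1 ((u : MM κ) s.1) - (H.2 / 2) • (u : MM κ) s.1 := by
  have h1 : ((YH n P F α H s u : Vs n P F α s) : MM κ) s.1 =
      ((actV n P F α s (H.1 s.1) u : Vs n P F α s) : MM κ) s.1 -
        (H.2 / 2) • ((u : Vs n P F α s) : MM κ) s.1 := rfl
  rw [h1, actV_apply, ← comm_proj (F s.1).ρ (H.1 s.1)
    (fun x v => hH.comm s.1 s.1 _ ((F s.1).hρ x) v), Vs_proj]

lemma YH_skew {H : GG κ} (hH : IsMT P H) (s : Emb K) (u v : Vs n P F α s) :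
    omV n P F α s (YH n P F α H s u) v + omV n P F α s u (YH n P F α H s v) = 0 := by
  rw [omV_apply, omV_apply, YH_apply n P F α hH, YH_apply n P F α hH]
  have h1 := hH.pol s.1 ((u : MM κ) s.1) ((v : MM κ) s.1)
  simp only [map_sub, map_smul, LinearMap.sub_apply, LinearMap.smul_apply, smul_eq_mul]
  linear_combination h1

lemma YH_in {H : GG κ} (hH : IsMT P H) (t : At n K) (w : HW κ n) :
    inS n P F α t (YH n P F α H (pl n t) (outS n P F α t w)) =
      lift n H.1 (Pool.Agent.Helper7.EE n P F t w) -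
        (H.2 / 2) • Pool.Agent.Helper7.EE n P F t w := by
  have h1 : inS n P F α t (YH n P F α H (pl n t) (outS n P F α t w)) =
      slotL n t.1 t.2.1 (H.1 t.1 (((outS n P F α t w : Vs n P F α (pl n t)) : MM κ) t.1) -
        (H.2 / 2) • ((outS n P F α t w : Vs n P F α (pl n t)) : MM κ) t.1) := by
    rw [inS_apply]
    congr 1
    exact YH_apply n P F α hH (pl n t) _
  rw [h1, map_sub, map_smul, EE_eq n P F α, inS_apply, lift_slot]

end full

section real

variable {I : Type} [Fintype I] [DecidableEq I] {n : I → ℕ}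
  {κ : I → Type} [∀ i, Fintype (κ i)] [∀ i, DecidableEq (κ i)] {ϖ : ℂ}
  {P : ∀ i, PData (κ i) ϖ}
  {K : I → Type} [∀ i, Field (K i)] [∀ i, NumberField (K i)]
  {F : ∀ i, FS (P i) (K i)}
  {k : ℕ} (α : MultilinearMap ℂ (fun _ : Fin (2 * k) => HW κ n) ℂ)
  (hϖ : ϖ ≠ 0)
  (hB : ∀ v : Fin (2 * k) → HW κ n, (∀ r, IsRatP n P (v r)) → ∃ q : ℚ, α v = ϖ ^ k * q)
  (hA : ∀ v : Fin (2 * k) → HW κ n, (∀ r i m j, IsAlgebraic ℚ (v r i m j)) →
      IsAlgebraic ℚ (α v))

include hϖ hB hA in
/-- slot functions all of whose labels are of real type and not in the set of full places -/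
theorem real_PS_T (hk : IsKilling ℂ (LL n P F α)) (p : Principal (LL n P F α))
    (hrk : ∀ i, (F i).isLeft → (F i).rk = 2 ∨ (F i).rk = 4)
    (hN : ∀ a b : At n K, pl n a ≠ pl n b → IsPl n P F α (pl n a) 4 →
      IsPl n P F α (pl n b) 4 → NoPair n P F α (pl n a) (pl n b))
    (G : Emb K → Prop)
    (hA' : ∀ b : At n K, IsPl n P F α (pl n b) 4 → ¬ G (pl n b) → CondB n P F α b)
    {R : Type*} [DecidableEq R] (q : R → At n K) (hq : ∀ r, (F (q r).1).isLeft)
    (T : Finset R) (Φ : (R → HW κ n) → ℂ) (hev : Even T.card)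
    (hT : ∀ r ∈ T, ¬ G (pl n (q r)))
    (hΦ : SF (symG n P α) (Pool.Agent.Helper7.EE n P F) q T Φ) : Φ ∈ PS (invB n P α) T := by
  classical
  have hirr : Irr n P F α := fun s hs hn => Vs_irr n P F α hϖ hB hA s hs hn
  have hdim : ∀ s : Emb K, (F s.1).isLeft → Nontrivial (Vs n P F α s) →
      IsPl n P F α s 2 ∨ IsPl n P F α s 4 := by
    intro s hs _
    rcases hrk s.1 hs with h | h
    · exact Or.inl ⟨hs, by rw [Pool.Agent.Helper8.finrank_Vs s hs, h]⟩
    · exact Or.inr ⟨hs, by rw [Pool.Agent.Helper8.finrank_Vs s hs, h]⟩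
  rw [← invF_symG]
  refine peel_all2_T (fun b => IsPl n P F α (pl n b) 4 ∧ ¬ G (pl n b))
    (fun T => ∀ r ∈ T, ¬ G (pl n (q r))) (fun T T' hs h r hr => h r (hs hr)) (fun b hb => ?_)
    (fun T Φ hev hΦ h0 hT => ?_) T Φ hev hΦ hT
  · rcases hA' b hb.1 hb.2 with ⟨h2, h3⟩ | ⟨h2, h3⟩
    · left
      exact exists_big hk hirr p hdim b hb.1 h2 (fun s hs h4 => hN _ _ (Ne.symm hs) hb.1 h4) h3
    · right
      obtain ⟨i, m, σ⟩ := b
      obtain ⟨D, h4, h5, h6⟩ := exists_fam hk hirr p hdim i σ m hb.1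
        (fun s hs h4 => hN _ _ (Ne.symm hs) hb.1 h4) h3
      exact ⟨D, h4 m, h5.trans h2, h6⟩
  · rw [invF_symG]
    refine real_fft n P F α (fun i => (F i).isLeft ∧ (F i).rk = 2) hϖ hB hA hk p
      (fun s hs hl => by rw [Pool.Agent.Helper8.finrank_Vs s hl, hs.2]) (fun i hi => hi.1) hev hΦ (fun r hr => ?_)
    refine ⟨hq r, ?_⟩
    rcases hrk _ (hq r) with h | h
    · exact h
    · exact absurd ⟨⟨hq r, by rw [Pool.Agent.Helper8.finrank_Vs (pl n (q r)) (hq r)]; exact h⟩, h0 r hr⟩ (hT r hr)

end real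

section family

variable {I : Type} [Fintype I] [DecidableEq I] (n : I → ℕ)
  {κ : I → Type} [∀ i, Fintype (κ i)] [∀ i, DecidableEq (κ i)] {ϖ : ℂ}
  (P : ∀ i, PData (κ i) ϖ)
  {K : I → Type} [∀ i, Field (K i)] [∀ i, NumberField (K i)]
  (F : ∀ i, FS (P i) (K i))
  {k : ℕ} (α : (HW κ n) [⋀^Fin (2 * k)]→ₗ[ℂ] ℂ)
  (a : Fin (2 * k) → At n K) {m : ℕ} (x : Fin m → Fin (2 * k))
  (hx : Function.Injective x)
  (G : Emb K → Prop) [DecidablePred G]

/-- the slots at the places of a set -/
def SG : Finset (Fin m) := Finset.univ.filter fun j => G (pl n (a (x j)))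

lemma mem_SG (j : Fin m) : j ∈ SG n a x G ↔ G (pl n (a (x j))) := by
  unfold SG
  rw [Finset.mem_filter]
  exact ⟨fun h => h.2, fun h => ⟨Finset.mem_univ j, h⟩⟩

include hx in
/-- total invariance in the slots at full places -/
lemma full_sum (hk : IsKilling ℂ (LL n P F (toM' n α)))
    (hG : ∀ s, G s → Full n P F (toM' n α) s)
    (Y : ∀ s : Emb K, Module.End ℂ (Vs n P F (toM' n α) s))
    (hY : ∀ s, G s → ∀ u v, omV n P F (toM' n α) s (Y s u) v +
      omV n P F (toM' n α) s u (Y s v) = 0)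
    (hxl : ∀ j, (F (a (x j)).1).isLeft)
    (hxc : ∀ r, (∀ j, x j ≠ r) → ¬ (F (a r).1).isLeft) (v : Fin m → HW κ n) :
    ∑ j ∈ SG n a x G, α (Function.update (wS n P F a x v) (x j)
      (inS n P F (toM' n α) (a (x j)) (Y (pl n (a (x j)))
        (outS n P F (toM' n α) (a (x j)) (v j))))) = 0 := by
  obtain ⟨X, hX, h2, h3, h4⟩ := exists_full n P F (toM' n α) hk G hG Y hY
  have hmem : ∀ j, Pool.Agent.Helper7.EE n P F (a (x j)) (v j) ∈ VR n P F := fun j =>
    EE_mem_W2 n P F _ (a (x j)) (hxl j) (v j)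
  have h1 := sum_slots n P F α a x hxc hx X hX
    (fun j => ⟨Pool.Agent.Helper7.EE n P F (a (x j)) (v j), hmem j⟩)
  have h5 : Function.extend x (fun b =>
      (((⟨Pool.Agent.Helper7.EE n P F (a (x b)) (v b), hmem b⟩ : VR n P F)) :
        HW κ n)) (fun r => evS n P F (a r)) = wS n P F a x v := rfl
  rw [h5, h2, mul_zero, zero_mul] at h1
  have h6 : ∑ r ∈ (Finset.univ.image x)ᶜ, chiC P F (pl n (a r)) X = 0 := by
    refine Finset.sum_eq_zero fun r hr => ?_
    rw [Finset.mem_compl, Finset.mem_image] at hr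
    push Not at hr
    exact h3 _ (hxc r fun j => hr j (Finset.mem_univ j))
  rw [h6, zero_mul, add_zero] at h1
  rw [← h1]
  unfold SG
  rw [Finset.sum_filter]
  refine Finset.sum_congr rfl fun j _ => ?_
  have h7 : ((⟨Pool.Agent.Helper7.EE n P F (a (x j)) (v j), hmem j⟩ : VR n P F) : HW κ n) =
      inS n P F (toM' n α) (a (x j)) (outS n P F (toM' n α) (a (x j)) (v j)) :=
    EE_eq n P F (toM' n α) _ _
  beta_reduce
  rw [h7]
  split_ifs with h
  · rw [(h4 (a (x j)) (hxl j)).1 h]
  · rw [(h4 (a (x j)) (hxl j)).2 h]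
    exact (α.map_update_zero _ _).symm

include hx in
/-- operators compatible with the morphisms act on the slots at full places by half the
multiplier -/
lemma full_MT (hk : IsKilling ℂ (LL n P F (toM' n α)))
    (hG : ∀ s, G s → Full n P F (toM' n α) s) {H : GG κ} (hH : IsMT P H)
    (hxl : ∀ j, (F (a (x j)).1).isLeft)
    (hxc : ∀ r, (∀ j, x j ≠ r) → ¬ (F (a r).1).isLeft) (v : Fin m → HW κ n) :
    ∑ j ∈ SG n a x G, α (wS n P F a x (Function.update v j (lift n H.1 (v j)))) =
      ((SG n a x G).card * (H.2 / 2)) * α (wS n P F a x v) := by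
  have h1 := full_sum n P F α a x hx G hk hG (YH n P F (toM' n α) H)
    (fun s _ u v => YH_skew n P F (toM' n α) hH s u v) hxl hxc v
  have h2 : ∀ j ∈ SG n a x G, α (Function.update (wS n P F a x v) (x j)
      (inS n P F (toM' n α) (a (x j)) (YH n P F (toM' n α) H (pl n (a (x j)))
        (outS n P F (toM' n α) (a (x j)) (v j))))) =
      α (wS n P F a x (Function.update v j (lift n H.1 (v j)))) -
        (H.2 / 2) * α (wS n P F a x v) := by
    intro j _
    rw [YH_in n P F (toM' n α) hH, wS_update n P F a x hx, EE_comm n P F H hH,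
      AlternatingMap.map_update_sub, AlternatingMap.map_update_smul, smul_eq_mul,
      ← wS_self n P F a x hx v j, Function.update_eq_self]
  rw [Finset.sum_congr rfl h2, Finset.sum_sub_distrib, Finset.sum_const, nsmul_eq_mul] at h1
  linear_combination h1

lemma isMT_isInv {α' : MultilinearMap ℂ (fun _ : Fin (2 * k) => HW κ n) ℂ} {X : GG κ}
    (hX : IsInv n P α' X) : IsMT P X := ⟨hX.comm, hX.pol⟩

include hx in
/-- the slot function of the slots of real type which are not at full places -/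
lemma sf_T (hk : IsKilling ℂ (LL n P F (toM' n α)))
    (hG : ∀ s, G s → Full n P F (toM' n α) s)
    (hxl : ∀ j, (F (a (x j)).1).isLeft)
    (hxc : ∀ r, (∀ j, x j ≠ r) → ¬ (F (a r).1).isLeft)
    (hcm : ∀ X, IsInv n P (toM' n α) X →
      2 * ∑ r ∈ (Finset.univ.image x)ᶜ, chiC P F (pl n (a r)) X =
        ((Finset.univ.image x)ᶜ : Finset (Fin (2 * k))).card * X.2) (u : Fin m → HW κ n) :
    SF (symG n P (toM' n α)) (Pool.Agent.Helper7.EE n P F) (fun j => a (x j))
      (Finset.univ \ SG n a x G) (fun v => α (wS n P F a x ((SG n a x G).piecewise u v))) := by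
  have h := sf_wS n P F α a x hx hxl hxc hcm
  have h' := h.toSF0.sub_slots (SG n a x G) u
  refine ⟨h'.dep, h'.add, h'.smul, ?_, h'.lab, h'.alt⟩
  rintro _ ⟨X, hX, rfl⟩ v
  obtain ⟨v', hv'⟩ : ∃ v', v' = (SG n a x G).piecewise u v := ⟨_, rfl⟩
  have h1 := h.inv (lift n X.1, X.2) ⟨X, hX, rfl⟩ v'
  have h2 := full_MT n P F α a x hx G hk hG (isMT_isInv n P hX) hxl hxc v'
  beta_reduce at h1
  rw [← Finset.sum_sdiff (Finset.subset_univ (SG n a x G)), h2] at h1
  have h3 : ∀ t ∈ Finset.univ \ SG n a x G,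
      α (wS n P F a x ((SG n a x G).piecewise u (Function.update v t (lift n X.1 (v t))))) =
      α (wS n P F a x (Function.update v' t (lift n X.1 (v' t)))) := by
    intro t ht
    rw [Finset.mem_sdiff] at ht
    rw [piecewise_update _ _ _ _ ht.2, hv', Finset.piecewise_eq_of_notMem _ _ _ ht.2]
  have hcard : ((Finset.univ \ SG n a x G).card : ℂ) =
      (Finset.univ : Finset (Fin m)).card - (SG n a x G).card := by
    rw [Finset.card_sdiff_of_subset (Finset.subset_univ _),
      Nat.cast_sub (Finset.card_le_card (Finset.subset_univ _))]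
  beta_reduce
  rw [Finset.sum_congr rfl h3, hcard, ← hv']
  linear_combination h1

include hx in
/-- the number of slots at full places is even -/
lemma even_SG (hk : IsKilling ℂ (LL n P F (toM' n α))) (hirr : Irr n P F (toM' n α))
    (p : Principal (LL n P F (toM' n α)))
    (hG : ∀ s, G s → IsPl n P F (toM' n α) s 4 ∧ Full n P F (toM' n α) s)
    (hxl : ∀ j, (F (a (x j)).1).isLeft)
    (hxc : ∀ r, (∀ j, x j ≠ r) → ¬ (F (a r).1).isLeft)
    (hcm : ∀ X, IsInv n P (toM' n α) X →
      2 * ∑ r ∈ (Finset.univ.image x)ᶜ, chiC P F (pl n (a r)) X =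
        ((Finset.univ.image x)ᶜ : Finset (Fin (2 * k))).card * X.2)
    (u : Fin m → HW κ n) (hu : α (wS n P F a x u) ≠ 0) : Even (SG n a x G).card := by
  by_contra hodd
  rw [Nat.not_even_iff_odd] at hodd
  have hSF := (sf_wS n P F α a x hx hxl hxc hcm).toSF0
  refine hu (odd_zero (SG n a x G) (fun v => α (wS n P F a x v))
    (fun j w => inS n P F (toM' n α) (a (x j))
      ⁅p.h, outS n P F (toM' n α) (a (x j)) w⁆)
    (fun v r _ c y => hSF.smul v r (Finset.mem_univ r) c y) (fun r hr w => ?_) (fun v => ?_)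
    hodd u)
  · rw [mem_SG] at hr
    have h4 := (hG _ hr).1
    have := hirr _ h4.1 h4.nt
    obtain ⟨A⟩ := exists_adapted4 (p := p) (omV_symp n P F (toM' n α) (pl n (a (x r))) h4.1) h4.2
    refine ⟨fun j => A.b.repr (outS n P F (toM' n α) (a (x r)) w) j,
      fun j => inS n P F (toM' n α) (a (x r)) (A.b j), fun j => ?_, fun v => ?_⟩
    · beta_reduce
      rw [outS_inS, A.h_b, map_smul]
      fin_cases j
      · exact ⟨1, by norm_num [wt4]⟩
      · exact ⟨0, by norm_num [wt4]⟩
      · exact ⟨-1, by norm_num [wt4]⟩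
      · exact ⟨-2, by norm_num [wt4]⟩
    · have h5 := hSF.lab r (Finset.mem_univ r) (Function.update v r w)
      rw [Function.update_self, Function.update_idem] at h5
      rw [← h5, EE_eq n P F (toM' n α)]
      conv_lhs => rw [← A.b.sum_repr (outS n P F (toM' n α) (a (x r)) w)]
      rw [map_sum]
      simp only [map_smul]
      exact hSF.sum v r (Finset.mem_univ r) _ _ _
  · have h1 := full_sum n P F α a x hx G hk (fun s hs => (hG s hs).2)
      (fun s => LieModule.toEnd ℂ (LL n P F (toM' n α)) (Vs n P F (toM' n α) s) p.h)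
      (fun s hs u v => by
        rw [LieModule.toEnd_apply_apply, LieModule.toEnd_apply_apply,
          (omV_symp n P F (toM' n α) s (hG s hs).1.1).inv p.h u v, neg_add_cancel]) hxl hxc v
    rw [← h1]
    refine Finset.sum_congr rfl fun j _ => ?_
    rw [wS_update n P F a x hx, EE_eq n P F (toM' n α) (a (x j)), outS_inS n P F (toM' n α) (a (x j))
      ⁅p.h, outS n P F (toM' n α) (a (x j)) (v j)⁆]
    rfl

variable (hϖ : ϖ ≠ 0)
  (hB : ∀ v : Fin (2 * k) → HW κ n, (∀ r, IsRatP n P (v r)) → ∃ q : ℚ, α v = ϖ ^ k * q)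
  (hA : ∀ v : Fin (2 * k) → HW κ n, (∀ r i m j, IsAlgebraic ℚ (v r i m j)) →
      IsAlgebraic ℚ (α v))

include hx hϖ hB hA in
/-- the action on a vector with eigenvectors in the slots of CM type -/
lemma act_wS' (hk : IsKilling ℂ (LL n P F (toM' n α))) (p : Principal (LL n P F (toM' n α)))
    (hrk : ∀ i, (F i).isLeft → (F i).rk = 2 ∨ (F i).rk = 4)
    (hN : ∀ a b : At n K, pl n a ≠ pl n b → IsPl n P F (toM' n α) (pl n a) 4 →
      IsPl n P F (toM' n α) (pl n b) 4 → NoPair n P F (toM' n α) (pl n a) (pl n b))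
    (hG : ∀ s, G s → IsPl n P F (toM' n α) s 4 ∧ Full n P F (toM' n α) s)
    (hA' : ∀ b : At n K, IsPl n P F (toM' n α) (pl n b) 4 → ¬ G (pl n b) →
      CondB n P F (toM' n α) b)
    {H : GG κ} (hH : IsMT P H) (hxl : ∀ j, (F (a (x j)).1).isLeft)
    (hxc : ∀ r, (∀ j, x j ≠ r) → ¬ (F (a r).1).isLeft) (v : Fin m → HW κ n) :
    ∑ r, α (Function.update (wS n P F a x v) r (lift n H.1 (wS n P F a x v r))) =
      (∑ r, chiC P F (pl n (a r)) H) * α (wS n P F a x v) := by
  classical
  have hout : ∀ r ∈ (Finset.univ.image x)ᶜ, ∀ j, x j ≠ r := by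
    intro r hr j hj
    rw [Finset.mem_compl, Finset.mem_image] at hr
    exact hr ⟨j, Finset.mem_univ _, hj⟩
  -- the slots of real type
  have h1 : ∑ r ∈ Finset.univ.image x,
      α (Function.update (wS n P F a x v) r (lift n H.1 (wS n P F a x v r))) =
      ∑ j, α (wS n P F a x (Function.update v j (lift n H.1 (v j)))) := by
    rw [Finset.sum_image (fun a _ c _ h => hx h)]
    refine Finset.sum_congr rfl fun j _ => ?_
    rw [wS_update n P F a x hx, wS_self n P F a x hx, EE_comm n P F H hH]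
  -- the slots of CM type
  have h2 : ∀ r ∈ (Finset.univ.image x)ᶜ,
      α (Function.update (wS n P F a x v) r (lift n H.1 (wS n P F a x v r))) =
      chiC P F (pl n (a r)) H * α (wS n P F a x v) := by
    intro r hr
    have h3 := wS_out n P F a x v r (hout r hr)
    rw [h3, lift_evS' n P F H hH (a r) (hxc r (hout r hr)), AlternatingMap.map_update_smul, ← h3,
      Function.update_eq_self, smul_eq_mul]
  have h3 : ∑ j, α (wS n P F a x (Function.update v j (lift n H.1 (v j)))) =
      (m * H.2 / 2) * α (wS n P F a x v) := by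
    by_cases h0 : ∀ u, α (wS n P F a x u) = 0
    · rw [h0, mul_zero]
      exact Finset.sum_eq_zero fun j _ => h0 _
    push Not at h0
    obtain ⟨u, hu⟩ := h0
    have hmem : ∀ (v : Fin m → HW κ n) j,
        Pool.Agent.Helper7.EE n P F (a (x j)) (v j) ∈ VR n P F := fun v j =>
      EE_mem_W2 n P F _ (a (x j)) (hxl j) (v j)
    have hres : ∀ v : Fin m → HW κ n, resA α (VR n P F) x hx (fun r => evS n P F (a r))
        (fun j => ⟨Pool.Agent.Helper7.EE n P F (a (x j)) (v j), hmem v j⟩) =
          α (wS n P F a x v) := fun v => rfl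
    have hmev : Even m := by
      by_contra hodd
      rw [Nat.not_even_iff_odd] at hodd
      have h4 := real_odd n P F (toM' n α) hϖ hB hA hk p hodd
        (resA α (VR n P F) x hx (fun r => evS n P F (a r))) (resA_inv n P F α a x hx hxc)
        (fun j => ⟨Pool.Agent.Helper7.EE n P F (a (x j)) (u j), hmem u j⟩)
      rw [hres] at h4
      exact hu h4
    have hw := fun X hX => cm_weight n P F α a x hx hk hxc
      (fun j => ⟨Pool.Agent.Helper7.EE n P F (a (x j)) (u j), hmem u j⟩)
      (by rw [hres]; exact hu) X hX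
    have hirr : Irr n P F (toM' n α) := fun s hs hn => Vs_irr n P F (toM' n α) hϖ hB hA s hs hn
    have hSev := even_SG n P F α a x hx G hk hirr p hG hxl hxc hw u hu
    have hSF := sf_T n P F α a x hx G hk (fun s hs => (hG s hs).2) hxl hxc hw v
    have hcardT : (Finset.univ \ SG n a x G).card = m - (SG n a x G).card := by
      rw [Finset.card_sdiff_of_subset (Finset.subset_univ _), Finset.card_univ, Fintype.card_fin]
    have hle : (SG n a x G).card ≤ m := by
      have := Finset.card_le_card (Finset.subset_univ (SG n a x G))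
      rwa [Finset.card_univ, Fintype.card_fin] at this
    have hTev : Even (Finset.univ \ SG n a x G).card := by
      rw [hcardT]
      exact (Nat.even_sub hle).mpr ⟨fun _ => hSev, fun _ => hmev⟩
    have hPS := real_PS_T (toM' n α) hϖ hB hA hk p hrk hN G hA' (fun j => a (x j)) hxl
      (Finset.univ \ SG n a x G) _ hTev (fun r hr => by
        rw [Finset.mem_sdiff, mem_SG] at hr
        exact hr.2) hSF
    have hPS' : (fun w => α (wS n P F a x ((SG n a x G).piecewise v w))) ∈
        PS (invF {(lift n H.1, H.2)}) (Finset.univ \ SG n a x G) := by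
      refine Submodule.span_mono (fun Φ hΦ => ?_) hPS
      exact PP_mono (fun β hβ X hX u v => by
        rw [Set.mem_singleton_iff] at hX
        subst hX
        exact invB_MT n P (toM' n α) hϖ hB hA hH β hβ u v) hΦ
    have h4 := Pool.Agent.Helper8.PS.inv hPS' (lift n H.1, H.2) rfl v
    beta_reduce at h4
    have h5 : ∀ t ∈ Finset.univ \ SG n a x G,
        α (wS n P F a x ((SG n a x G).piecewise v (Function.update v t (lift n H.1 (v t))))) =
        α (wS n P F a x (Function.update v t (lift n H.1 (v t)))) := by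
      intro t ht
      rw [Finset.mem_sdiff] at ht
      rw [piecewise_update _ _ _ _ ht.2, Finset.piecewise_same]
    rw [Finset.sum_congr rfl h5, Finset.piecewise_same, hcardT, Nat.cast_sub hle] at h4
    have h6 := full_MT n P F α a x hx G hk (fun s hs => (hG s hs).2) hH hxl hxc v
    rw [← Finset.sum_sdiff (Finset.subset_univ (SG n a x G)), h6]
    linear_combination h4 / 2
  have hcard : ((Finset.univ.image x : Finset (Fin (2 * k))).card : ℂ) = m := by
    rw [Finset.card_image_of_injective _ hx, Finset.card_univ, Fintype.card_fin]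
  have h5 : ∑ r ∈ Finset.univ.image x, chiC P F (pl n (a r)) H = m * H.2 / 2 := by
    have h6 : ∀ r ∈ Finset.univ.image x, chiC P F (pl n (a r)) H = H.2 / 2 := by
      intro r hr
      obtain ⟨j, -, rfl⟩ := Finset.mem_image.mp hr
      exact chiC_left P F H (pl n (a (x j))) (hxl j)
    rw [Finset.sum_congr rfl h6, Finset.sum_const, nsmul_eq_mul, hcard]
    ring
  rw [← Finset.sum_add_sum_compl (Finset.univ.image x), h1, h3,
    Finset.sum_congr rfl h2, ← Finset.sum_mul, ← Finset.sum_add_sum_compl (Finset.univ.image x)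
      (fun r => chiC P F (pl n (a r)) H), h5]
  ring

end family

theorem thm_Lab : St_Lab := by
  classical
  intro I _ _ n κ _ _ ϖ P K _ _ F k α a G hϖ hB hA hk p hrk hN hG hA' H hH v w hw
  obtain ⟨m, x, hx, hxl, hxc⟩ := exists_slots n P F a
  let c : Fin (2 * k) → ℂ := fun r => if (F (a r).1).isLeft then 1 else cvS n P F (a r) (v r)
  have h1 : w = fun r => c r • wS n P F a x (fun j => v (x j)) r := by
    rw [hw]
    funext r
    by_cases hr : ∃ j, x j = r
    · obtain ⟨j, rfl⟩ := hr
      simp only [c]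
      rw [if_pos (hxl j), one_smul, wS_self n P F a x hx]
    · have hr' : ∀ j, x j ≠ r := fun j hj => hr ⟨j, hj⟩
      simp only [c]
      rw [if_neg (hxc r hr'), wS_out n P F a x _ r hr', EE_cm n P F (a r) (hxc r hr')]
  have hsm : ∀ u : Fin (2 * k) → HW κ n, α (fun r => c r • u r) = (∏ r, c r) * α u := fun u =>
    (α : MultilinearMap ℂ (fun _ : Fin (2 * k) => HW κ n) ℂ).map_smul_univ c u
  have h2 := act_wS' n P F α a x hx G hϖ hB hA hk p hrk hN hG hA' hH hxl hxc (fun j => v (x j))
  have h3 : ∀ r, α (Function.update w r (lift n H.1 (w r))) = (∏ r, c r) *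
      α (Function.update (wS n P F a x (fun j => v (x j))) r
        (lift n H.1 (wS n P F a x (fun j => v (x j)) r))) := by
    intro r
    rw [← hsm]
    congr 1
    funext s
    by_cases hs : s = r
    · subst hs
      rw [Function.update_self, Function.update_self, h1, map_smul]
    · rw [Function.update_of_ne hs, Function.update_of_ne hs, h1]
  rw [Finset.sum_congr rfl (fun r _ => h3 r), ← Finset.mul_sum, h2, h1, hsm]
  ring

end Pool.Agent.KT.Alg
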