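import Pool.Agent.KT.Alg.T12
import Pool.Agent.GAM.Asm

/-!
# KT, algebra part: the theorems on classes in a step of the Hodge filtration and on good CM fields
-/

namespace Pool.Agent.KT.Alg

open Pool.Agent.GPC Pool.Agent.Helper7

theorem thm_T1 : St_T1 := fun _ _ _ A n K _ _ S U T hST hS hU hC k α hall hα hfil =>
  hodge_T1' A n K S U T hST hS hU hC k α hα hall GAM.All.ExpL_ GAM.All.PsiK_ GAM.All.Iso_
    GAM.All.ExpAV_ hfil

theorem thm_T2 : St_T2 := fun _ _ _ A n K _ _ S U T hST hS hU hC k α hall hα hgood hdist =>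
  hodge_T2' A n K S U T hST hS hU hC k α hα hall GAM.All.Bal_ GAM.All.ExpAV_ GAM.All.ExpL_
    GAM.All.PsiK_ GAM.All.Iso_ hgood hdist

end Pool.Agent.KT.Alg
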